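import Pool.Agent.TF.D.Spec

/-!
# Block D: the assembly
-/

set_option autoImplicit false

namespace Pool.Agent.TF.D

open MeasureTheory Set Filter Topology Pool.Agent.TO Pool.Agent.TB Pool.Agent.TC Pool.Agent.TP
  Pool.Agent.TF
open scoped ENNReal NNReal Real InnerProductSpace SchwartzMap LineDeriv

/-- components of a convolution -/
theorem cvf_comp {κ : E3 → ℝ} {L : ℝ} (h : KK κ L) (f : V3) (x : E3) (i : Fin 3) :
    (cvf κ f x) i = cvf κ (fun z => f z i) x := by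
  have h1 : Integrable (fun y => κ y • f (x - y)) (volume : Measure E3) :=
    integrable_cvf h (Lp.stronglyMeasurable f) (lintegral_sq_lt f) x
  exact ((EuclideanSpace.proj i : E3 →L[ℝ] ℝ).integral_comp_comm h1).symm

/-- the pairing in the reproducing formula in terms of the harmonic system -/
theorem asm_pair (R : Fin 3 → V3 →L[ℝ] V3) (f q : V3) (i k : Fin 3) {δ y : ℝ} (hδ : 0 < δ)
    (hy : 0 < y) :
    ⟪PM i i (Pp y f), Dp k (y + δ) q⟫_ℝ =
      -∫ x, (cvf (pk y) f x) i * Mq R δ q i k.succ 0 x y := by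
  have hk := kk_dk k (add_pos hy hδ)
  rw [L2.inner_def, ← integral_neg]
  apply integral_congr_ae
  have h1 := coe_PM i i (Pp y f)
  have h2 := coe_cvO (kk_pk hy) f
  have h3 := coe_cvO hk q
  filter_upwards [h1, h2, h3] with x e1 e2 e3
  have e4 : Mq R δ q i k.succ 0 x y = -((cvf (dk k (y + δ)) q x) i) := by
    rw [cvf_comp hk]
    rfl
  rw [e1, e4]
  change ⟪(cvO (pk y) f x) i • ee i, cvO (dk k (y + δ)) q x⟫_ℝ = _
  rw [e2, e3, inner_smul_left, EuclideanSpace.inner_single_left]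
  simp

theorem asm_half : Tendsto (fun δ : ℝ => δ + δ) (𝓝[>] 0) (𝓝[>] 0) := by
  rw [tendsto_nhdsWithin_iff]
  refine ⟨?_, ?_⟩
  · have h : Tendsto (fun δ : ℝ => δ + δ) (𝓝 0) (𝓝 (0 + 0)) :=
      (continuous_id.add continuous_id).tendsto' _ _ rfl
    rw [add_zero] at h
    exact h.mono_left nhdsWithin_le_nhds
  · filter_upwards [self_mem_nhdsWithin] with x hx
    have hx' : (0:ℝ) < x := hx
    exact add_pos hx' hx'

theorem asm_ok : SpAsm := by
  intro hs hfef box rep slo hhs cv hsup hb R hR u₀ hdiv hbmo A hA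
  obtain ⟨C1, hC1, fef⟩ := hfef
  obtain ⟨C2, hC2, sup⟩ := hsup
  set N : ℝ := (A / (4 * C1 * C2)) ^ 2 with hNdef
  have hN : 0 < N := by positivity
  have hsN : √N = A / (4 * C1 * C2) := Real.sqrt_sq (by positivity)
  obtain ⟨τ, hτ, hBox⟩ := box u₀ hbmo N hN
  obtain ⟨hdl, L, hL, hbL⟩ := slo u₀ τ hτ hdiv
  refine ⟨L, hL, fun η hη => ?_⟩
  obtain ⟨hcv, h0, hP⟩ := cv R hR A hA
  have key : ∀ (φ : V3) (S : ℝ), (∀ c ∈ KA R A, ⟪c, φ⟫_ℝ ≤ S) → ∀ δ : ℝ, 0 < δ →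
      ⟪u₀ - lo τ u₀, Pp (δ + δ) φ⟫_ℝ ≤ S := by
    intro φ S hS δ hδ
    have hδ2 : 0 < δ + δ := by positivity
    have hS' : ∀ c ∈ KA R A, ⟪c, Pp (δ + δ) φ⟫_ℝ ≤ S := fun c hc => by
      rw [hs.symP _ hδ2]
      exact hS _ (hP _ hδ2 c hc)
    obtain ⟨hint, hsum⟩ := sup R hs hR A δ S hA hδ φ hS'
    set I : Fin 3 → Fin 3 → ℝ := fun k i =>
      ∫ y in (0:ℝ)..τ, y * ⟪PM i i (Pp y u₀), Dp k (y + δ) (cu δ φ k i)⟫_ℝ with hI
    set J : Fin 3 → Fin 3 → ℝ := fun k i =>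
      ∑ j : Option (Fin 3), ∫ x, |To R j (Pp δ (cu δ φ k i)) x i| with hJ
    have hterm : ∀ k i, |I k i| ≤ C1 * √N * J k i := by
      intro k i
      have h0 := hhs R hs hR (cu δ φ k i) i δ hδ (hint k i)
      have h1 := fef δ _ _ _ h0.1 u₀ N τ hN.le hτ hBox i k.succ 0
      have h2 : I k i = -∫ y in (0:ℝ)..τ, y * ∫ x, (cvf (pk y) u₀ x) i *
          Mq R δ (cu δ φ k i) i k.succ 0 x y := by
        rw [hI, ← intervalIntegral.integral_neg]
        apply intervalIntegral.integral_congr_ae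
        apply Eventually.of_forall
        intro y hy
        rw [uIoc_of_le hτ.le] at hy
        rw [asm_pair R u₀ (cu δ φ k i) i k hδ hy.1]
        ring
      rw [h2, abs_neg]
      exact h1.trans (mul_le_mul_of_nonneg_left h0.2 (by positivity))
    have hrep := rep hs u₀ φ hdiv τ δ hτ hδ
    have h3 : ⟪u₀ - lo τ u₀, Pp (δ + δ) φ⟫_ℝ = -(4 * ∑ k, ∑ i, I k i) := by
      rw [inner_sub_left, hrep]
      ring
    have h4 : -(∑ k, ∑ i, I k i) ≤ C1 * √N * ∑ k, ∑ i, J k i := by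
      rw [← Finset.sum_neg_distrib, Finset.mul_sum]
      apply Finset.sum_le_sum
      intro k _
      rw [← Finset.sum_neg_distrib, Finset.mul_sum]
      apply Finset.sum_le_sum
      intro i _
      exact (neg_le_abs _).trans (hterm k i)
    have h5 : A * ∑ k, ∑ i, J k i ≤ C2 * S := hsum
    rw [h3]
    have h6 : 4 * (C1 * √N * ∑ k, ∑ i, J k i) ≤ S := by
      rw [hsN]
      have h7 : 4 * (C1 * (A / (4 * C1 * C2)) * ∑ k, ∑ i, J k i) =
          (A * ∑ k, ∑ i, J k i) / C2 := by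
        field_simp
      rw [h7, div_le_iff₀ hC2]
      linarith
    linarith
  have hmem : u₀ - lo τ u₀ ∈ closure (KA R A) := by
    apply hb _ _ hcv ⟨0, h0⟩
    intro φ S hS
    have hlim : Tendsto (fun δ : ℝ => ⟪u₀ - lo τ u₀, Pp (δ + δ) φ⟫_ℝ) (𝓝[>] 0)
        (𝓝 ⟪u₀ - lo τ u₀, φ⟫_ℝ) :=
      tendsto_const_nhds.inner ((tendsto_Pp_zero φ).comp asm_half)
    exact le_of_tendsto hlim
      (by filter_upwards [self_mem_nhdsWithin] with δ hδ; exact key φ S hS δ hδ)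
  rw [Metric.mem_closure_iff] at hmem
  obtain ⟨c, ⟨g, dg, w1, w2, w3, w4⟩, hc⟩ := hmem η hη
  refine ⟨g, dg, lo τ u₀, u₀ - lo τ u₀ - c, ⟨w1, w2, w3, hdl, hbL, ?_, ?_⟩⟩
  · rw [← dist_eq_norm]
    exact hc.le
  · rw [← w4]
    abel

end Pool.Agent.TF.D
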