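import Pool.Agent.TF.D.Spec

/-!
# Row D9b: the Carleson condition passes from the heat extension to the Poisson extension
-/

set_option autoImplicit false
set_option maxHeartbeats 400000

namespace Pool.Agent.TF.D

open MeasureTheory Set Filter Topology Pool.Agent.TO Pool.Agent.TB Pool.Agent.TC Pool.Agent.TP
  Pool.Agent.TF
open scoped ENNReal NNReal Real InnerProductSpace SchwartzMap LineDeriv

theorem bx_sb_nonneg {y s : ℝ} (hy : 0 < y) (hs : 0 < s) : 0 ≤ sb y s := by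
  unfold sb
  positivity

theorem bx_sb_meas : Measurable fun p : ℝ × ℝ => sb p.1 p.2 := by
  unfold sb
  fun_prop

theorem bx_gauss_meas : Measurable fun p : ℝ × E3 => gauss p.1 p.2 := by
  unfold gauss
  fun_prop

theorem bx_heat_meas (f : V3) : StronglyMeasurable fun p : ℝ × E3 => heatF p.1 f p.2 := by
  have h2 : StronglyMeasurable (Function.uncurry fun (p : ℝ × E3) (y : E3) =>
      gauss p.1 y • fld f (p.2 - y)) := by
    have h3 : StronglyMeasurable fun q : (ℝ × E3) × E3 => gauss q.1.1 q.2 :=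
      (bx_gauss_meas.comp ((measurable_fst.comp measurable_fst).prodMk
        measurable_snd)).stronglyMeasurable
    exact h3.smul ((Lp.stronglyMeasurable f).comp_measurable
      ((measurable_snd.comp measurable_fst).sub measurable_snd))
  exact h2.integral_prod_right

theorem bx_gauss_KK {s : ℝ} (hs : 0 < s) : KK (gauss s) 1 ∧
    ∀ y, |gauss s y| ≤ (4 * π * s) ^ (-(3 / 2) : ℝ) := by
  have hp : (0 : ℝ) < 4 * π * s := by positivity
  have h0 : ∀ y, 0 ≤ gauss s y := fun y => by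
    unfold gauss
    positivity
  have hb : ∀ y, |gauss s y| ≤ (4 * π * s) ^ (-(3 / 2) : ℝ) := by
    intro y
    rw [abs_of_nonneg (h0 y)]
    unfold gauss
    refine mul_le_of_le_one_right (by positivity) (Real.exp_le_one_iff.2 ?_)
    have : 0 ≤ ‖y‖ ^ 2 / (4 * s) := by positivity
    rw [neg_div]
    linarith
  have he : ∀ y : E3, gauss s y = (4 * π * s) ^ (-(3 / 2) : ℝ) *
      Real.exp (-(1 / (4 * s)) * ‖y‖ ^ 2) := by
    intro y
    unfold gauss
    congr 2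
    field_simp
  have h1 : ∫ y : E3, (4 * π * s) ^ (-(3 / 2) : ℝ) *
      Real.exp (-(1 / (4 * s)) * ‖y‖ ^ 2) = 1 := by
    rw [integral_const_mul, GaussianFourier.integral_rexp_neg_mul_sq_norm (by positivity)]
    have h2 : (Module.finrank ℝ E3 : ℝ) = 3 := by simp
    have h3 : π / (1 / (4 * s)) = 4 * π * s := by field_simp
    rw [h2, h3, Real.rpow_neg hp.le]
    exact inv_mul_cancel₀ (by positivity)
  have h2 : ∫ y : E3, gauss s y = 1 := by
    rw [← h1]
    congr 1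
    ext y
    exact he y
  have hint : Integrable (gauss s) (volume : Measure E3) :=
    Integrable.of_integral_ne_zero (by rw [h2]; norm_num)
  refine ⟨⟨by unfold gauss; fun_prop, hint, ?_, ⟨_, by positivity, hb⟩⟩, hb⟩
  have h3 : ∫ y : E3, |gauss s y| = ∫ y : E3, gauss s y := by
    congr 1
    ext y
    rw [abs_of_nonneg (h0 y)]
  rw [h3, h2]

/-- The decay of the heat extension for large times. -/
theorem bx_heat_le (f : V3) {s : ℝ} (hs : 0 < s) (x : E3) :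
    ‖heatF s f x‖ₑ ^ 2 ≤ ENNReal.ofReal (s ^ (-(3 / 2) : ℝ)) * ‖f‖ₑ ^ 2 := by
  obtain ⟨hK, hb⟩ := bx_gauss_KK hs
  have h1 := sq_cvf_le hK (Lp.stronglyMeasurable f) x
  have h2 : heatF s f x = cvf (gauss s) f x := rfl
  rw [h2]
  refine h1.trans ?_
  rw [ENNReal.ofReal_one, one_mul]
  have h3 : ∀ y, ‖gauss s y‖ₑ * ‖f (x - y)‖ₑ ^ 2 ≤
      ENNReal.ofReal (s ^ (-(3 / 2) : ℝ)) * ‖f (x - y)‖ₑ ^ 2 := by
    intro y
    gcongr
    rw [← ofReal_norm, Real.norm_eq_abs]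
    refine ENNReal.ofReal_le_ofReal ((hb y).trans ?_)
    refine Real.rpow_le_rpow_of_nonpos hs ?_ (by norm_num)
    nlinarith [Real.pi_gt_three]
  refine (lintegral_mono h3).trans ?_
  rw [lintegral_const_mul' _ _ ENNReal.ofReal_ne_top, ← lintegral_sq_V3]
  exact le_of_eq (congrArg _ (lintegral_sub_left_eq_self (μ := (volume : Measure E3))
    (fun y => ‖f y‖ₑ ^ 2) x))

/-- Tonelli. -/
theorem bx_swap (h : ℝ → E3 → ℝ≥0∞) (hh : Measurable fun p : ℝ × E3 => h p.1 p.2)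
    (B : Set E3) (I : Set ℝ) (k : ℝ → ℝ → ℝ≥0∞)
    (hk : Measurable fun p : ℝ × ℝ => k p.1 p.2) (hk' : ∀ y s, k y s ≠ ∞) :
    ∫⁻ y in I, ∫⁻ x in B, ∫⁻ s in Ioi (0 : ℝ), k y s * h s x =
    ∫⁻ s in Ioi (0 : ℝ), (∫⁻ y in I, k y s) * ∫⁻ x in B, h s x := by
  have hH' : Measurable fun s : ℝ => ∫⁻ x in B, h s x :=
    Measurable.lintegral_prod_right' (ν := volume.restrict B)
      (f := fun p : ℝ × E3 => h p.1 p.2) hh
  have h1 : ∀ y, ∫⁻ x in B, ∫⁻ s in Ioi (0 : ℝ), k y s * h s x =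
      ∫⁻ s in Ioi (0 : ℝ), k y s * ∫⁻ x in B, h s x := by
    intro y
    have m1 : Measurable fun p : E3 × ℝ => k y p.2 :=
      hk.comp (measurable_const.prodMk measurable_snd)
    have m2 : Measurable fun p : E3 × ℝ => h p.2 p.1 :=
      hh.comp (measurable_snd.prodMk measurable_fst)
    have hm : Measurable (Function.uncurry fun (x : E3) (s : ℝ) => k y s * h s x) := m1.mul m2
    have h2 := lintegral_lintegral_swap (μ := volume.restrict B)
      (ν := volume.restrict (Ioi (0 : ℝ))) hm.aemeasurable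
    refine h2.trans ?_
    refine lintegral_congr fun s => ?_
    exact lintegral_const_mul' _ _ (hk' y s)
  have hm2 : Measurable (Function.uncurry fun (y : ℝ) (s : ℝ) =>
      k y s * ∫⁻ x in B, h s x) :=
    hk.mul (hH'.comp measurable_snd)
  have h3 := lintegral_lintegral_swap (μ := volume.restrict I)
    (ν := volume.restrict (Ioi (0 : ℝ))) hm2.aemeasurable
  refine (lintegral_congr h1).trans (h3.trans ?_)
  refine lintegral_congr fun s => ?_
  exact lintegral_mul_const _ (hk.comp (measurable_id.prodMk measurable_const))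

theorem bx_tonelli (h : SpSb) (f : V3) (z : E3) (r : ℝ) :
    ∫⁻ y in Ioo 0 r, ∫⁻ x in Metric.closedBall z r, ENNReal.ofReal (y * ‖cvf (pk y) f x‖ ^ 2) ≤
    ∫⁻ s in Ioi (0 : ℝ), (∫⁻ y in Ioo 0 r, ENNReal.ofReal (y * sb y s)) *
      ∫⁻ x in Metric.closedBall z r, ‖heatF s f x‖ₑ ^ 2 := by
  have hH : Measurable fun p : ℝ × E3 => ‖heatF p.1 f p.2‖ₑ ^ 2 :=
    (bx_heat_meas f).enorm.pow_const 2
  have hs := bx_swap (fun s x => ‖heatF s f x‖ₑ ^ 2) hH (Metric.closedBall z r) (Ioo 0 r)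
    (fun y s => ENNReal.ofReal (y * sb y s))
    (measurable_fst.mul bx_sb_meas).ennreal_ofReal fun _ _ => ENNReal.ofReal_ne_top
  refine le_trans ?_ (le_of_eq hs)
  refine setLIntegral_mono' measurableSet_Ioo fun y hy => ?_
  refine lintegral_mono fun x => ?_
  show ENNReal.ofReal (y * ‖cvf (pk y) f x‖ ^ 2) ≤
    ∫⁻ s in Ioi (0 : ℝ), ENNReal.ofReal (y * sb y s) * ‖heatF s f x‖ₑ ^ 2
  have h1 := h.2.2.1 y f x hy.1
  have h2 : ∫⁻ s in Ioi (0 : ℝ), ENNReal.ofReal (y * sb y s) * ‖heatF s f x‖ₑ ^ 2 =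
      ENNReal.ofReal y * ∫⁻ s in Ioi (0 : ℝ), ENNReal.ofReal (sb y s) * ‖heatF s f x‖ₑ ^ 2 := by
    rw [← lintegral_const_mul' _ _ ENNReal.ofReal_ne_top]
    refine lintegral_congr fun s => ?_
    rw [ENNReal.ofReal_mul hy.1.le, mul_assoc]
  rw [h2, ENNReal.ofReal_mul hy.1.le]
  gcongr

theorem bx_pow (a c : ℝ) (ha : a < -1) (hc : 0 < c) :
    ∫⁻ s in Ici c, ENNReal.ofReal (s ^ a) = ENNReal.ofReal (-c ^ (a + 1) / (a + 1)) := by
  rw [← integral_Ioi_rpow_of_lt ha hc, setLIntegral_congr Ioi_ae_eq_Ici.symm,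
    ofReal_integral_eq_lintegral_ofReal (integrableOn_Ioi_rpow_of_lt ha hc)]
  refine (ae_restrict_mem measurableSet_Ioi).mono fun s hs => ?_
  exact Real.rpow_nonneg (hc.trans hs).le _

/-- The bound of the middle and of the last part: `K s ≤ r³ s^(-3/2)`, `H s ≤ a s^b`. -/
theorem bx_part {r c M b : ℝ} (hr : 0 < r) (hc : 0 < c) (hM : 0 ≤ M) (hb : b < 1 / 2) (I : Set ℝ)
    (hI : I ⊆ Ici c) (hIm : MeasurableSet I) (K H : ℝ → ℝ≥0∞)
    (hK : ∀ s ∈ I, K s ≤ ENNReal.ofReal (r ^ 3 / s ^ (3 / 2 : ℝ)))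
    (hH : ∀ s ∈ I, H s ≤ ENNReal.ofReal (M * s ^ b)) :
    ∫⁻ s in I, K s * H s ≤ ENNReal.ofReal (r ^ 3 * M * (-c ^ (b - 1 / 2) / (b - 1 / 2))) := by
  have h1 : ∀ s ∈ I, K s * H s ≤ ENNReal.ofReal (r ^ 3 * M) * ENNReal.ofReal (s ^ (b - 3 / 2)) := by
    intro s hs
    have hs0 : 0 < s := hc.trans_le (hI hs)
    refine (mul_le_mul' (hK s hs) (hH s hs)).trans (le_of_eq ?_)
    rw [← ENNReal.ofReal_mul (by positivity), ← ENNReal.ofReal_mul (by positivity)]
    congr 1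
    rw [Real.rpow_sub hs0]
    field_simp
  calc ∫⁻ s in I, K s * H s
      ≤ ∫⁻ s in I, ENNReal.ofReal (r ^ 3 * M) * ENNReal.ofReal (s ^ (b - 3 / 2)) :=
        setLIntegral_mono' hIm h1
    _ ≤ ∫⁻ s in Ici c, ENNReal.ofReal (r ^ 3 * M) * ENNReal.ofReal (s ^ (b - 3 / 2)) :=
        lintegral_mono_set hI
    _ = ENNReal.ofReal (r ^ 3 * M) * ENNReal.ofReal (-c ^ (b - 1 / 2) / (b - 1 / 2)) := by
        rw [lintegral_const_mul' _ _ ENNReal.ofReal_ne_top, bx_pow _ _ (by linarith) hc]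
        congr 3
        · ring_nf
        · ring
    _ = _ := by
        rw [← ENNReal.ofReal_mul (by positivity)]

theorem box_ok (h : SpSb) : SpBox := by
  intro f hf N hN
  set η : ℝ := √(N / 8) with hη
  have hη0 : 0 < η := Real.sqrt_pos.2 (by positivity)
  have hη2 : η ^ 2 = N / 8 := Real.sq_sqrt (by positivity)
  obtain ⟨t, ht, hX1, hX2⟩ := hf η hη0
  set t0 : ℝ := t / 2 with ht0
  have ht0' : 0 < t0 := by positivity
  set F : ℝ := ‖f‖ ^ 2 with hF
  have hF0 : 0 ≤ F := by positivity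
  refine ⟨min (min 1 (t0 / 2)) (N * t0 ^ 2 / (6 * (F + 1))), by positivity, fun z r hr hrτ => ?_⟩
  have hr1 : r ≤ 1 := hrτ.trans ((min_le_left _ _).trans (min_le_left _ _))
  have hr2 : r ≤ t0 / 2 := hrτ.trans ((min_le_left _ _).trans (min_le_right _ _))
  have hr3 : r ≤ N * t0 ^ 2 / (6 * (F + 1)) := hrτ.trans (min_le_right _ _)
  have hσ : r ^ 2 < t0 := by nlinarith
  have hσ0 : 0 < r ^ 2 := by positivity
  have hsq : √(r ^ 2) = r := Real.sqrt_sq hr.le
  refine (bx_tonelli h f z r).trans ?_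
  set K : ℝ → ℝ≥0∞ := fun s => ∫⁻ y in Ioo 0 r, ENNReal.ofReal (y * sb y s) with hK
  set H : ℝ → ℝ≥0∞ := fun s => ∫⁻ x in Metric.closedBall z r, ‖heatF s f x‖ₑ ^ 2 with hH
  have hK1 : ∀ s, 0 < s → K s ≤ 1 := fun s hs => (h.2.2.2 r s hr hs).1
  have hK2 : ∀ s, 0 < s → K s ≤ ENNReal.ofReal (r ^ 3 / s ^ (3 / 2 : ℝ)) := fun s hs =>
    (h.2.2.2 r s hr hs).2
  have hvol : volume (Metric.closedBall z r) = ENNReal.ofReal (r ^ 3 * (π * 4 / 3)) := by
    rw [EuclideanSpace.volume_closedBall_fin_three, ENNReal.ofReal_mul (by positivity),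
      ENNReal.ofReal_pow hr.le]
  have hI1 : ∫⁻ s in Ioo 0 (r ^ 2), K s * H s ≤ ENNReal.ofReal (N / 8 * r ^ 3) := by
    calc ∫⁻ s in Ioo 0 (r ^ 2), K s * H s ≤ ∫⁻ s in Ioo 0 (r ^ 2), H s := by
          refine setLIntegral_mono' measurableSet_Ioo fun s hs => ?_
          exact (mul_le_mul_left (hK1 s hs.1) _).trans (le_of_eq (one_mul _))
      _ ≤ ENNReal.ofReal (η ^ 2 * √(r ^ 2) ^ 3) := by
          have := hX2 (r ^ 2) ⟨hσ0, by linarith⟩ z
          rwa [hsq] at this ⊢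
      _ = _ := by rw [hsq, hη2]
  have hI2 : ∫⁻ s in Ico (r ^ 2) t0, K s * H s ≤ ENNReal.ofReal (3 / 8 * N * r ^ 3) := by
    have h1 := bx_part (b := -1) hr hσ0 (M := η ^ 2 * (r ^ 3 * (π * 4 / 3))) (by positivity)
      (by norm_num) (Ico (r ^ 2) t0) (fun s hs => hs.1) measurableSet_Ico K H
      (fun s hs => hK2 s (hσ0.trans_le hs.1)) (fun s hs => ?_)
    · refine h1.trans (ENNReal.ofReal_le_ofReal ?_)
      have e1 : (r ^ 2) ^ ((-1 : ℝ) - 1 / 2) = (r ^ 3)⁻¹ := by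
        rw [← Real.rpow_natCast r 2, ← Real.rpow_mul hr.le, ← Real.rpow_natCast r 3,
          ← Real.rpow_neg hr.le]
        norm_num
      rw [e1, hη2]
      have hπ := Real.pi_lt_d2
      have e2 : r ^ 3 * (N / 8 * (r ^ 3 * (π * 4 / 3))) * (-(r ^ 3)⁻¹ / (-1 - 1 / 2)) =
          π / 9 * N * r ^ 3 := by
        field_simp
        ring
      rw [e2]
      have e3 : π / 9 ≤ 3 / 8 := by linarith
      exact mul_le_mul_of_nonneg_right (mul_le_mul_of_nonneg_right e3 hN.le) (by positivity)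
    · have hs0 : 0 < s := hσ0.trans_le hs.1
      have hb : ∀ x, ‖heatF s f x‖ₑ ^ 2 ≤ ENNReal.ofReal (η ^ 2 * s ^ (-1 : ℝ)) := by
        intro x
        have h2 := hX1 s ⟨hs0, by linarith [hs.2]⟩ x
        rw [← ofReal_norm, ← ENNReal.ofReal_pow (norm_nonneg _)]
        refine ENNReal.ofReal_le_ofReal ?_
        calc ‖heatF s f x‖ ^ 2 ≤ (η / √s) ^ 2 := by gcongr
          _ = η ^ 2 * s ^ (-1 : ℝ) := by
            rw [div_pow, Real.sq_sqrt hs0.le, Real.rpow_neg_one]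
            ring
      calc H s ≤ ∫⁻ x in Metric.closedBall z r, ENNReal.ofReal (η ^ 2 * s ^ (-1 : ℝ)) :=
            lintegral_mono hb
        _ = ENNReal.ofReal (η ^ 2 * s ^ (-1 : ℝ)) * ENNReal.ofReal (r ^ 3 * (π * 4 / 3)) := by
            rw [setLIntegral_const, hvol]
        _ = _ := by
            rw [← ENNReal.ofReal_mul (by positivity)]
            congr 1
            ring
  have hI3 : ∫⁻ s in Ici t0, K s * H s ≤ ENNReal.ofReal (N / 2 * r ^ 3) := by
    have h1 := bx_part (b := -(3 / 2)) hr ht0' (M := F * (r ^ 3 * (π * 4 / 3))) (by positivity)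
      (by norm_num) (Ici t0) (fun s hs => hs) measurableSet_Ici K H
      (fun s hs => hK2 s (ht0'.trans_le hs)) (fun s hs => ?_)
    · refine h1.trans (ENNReal.ofReal_le_ofReal ?_)
      have e1 : t0 ^ (-(3 / 2 : ℝ) - 1 / 2) = (t0 ^ 2)⁻¹ := by
        rw [← Real.rpow_natCast t0 2, ← Real.rpow_neg ht0'.le]
        norm_num
      rw [e1]
      have e2 : r ^ 3 * (F * (r ^ 3 * (π * 4 / 3))) * (-(t0 ^ 2)⁻¹ / (-(3 / 2) - 1 / 2)) =
          (2 * π / 3 * F * r ^ 3 / t0 ^ 2) * r ^ 3 := by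
        field_simp
        ring
      rw [e2]
      refine mul_le_mul_of_nonneg_right ?_ (by positivity)
      rw [div_le_iff₀ (by positivity)]
      have hπ := Real.pi_lt_d2
      have h3 : r ^ 3 ≤ r := by
        have : r ^ 3 = r * r ^ 2 := by ring
        rw [this]
        nlinarith [pow_le_one₀ hr.le hr1 (n := 2)]
      have h4 : r * (6 * (F + 1)) ≤ N * t0 ^ 2 := by
        rwa [le_div_iff₀ (by positivity)] at hr3
      have h5 : F * r ^ 3 ≤ F * r := by gcongr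
      have h6 : 0 ≤ F * r := by positivity
      nlinarith [mul_nonneg hF0 (pow_nonneg hr.le 3)]
    · have hs0 : 0 < s := ht0'.trans_le hs
      calc H s ≤ ∫⁻ x in Metric.closedBall z r, ENNReal.ofReal (s ^ (-(3 / 2) : ℝ)) * ‖f‖ₑ ^ 2 :=
            lintegral_mono fun x => bx_heat_le f hs0 x
        _ = ENNReal.ofReal (s ^ (-(3 / 2) : ℝ)) * ‖f‖ₑ ^ 2 *
              ENNReal.ofReal (r ^ 3 * (π * 4 / 3)) := by
            rw [setLIntegral_const, hvol]
        _ = _ := by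
            rw [← ofReal_norm, ← ENNReal.ofReal_pow (norm_nonneg _),
              ← ENNReal.ofReal_mul (by positivity), ← ENNReal.ofReal_mul (by positivity)]
            congr 1
            ring
  have hsub : Ioi (0 : ℝ) ⊆ (Ioo 0 (r ^ 2) ∪ Ico (r ^ 2) t0) ∪ Ici t0 := by
    intro s hs
    by_cases h1 : s < r ^ 2
    · exact Or.inl (Or.inl ⟨hs, h1⟩)
    by_cases h2 : s < t0
    · exact Or.inl (Or.inr ⟨not_lt.1 h1, h2⟩)
    · exact Or.inr (not_lt.1 h2)
  calc ∫⁻ s in Ioi (0 : ℝ), K s * H s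
      ≤ ∫⁻ s in (Ioo 0 (r ^ 2) ∪ Ico (r ^ 2) t0) ∪ Ici t0, K s * H s := lintegral_mono_set hsub
    _ ≤ (∫⁻ s in Ioo 0 (r ^ 2) ∪ Ico (r ^ 2) t0, K s * H s) + ∫⁻ s in Ici t0, K s * H s :=
        lintegral_union_le _ _ _
    _ ≤ ((∫⁻ s in Ioo 0 (r ^ 2), K s * H s) + ∫⁻ s in Ico (r ^ 2) t0, K s * H s) +
          ∫⁻ s in Ici t0, K s * H s := by
        gcongr
        exact lintegral_union_le _ _ _
    _ ≤ (ENNReal.ofReal (N / 8 * r ^ 3) + ENNReal.ofReal (3 / 8 * N * r ^ 3)) +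
          ENNReal.ofReal (N / 2 * r ^ 3) := by gcongr
    _ = ENNReal.ofReal (N * r ^ 3) := by
        rw [← ENNReal.ofReal_add (by positivity) (by positivity),
          ← ENNReal.ofReal_add (by positivity) (by positivity)]
        congr 1
        ring

end Pool.Agent.TF.D
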