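import Pool.Agent.TF.D.Spec

/-!
# Carleson embedding
-/

set_option autoImplicit false

namespace Pool.Agent.TF.D

open MeasureTheory Set Filter Topology Metric Pool.Agent.TO Pool.Agent.TB Pool.Agent.TC
  Pool.Agent.TP Pool.Agent.TF
open scoped ENNReal NNReal Real InnerProductSpace SchwartzMap LineDeriv

namespace Car

variable {y : ℝ}

theorem sg4 (hy : 0 < y) (x : E3) {A : ℝ} (hA : 0 < A) (h : A ^ 2 ≤ y ^ 2 + ‖x‖ ^ 2) :
    sg y x ^ 4 ≤ (A ^ 4)⁻¹ := by
  have h1 := sg_sq hy x
  have h2 := sg_pos hy x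
  have h3 : sg y x ^ 2 * A ^ 2 ≤ 1 := by
    rw [← h1]
    exact mul_le_mul_of_nonneg_left h (by positivity)
  rw [← one_div, le_div_iff₀ (by positivity)]
  calc sg y x ^ 4 * A ^ 4 = (sg y x ^ 2 * A ^ 2) ^ 2 := by ring
    _ ≤ 1 := pow_le_one₀ (by positivity) h3

theorem pk_near (hy : 0 < y) (x : E3) : pk y x ≤ (JJ 4)⁻¹ * (y ^ 3)⁻¹ := by
  unfold pk
  refine mul_le_mul_of_nonneg_left ?_ JJ4_inv_pos.le
  have h := sg4 hy x hy (by nlinarith [norm_nonneg x])
  calc y * sg y x ^ 4 ≤ y * (y ^ 4)⁻¹ := mul_le_mul_of_nonneg_left h hy.le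
    _ = (y ^ 3)⁻¹ := by
        have := hy.ne'
        field_simp

theorem pk_far (hy : 0 < y) (x : E3) {R : ℝ} (hR : 0 < R) (h : R ≤ ‖x‖) :
    pk y x ≤ (JJ 4)⁻¹ * (y * (R ^ 4)⁻¹) := by
  unfold pk
  refine mul_le_mul_of_nonneg_left ?_ JJ4_inv_pos.le
  have h := sg4 hy x hR (by nlinarith [norm_nonneg x, sq_nonneg y])
  exact mul_le_mul_of_nonneg_left h hy.le

/-- the coefficients of the dyadic majorant -/
noncomputable def co (y : ℝ) (j : ℕ) : ℝ := (JJ 4)⁻¹ * (y ^ 3)⁻¹ * (1 / 16) ^ j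

theorem pk_sum (hy : 0 < y) (z : E3) : ENNReal.ofReal (pk y z) ≤
    ∑' j : ℕ, ENNReal.ofReal (co y j) *
      (closedBall (0 : E3) (2 ^ (j + 1) * y)).indicator (fun _ => (1 : ℝ≥0∞)) z := by
  rcases lt_or_ge ‖z‖ y with h | h
  · refine le_trans ?_ (ENNReal.le_tsum 0)
    rw [indicator_of_mem, mul_one]
    · apply ENNReal.ofReal_le_ofReal
      unfold co
      rw [pow_zero, mul_one]
      exact pk_near hy z
    · rw [mem_closedBall_zero_iff]
      norm_num
      linarith
  · have h1 : 1 ≤ ‖z‖ / y := by rwa [le_div_iff₀ hy, one_mul]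
    obtain ⟨n, hn1, hn2⟩ := exists_nat_pow_near h1 (by norm_num : (1:ℝ) < 2)
    rw [le_div_iff₀ hy] at hn1
    rw [div_lt_iff₀ hy] at hn2
    refine le_trans ?_ (ENNReal.le_tsum n)
    rw [indicator_of_mem, mul_one]
    · apply ENNReal.ofReal_le_ofReal
      refine (pk_far hy z (by positivity) hn1).trans (le_of_eq ?_)
      unfold co
      rw [mul_assoc]
      congr 1
      have := hy.ne'
      rw [one_div, inv_pow, mul_pow, ← pow_mul, mul_comm n 4, pow_mul]
      norm_num
      field_simp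
    · rw [mem_closedBall_zero_iff]
      exact hn2.le

theorem lint_ball (h : E3 → ℝ≥0∞) (x : E3) (R : ℝ) :
    ∫⁻ z, (closedBall (0 : E3) R).indicator (fun _ => (1 : ℝ≥0∞)) z * h (x - z) =
      ∫⁻ z in closedBall x R, h z := by
  rw [← lintegral_indicator measurableSet_closedBall,
    ← lintegral_sub_left_eq_self (fun w => (closedBall x R).indicator (fun a => h a) w) x]
  apply lintegral_congr
  intro z
  by_cases hz : z ∈ closedBall (0 : E3) R
  · rw [indicator_of_mem hz, indicator_of_mem, one_mul]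
    rw [mem_closedBall_zero_iff] at hz
    rw [mem_closedBall, dist_eq_norm]
    simpa using hz
  · rw [indicator_of_notMem hz, indicator_of_notMem, zero_mul]
    rw [mem_closedBall_zero_iff] at hz
    rw [mem_closedBall, dist_eq_norm]
    simpa using hz

/-- the constant of the maximal function -/
noncomputable def cc : ℝ := JJ 4 / 32

theorem cc_pos : 0 < cc := by
  have := JJ_pos (n := 4) le_rfl
  unfold cc
  positivity

theorem lint_le (hy : 0 < y) (x : E3) {h : E3 → ℝ≥0∞} (hm : Measurable h) {s : ℝ} (hs : 0 ≤ s)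
    (hb : ∀ r, y ≤ r → ∫⁻ z in closedBall x r, h z ≤ ENNReal.ofReal (cc * s * r ^ 3)) :
    ∫⁻ z, ENNReal.ofReal (pk y z) * h (x - z) ≤ ENNReal.ofReal (s / 2) := by
  have hJ := JJ_pos (n := 4) le_rfl
  have hco : ∀ j, 0 ≤ co y j := fun j => by unfold co; positivity
  calc ∫⁻ z, ENNReal.ofReal (pk y z) * h (x - z)
      ≤ ∫⁻ z, ∑' j : ℕ, ENNReal.ofReal (co y j) *
        ((closedBall (0 : E3) (2 ^ (j + 1) * y)).indicator (fun _ => (1 : ℝ≥0∞)) z *
          h (x - z)) := by
        apply lintegral_mono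
        intro z
        refine (mul_le_mul_left (pk_sum hy z) (h (x - z))).trans (le_of_eq ?_)
        rw [← ENNReal.tsum_mul_right]
        exact tsum_congr fun j => mul_assoc _ _ _
    _ = ∑' j : ℕ, ENNReal.ofReal (co y j) * ∫⁻ z in closedBall x (2 ^ (j + 1) * y), h z := by
        rw [lintegral_tsum]
        · apply tsum_congr
          intro j
          rw [lintegral_const_mul', lint_ball]
          exact ENNReal.ofReal_ne_top
        · intro j
          refine AEMeasurable.const_mul (Measurable.aemeasurable ?_) _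
          exact (measurable_const.indicator measurableSet_closedBall).mul
            (hm.comp (measurable_const.sub measurable_id))
    _ ≤ ∑' j : ℕ, ENNReal.ofReal (s / 4 * (1 / 2) ^ j) := by
        apply ENNReal.tsum_le_tsum
        intro j
        have hr : y ≤ 2 ^ (j + 1) * y := by
          have : (1:ℝ) ≤ 2 ^ (j + 1) := one_le_pow₀ (by norm_num)
          nlinarith
        refine (mul_le_mul_right (hb _ hr) _).trans (le_of_eq ?_)
        rw [← ENNReal.ofReal_mul (hco j)]
        congr 1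
        unfold co cc
        have hy' := hy.ne'
        have e1 : ((2:ℝ) ^ (j + 1) * y) ^ 3 = 8 * 8 ^ j * y ^ 3 := by
          rw [mul_pow, ← pow_mul, mul_comm (j + 1) 3, pow_mul, pow_succ,
            show ((2:ℝ) ^ 3) = 8 by norm_num]
          ring
        have e2 : ((1:ℝ) / 16) ^ j * 8 ^ j = (1 / 2) ^ j := by
          rw [← mul_pow]
          norm_num
        rw [e1]
        calc (JJ 4)⁻¹ * (y ^ 3)⁻¹ * (1 / 16) ^ j * (JJ 4 / 32 * s * (8 * 8 ^ j * y ^ 3))
            = ((JJ 4)⁻¹ * JJ 4) * ((y ^ 3)⁻¹ * y ^ 3) * (s / 4) * ((1 / 16) ^ j * 8 ^ j) := by ring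
          _ = _ := by
              rw [e2, inv_mul_cancel₀ hJ.ne', inv_mul_cancel₀ (by positivity)]
              ring
    _ = ENNReal.ofReal (s / 2) := by
        rw [← ENNReal.ofReal_tsum_of_nonneg (fun j => by positivity)
          (summable_geometric_two.mul_left _), tsum_mul_left, tsum_geometric_two]
        congr 1
        ring

theorem cvf_eq {g : E3 → ℝ} (hg : Continuous g) (hg0 : ∀ x, 0 ≤ g x) {B : ℝ} (hB : ∀ x, g x ≤ B)
    (hy : 0 < y) (x : E3) : ENNReal.ofReal (cvf (pk y) g x) =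
      ∫⁻ z, ENNReal.ofReal (pk y z) * ENNReal.ofReal (g (x - z)) := by
  unfold cvf
  rw [ofReal_integral_eq_lintegral_ofReal]
  · apply lintegral_congr
    intro z
    rw [smul_eq_mul, ENNReal.ofReal_mul (pk_nonneg hy z)]
  · have h1 := (kk_pk hy).int
    refine h1.mul_bdd (c := B) ?_ ?_
    · exact (hg.comp (continuous_const.sub continuous_id)).aestronglyMeasurable
    · refine Eventually.of_forall fun z => ?_
      rw [Real.norm_eq_abs, abs_of_nonneg (hg0 _)]
      exact hB _
  · refine Eventually.of_forall fun z => ?_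
    exact mul_nonneg (pk_nonneg hy z) (hg0 _)

theorem lint_pk (hy : 0 < y) : ∫⁻ z, ENNReal.ofReal (pk y z) = 1 := by
  rw [← ofReal_integral_eq_lintegral_ofReal (kk_pk hy).int
    (Eventually.of_forall fun z => pk_nonneg hy z), integral_pk hy, ENNReal.ofReal_one]

/-- large values of the extension give a ball with a large average -/
theorem exists_ball {g : E3 → ℝ} (hg : Continuous g) (hg0 : ∀ x, 0 ≤ g x) {B : ℝ}
    (hB : ∀ x, g x ≤ B) (hy : 0 < y) (x : E3) {s : ℝ} (hs : 0 ≤ s) (h : s < cvf (pk y) g x) :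
    ∃ r, y ≤ r ∧ ENNReal.ofReal (cc * s * r ^ 3) <
      ∫⁻ z in closedBall x r, ENNReal.ofReal (g z - s / 2) := by
  by_contra hcon
  push Not at hcon
  have hm : Measurable fun z => ENNReal.ofReal (g z - s / 2) :=
    (hg.sub continuous_const).measurable.ennreal_ofReal
  have h1 := lint_le hy x hm hs hcon
  have h2 : ENNReal.ofReal (cvf (pk y) g x) ≤ ENNReal.ofReal s := by
    rw [cvf_eq hg hg0 hB hy]
    calc ∫⁻ z, ENNReal.ofReal (pk y z) * ENNReal.ofReal (g (x - z))
        ≤ ∫⁻ z, (ENNReal.ofReal (pk y z) * ENNReal.ofReal (s / 2) +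
          ENNReal.ofReal (pk y z) * ENNReal.ofReal (g (x - z) - s / 2)) := by
          apply lintegral_mono
          intro z
          show ENNReal.ofReal (pk y z) * ENNReal.ofReal (g (x - z)) ≤
            ENNReal.ofReal (pk y z) * ENNReal.ofReal (s / 2) +
              ENNReal.ofReal (pk y z) * ENNReal.ofReal (g (x - z) - s / 2)
          rw [← mul_add]
          refine mul_le_mul_right ?_ _
          calc ENNReal.ofReal (g (x - z)) = ENNReal.ofReal (s / 2 + (g (x - z) - s / 2)) := by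
                congr 1
                ring
            _ ≤ _ := ENNReal.ofReal_add_le
      _ = ENNReal.ofReal (s / 2) +
          ∫⁻ z, ENNReal.ofReal (pk y z) * ENNReal.ofReal (g (x - z) - s / 2) := by
          rw [lintegral_add_left, lintegral_mul_const, lint_pk hy, one_mul]
          · exact (continuous_pk hy).measurable.ennreal_ofReal
          · exact (continuous_pk hy).measurable.ennreal_ofReal.mul_const _
      _ ≤ ENNReal.ofReal (s / 2) + ENNReal.ofReal (s / 2) := add_le_add_right h1 _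
      _ = ENNReal.ofReal s := by
          rw [← ENNReal.ofReal_add (by positivity) (by positivity)]
          congr 1
          ring
  exact absurd ((ENNReal.ofReal_le_ofReal_iff hs).1 h2) (not_le.2 h)

/-! ### the weak type estimate -/

theorem weak {g : E3 → ℝ} (hg : Continuous g) (hg0 : ∀ x, 0 ≤ g x) {B : ℝ}
    (hB : ∀ x, g x ≤ B) {s : ℝ} (hs : 0 < s)
    (hI : ∫⁻ z, ENNReal.ofReal (g z - s / 2) ≠ ∞)
    (μ : Measure (E3 × ℝ)) {N : ℝ} (hN : 0 ≤ N)
    (hμ : ∀ (z : E3) (r : ℝ), 0 < r → μ (closedBall z r ×ˢ Ioc 0 r) ≤ ENNReal.ofReal (N * r ^ 3)) :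
    μ {p | s < cvf (pk p.2) g p.1 ∧ 0 < p.2} ≤
      ENNReal.ofReal (125 * N / (cc * s)) * ∫⁻ z, ENNReal.ofReal (g z - s / 2) := by
  have hc := cc_pos
  set I := ∫⁻ z, ENNReal.ofReal (g z - s / 2) with hIdef
  set t : Set (E3 × ℝ) := {q | 0 < q.2 ∧ ENNReal.ofReal (cc * s * q.2 ^ 3) <
      ∫⁻ z in closedBall q.1 q.2, ENNReal.ofReal (g z - s / 2)} with ht
  have hR : ∀ q ∈ t, q.2 ≤ max 1 (I.toReal / (cc * s)) := by
    rintro q ⟨hq0, hq⟩
    rcases le_or_gt q.2 1 with h1 | h1
    · exact le_max_of_le_left h1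
    · apply le_max_of_le_right
      have h2 : ENNReal.ofReal (cc * s * q.2 ^ 3) < I := hq.trans_le (setLIntegral_le_lintegral _ _)
      rw [← ENNReal.ofReal_toReal hI] at h2
      have h3 := (ENNReal.ofReal_le_ofReal_iff ENNReal.toReal_nonneg).1 h2.le
      rw [le_div_iff₀ (by positivity)]
      refine le_trans ?_ h3
      have h4 : q.2 ≤ q.2 ^ 3 := le_self_pow₀ h1.le (by norm_num)
      nlinarith [mul_pos hc hs]
  obtain ⟨u, hut, hud, huc⟩ := Vitali.exists_disjoint_subfamily_covering_enlargement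
    (fun q : E3 × ℝ => closedBall q.1 q.2) t (fun q => q.2) 2 (by norm_num)
    (fun q hq => hq.1.le) (max 1 (I.toReal / (cc * s))) hR
    (fun q hq => ⟨q.1, mem_closedBall_self hq.1.le⟩)
  have hcount : u.Countable := by
    apply hud.countable_of_nonempty_interior
    intro q hq
    refine ⟨q.1, ?_⟩
    exact interior_mono ball_subset_closedBall (by
      rw [isOpen_ball.interior_eq]
      exact mem_ball_self (hut hq).1)
  have hsub : {p : E3 × ℝ | s < cvf (pk p.2) g p.1 ∧ 0 < p.2} ⊆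
      ⋃ q ∈ u, closedBall q.1 (5 * q.2) ×ˢ Ioc 0 (5 * q.2) := by
    rintro ⟨x, y⟩ ⟨h1, h2⟩
    obtain ⟨r, hyr, hr⟩ := exists_ball hg hg0 hB h2 x hs.le h1
    have hy0 : (0:ℝ) < y := h2
    have hr0 : 0 < r := hy0.trans_le hyr
    obtain ⟨b, hbu, hb1, hb2⟩ := huc (x, r) ⟨hr0, hr⟩
    have hb0 := (hut hbu).1
    have hdist : dist x b.1 ≤ r + b.2 := dist_le_add_of_nonempty_closedBall_inter_closedBall hb1
    simp only at hb2
    refine mem_biUnion hbu ⟨?_, hy0, ?_⟩
    · show x ∈ closedBall b.1 (5 * b.2)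
      rw [mem_closedBall]
      linarith
    · show y ≤ 5 * b.2
      linarith
  have hm : Measurable fun z => ENNReal.ofReal (g z - s / 2) :=
    (hg.sub continuous_const).measurable.ennreal_ofReal
  calc μ {p | s < cvf (pk p.2) g p.1 ∧ 0 < p.2}
      ≤ μ (⋃ q ∈ u, closedBall q.1 (5 * q.2) ×ˢ Ioc 0 (5 * q.2)) := measure_mono hsub
    _ ≤ ∑' q : u, μ (closedBall q.1.1 (5 * q.1.2) ×ˢ Ioc 0 (5 * q.1.2)) :=
        measure_biUnion_le μ hcount _
    _ ≤ ∑' q : u, ENNReal.ofReal (125 * N / (cc * s)) *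
        ∫⁻ z in closedBall q.1.1 q.1.2, ENNReal.ofReal (g z - s / 2) := by
        apply ENNReal.tsum_le_tsum
        rintro ⟨q, hq⟩
        obtain ⟨hq0, hq1⟩ := hut hq
        refine (hμ q.1 (5 * q.2) (by positivity)).trans ?_
        refine le_trans (le_of_eq ?_) (mul_le_mul_right hq1.le _)
        rw [← ENNReal.ofReal_mul (by positivity)]
        congr 1
        have := hc.ne'
        have := hs.ne'
        field_simp
        ring
    _ = ENNReal.ofReal (125 * N / (cc * s)) *
        ∑' q : u, ∫⁻ z in closedBall q.1.1 q.1.2, ENNReal.ofReal (g z - s / 2) :=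
        ENNReal.tsum_mul_left
    _ = ENNReal.ofReal (125 * N / (cc * s)) *
        ∫⁻ z in ⋃ q ∈ u, closedBall q.1 q.2, ENNReal.ofReal (g z - s / 2) := by
        rw [lintegral_biUnion hcount (fun q _ => measurableSet_closedBall) hud]
    _ ≤ _ := mul_le_mul_right (setLIntegral_le_lintegral _ _) _

/-! ### measurability -/

theorem measurable_kernel {g : E3 → ℝ} (hg : Continuous g) :
    Measurable fun q : (E3 × ℝ) × E3 => pk q.1.2 q.2 • g (q.1.1 - q.2) := by
  unfold pk sg
  have h1 : Continuous fun q : (E3 × ℝ) × E3 => √(q.1.2 ^ 2 + ‖q.2‖ ^ 2) := by fun_prop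
  have h2 : Continuous fun q : (E3 × ℝ) × E3 => g (q.1.1 - q.2) := by fun_prop
  have h3 : Continuous fun q : (E3 × ℝ) × E3 => q.1.2 := by fun_prop
  exact ((measurable_const.mul (h3.measurable.mul (h1.measurable.inv.pow_const 4)))).smul
    h2.measurable

theorem measurable_cvf {g : E3 → ℝ} (hg : Continuous g) :
    Measurable fun p : E3 × ℝ => cvf (pk p.2) g p.1 := by
  unfold cvf
  exact ((measurable_kernel hg).stronglyMeasurable.integral_prod_right).measurable

/-! ### the layer cake formula -/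

theorem inner_le {a : ℝ} (ha : 0 ≤ a) :
    ∫⁻ t in Ioi (0:ℝ), ENNReal.ofReal (t ^ (-(1/2) : ℝ)) * ENNReal.ofReal (a - t / 2) ≤
      ENNReal.ofReal (4 * a ^ (3 / 2 : ℝ)) := by
  have h1 : ∀ t ∈ Ioi (0:ℝ), ENNReal.ofReal (t ^ (-(1/2) : ℝ)) * ENNReal.ofReal (a - t / 2) ≤
      (Ioc (0:ℝ) (2 * a)).indicator (fun t => ENNReal.ofReal (a * t ^ (-(1/2) : ℝ))) t := by
    intro t ht
    have ht0 : (0:ℝ) < t := ht
    rcases le_or_gt t (2 * a) with h | h
    · rw [indicator_of_mem (show t ∈ Ioc 0 (2 * a) from ⟨ht0, h⟩),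
        ← ENNReal.ofReal_mul (by positivity)]
      apply ENNReal.ofReal_le_ofReal
      rw [mul_comm]
      exact mul_le_mul_of_nonneg_right (by linarith) (by positivity)
    · rw [ENNReal.ofReal_of_nonpos (by linarith : a - t / 2 ≤ 0), mul_zero]
      exact zero_le
  refine (setLIntegral_mono_ae' measurableSet_Ioi (Eventually.of_forall h1)).trans ?_
  rw [lintegral_indicator measurableSet_Ioc, Measure.restrict_restrict measurableSet_Ioc,
    inter_eq_left.2 Ioc_subset_Ioi_self]
  have hint : IntegrableOn (fun t : ℝ => a * t ^ (-(1/2) : ℝ)) (Ioc 0 (2 * a)) := by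
    apply Integrable.const_mul
    have := intervalIntegral.intervalIntegrable_rpow' (a := 0) (b := 2 * a)
      (r := (-(1/2) : ℝ)) (by norm_num)
    rwa [intervalIntegrable_iff_integrableOn_Ioc_of_le (by positivity)] at this
  rw [← ofReal_integral_eq_lintegral_ofReal hint
    ((ae_restrict_iff' measurableSet_Ioc).2 (Eventually.of_forall fun t ht => by
      have := ht.1
      positivity))]
  apply ENNReal.ofReal_le_ofReal
  rw [integral_const_mul, ← intervalIntegral.integral_of_le (by positivity),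
    integral_rpow (Or.inl (by norm_num))]
  rw [show ((-(1/2) : ℝ) + 1) = 1 / 2 by norm_num, Real.zero_rpow (by norm_num), sub_zero]
  rcases ha.eq_or_lt with h0 | h0
  · rw [← h0]
    simp
  · have e : a ^ (3 / 2 : ℝ) = a * a ^ (1 / 2 : ℝ) := by
      rw [show (3 / 2 : ℝ) = 1 + 1 / 2 by norm_num, Real.rpow_add h0, Real.rpow_one]
    rw [e, Real.mul_rpow (by norm_num) ha]
    have h2 : (2:ℝ) ^ (1 / 2 : ℝ) ≤ 2 := by
      calc (2:ℝ) ^ (1 / 2 : ℝ) ≤ 2 ^ (1:ℝ) :=
            Real.rpow_le_rpow_of_exponent_le (by norm_num) (by norm_num)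
        _ = 2 := Real.rpow_one 2
    have h3 : 0 ≤ a * a ^ (1 / 2 : ℝ) := by positivity
    calc a * (2 ^ (1 / 2 : ℝ) * a ^ (1 / 2 : ℝ) / (1 / 2)) =
          2 * 2 ^ (1 / 2 : ℝ) * (a * a ^ (1 / 2 : ℝ)) := by ring
      _ ≤ 2 * 2 * (a * a ^ (1 / 2 : ℝ)) := by gcongr
      _ = _ := by ring

theorem tail_le {a s : ℝ} (ha : 0 ≤ a) (hs : 0 < s) :
    a - s / 2 ≤ (s / 2) ^ (-(1/2) : ℝ) * a ^ (3 / 2 : ℝ) := by
  rcases le_or_gt a (s / 2) with h | h
  · exact (sub_nonpos.2 h).trans (by positivity)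
  · have h0 : 0 < a := (by positivity : 0 < s / 2).trans h
    have e : a ^ (3 / 2 : ℝ) = a ^ (1 / 2 : ℝ) * a := by
      rw [show (3 / 2 : ℝ) = 1 / 2 + 1 by norm_num, Real.rpow_add h0, Real.rpow_one]
    have h1 : 1 ≤ (s / 2) ^ (-(1/2) : ℝ) * a ^ (1 / 2 : ℝ) := by
      rw [Real.rpow_neg (by positivity), inv_mul_eq_div, le_div_iff₀ (by positivity), one_mul]
      exact Real.rpow_le_rpow (by positivity) h.le (by norm_num)
    calc a - s / 2 ≤ 1 * a := by linarith
      _ ≤ ((s / 2) ^ (-(1/2) : ℝ) * a ^ (1 / 2 : ℝ)) * a := mul_le_mul_of_nonneg_right h1 h0.le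
      _ = _ := by rw [e, mul_assoc]

end Car

open Car in
/-- D2 -/
theorem car : SpCar := by
  have hc := cc_pos
  refine ⟨750 / cc, by positivity, ?_⟩
  intro μ N hN hpos hμ g hg hg0 ⟨B, hB⟩ hint
  have hm : ∀ s : ℝ, Measurable fun z => ENNReal.ofReal (g z - s / 2) := fun s =>
    (hg.sub continuous_const).measurable.ennreal_ofReal
  have hK : ∫⁻ x, ENNReal.ofReal (g x ^ (3 / 2 : ℝ)) ≠ ∞ := by
    rw [← ofReal_integral_eq_lintegral_ofReal hint (Eventually.of_forall fun x => by
      have := hg0 x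
      positivity)]
    exact ENNReal.ofReal_ne_top
  have hI : ∀ s : ℝ, 0 < s → ∫⁻ z, ENNReal.ofReal (g z - s / 2) ≠ ∞ := by
    intro s hs
    refine ne_top_of_le_ne_top ?_ (lintegral_mono (g := fun z =>
      ENNReal.ofReal ((s / 2) ^ (-(1/2) : ℝ)) * ENNReal.ofReal (g z ^ (3 / 2 : ℝ))) ?_)
    · rw [lintegral_const_mul' _ _ ENNReal.ofReal_ne_top]
      exact ENNReal.mul_ne_top ENNReal.ofReal_ne_top hK
    · intro z
      show ENNReal.ofReal (g z - s / 2) ≤
        ENNReal.ofReal ((s / 2) ^ (-(1/2) : ℝ)) * ENNReal.ofReal (g z ^ (3 / 2 : ℝ))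
      rw [← ENNReal.ofReal_mul (by positivity)]
      exact ENNReal.ofReal_le_ofReal (tail_le (hg0 z) hs)
  have hnn : 0 ≤ᵐ[μ] fun p : E3 × ℝ => cvf (pk p.2) g p.1 := by
    filter_upwards [hpos] with p hp
    exact integral_nonneg fun z => mul_nonneg (pk_nonneg hp z) (hg0 _)
  rw [lintegral_rpow_eq_lintegral_meas_lt_mul μ hnn (measurable_cvf hg).aemeasurable
    (by norm_num : (0:ℝ) < 3 / 2)]
  have hlev : ∀ s : ℝ, μ {p | s < cvf (pk p.2) g p.1} ≤
      μ {p | s < cvf (pk p.2) g p.1 ∧ 0 < p.2} := by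
    intro s
    apply measure_mono_ae
    filter_upwards [hpos] with p hp hs
    exact ⟨hs, hp⟩
  calc ENNReal.ofReal (3 / 2) * ∫⁻ t in Ioi (0:ℝ), μ {p | t < cvf (pk p.2) g p.1} *
        ENNReal.ofReal (t ^ ((3 / 2 : ℝ) - 1))
      ≤ ENNReal.ofReal (3 / 2) * ∫⁻ t in Ioi (0:ℝ), ENNReal.ofReal (125 * N / cc) *
        ∫⁻ x, ENNReal.ofReal (t ^ (-(1/2) : ℝ)) * ENNReal.ofReal (g x - t / 2) := by
        refine mul_le_mul_right ?_ _
        refine setLIntegral_mono_ae' measurableSet_Ioi (Eventually.of_forall fun t ht => ?_)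
        have ht0 : (0:ℝ) < t := ht
        refine (mul_le_mul_left ((hlev t).trans (weak hg hg0 hB ht0 (hI t ht0) μ hN hμ)) _).trans
          (le_of_eq ?_)
        rw [lintegral_const_mul' _ _ ENNReal.ofReal_ne_top, mul_right_comm, ← mul_assoc,
          ← ENNReal.ofReal_mul (by positivity), ← ENNReal.ofReal_mul (by positivity)]
        congr 2
        have e1 : t ^ ((3 / 2 : ℝ) - 1) = t * t ^ (-(1/2) : ℝ) := by
          rw [show ((3 / 2 : ℝ) - 1) = 1 + (-(1/2) : ℝ) by norm_num, Real.rpow_add ht0,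
            Real.rpow_one]
        rw [e1]
        have := hc.ne'
        field_simp
    _ = ENNReal.ofReal (3 / 2) * (ENNReal.ofReal (125 * N / cc) *
        ∫⁻ x, ∫⁻ t in Ioi (0:ℝ),
          ENNReal.ofReal (t ^ (-(1/2) : ℝ)) * ENNReal.ofReal (g x - t / 2)) := by
        rw [lintegral_const_mul' _ _ ENNReal.ofReal_ne_top, lintegral_lintegral_swap]
        apply Measurable.aemeasurable
        have m1 : Measurable fun q : ℝ × E3 => ENNReal.ofReal (q.1 ^ (-(1/2) : ℝ)) :=
          (measurable_fst.pow_const _).ennreal_ofReal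
        have m2 : Measurable fun q : ℝ × E3 => ENNReal.ofReal (g q.2 - q.1 / 2) :=
          ((hg.measurable.comp measurable_snd).sub (measurable_fst.div_const 2)).ennreal_ofReal
        exact m1.mul m2
    _ ≤ ENNReal.ofReal (3 / 2) * (ENNReal.ofReal (125 * N / cc) *
        ∫⁻ x, ENNReal.ofReal (4 * g x ^ (3 / 2 : ℝ))) := by
        refine mul_le_mul_right (mul_le_mul_right (lintegral_mono fun x => ?_) _) _
        exact inner_le (hg0 x)
    _ = _ := by
        rw [← ofReal_integral_eq_lintegral_ofReal (hint.const_mul 4)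
          (Eventually.of_forall fun x => by
            have := hg0 x
            positivity), integral_const_mul, ← ENNReal.ofReal_mul (by positivity),
          ← ENNReal.ofReal_mul (by norm_num)]
        congr 1
        ring

end Pool.Agent.TF.D
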