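import Pool.Agent.TF.D.Spec

/-!
# D10a: the constraint set is convex
-/

set_option autoImplicit false

namespace Pool.Agent.TF.D

open MeasureTheory Set Filter Topology Pool.Agent.TO Pool.Agent.TB Pool.Agent.TC Pool.Agent.TP
  Pool.Agent.TF
open scoped ENNReal NNReal Real InnerProductSpace SchwartzMap LineDeriv

theorem cva_bd_smul (c : ℝ) {f : V3} {A : ℝ} (hf : Bd f A) : Bd (c • f) (|c| * A) := by
  unfold Bd at *
  filter_upwards [hf, Lp.coeFn_smul c f] with x h1 h2
  rw [h2, Pi.smul_apply, norm_smul, Real.norm_eq_abs]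
  exact mul_le_mul_of_nonneg_left h1 (abs_nonneg c)

theorem cva_bd_zero {A : ℝ} (hA : 0 < A) : Bd (0 : V3) A := by
  unfold Bd
  filter_upwards [Lp.coeFn_zero E3 2 (volume : Measure E3)] with x h1
  rw [h1, Pi.zero_apply, norm_zero]
  exact hA.le

theorem cva_weak_zero (i : Fin 3) : IsWeakDeriv i (0 : V3) (0 : V3) := by
  rw [weak_iff]
  intro φ
  rw [inner_zero_right, inner_zero_right, neg_zero]

theorem cva_PM {δ : ℝ} (hδ : 0 < δ) (k j : Fin 3) (f : V3) : PM k j (Pp δ f) = Pp δ (PM k j f) := by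
  unfold Pp
  rw [cvO_eq (kk_pk hδ)]
  exact PM_cvL (kk_pk hδ) k j f

theorem cva_To {R : Fin 3 → V3 →L[ℝ] V3} (hR : RZ R) (j : Option (Fin 3)) (δ : ℝ) (f : V3) :
    To R j (Pp δ f) = Pp δ (To R j f) := by
  rcases j with _ | j
  · rfl
  · exact (hR.ti j).cvO (pk δ) f

theorem cv_ok : SpCv := by
  intro R hR A hA
  refine ⟨?_, ?_, ?_⟩
  · rintro c ⟨g, dg, h1, h2, h3, rfl⟩ c' ⟨g', dg', h1', h2', h3', rfl⟩ a b ha hb hab
    refine ⟨fun k j => a • g k j + b • g' k j, fun k j i => a • dg k j i + b • dg' k j i,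
      fun k j i => weak_add (weak_smul (h1 k j i) a) (weak_smul (h1' k j i) b), ?_, ?_, ?_⟩
    · intro k j
      refine bd_mono (bd_add (cva_bd_smul a (h2 k j)) (cva_bd_smul b (h2' k j))) (le_of_eq ?_)
      rw [abs_of_nonneg ha, abs_of_nonneg hb, ← add_mul, hab, one_mul]
    · intro k j i
      rw [map_add, map_smul, map_smul, map_add, map_smul, map_smul, h3 k j i, h3' k j i]
      module
    · simp only [map_add, map_smul, Finset.sum_add_distrib, Finset.smul_sum]
  · refine ⟨fun _ _ => 0, fun _ _ _ => 0, fun _ _ i => cva_weak_zero i,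
      fun _ _ => cva_bd_zero hA, ?_, ?_⟩
    · intro k j i
      rw [map_zero, map_zero, neg_zero]
    · simp only [map_zero, Finset.sum_const_zero]
  · rintro δ hδ c ⟨g, dg, h1, h2, h3, rfl⟩
    refine ⟨fun k j => Pp δ (g k j), fun k j i => Pp δ (dg k j i),
      fun k j i => weak_cvO (pk δ) (h1 k j i), fun k j => bd_Pp hδ hA.le (h2 k j), ?_, ?_⟩
    · intro k j i
      rw [cva_PM hδ, cva_PM hδ, h3 k j i, map_neg]
    · simp only [map_sum, cva_To hR]

end Pool.Agent.TF.D
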