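import Pool.Agent.TF.D.Spec

/-!
# D1c: the derivatives of the Poisson extension
-/

set_option autoImplicit false

namespace Pool.Agent.TF.D

open MeasureTheory Set Filter Topology Pool.Agent.TO Pool.Agent.TB Pool.Agent.TC Pool.Agent.TP
  Pool.Agent.TF
open scoped ENNReal NNReal Real InnerProductSpace SchwartzMap LineDeriv

variable {y : ℝ}

theorem der_memLp_sg (hy : 0 < y) : MemLp (fun z => sg y z ^ 4) 2 (volume : Measure E3) := by
  rw [memLp_two_iff_integrable_sq (continuous_sg_pow hy 4).aestronglyMeasurable]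
  have h := integrable_sg hy (n := 8) (by norm_num)
  refine h.congr (Eventually.of_forall fun z => ?_)
  simp only
  ring

theorem der_memLp_shift {h : E3 → ℝ} (hh : MemLp h 2 (volume : Measure E3)) (x : E3) :
    MemLp (fun z => h (x - z)) 2 (volume : Measure E3) :=
  hh.comp_measurePreserving (Measure.measurePreserving_sub_left (volume : Measure E3) x)

/-- the dominating function -/
theorem der_int_sg (hy : 0 < y) {h : E3 → ℝ} (hh : MemLp h 2 (volume : Measure E3)) (C : ℝ)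
    (x : E3) : Integrable (fun z => C * sg y z ^ 4 * |h (x - z)|) (volume : Measure E3) := by
  have h1 := (der_memLp_sg hy).integrable_mul (der_memLp_shift hh x).abs
  refine (h1.const_mul C).congr (Eventually.of_forall fun z => ?_)
  simp only [Pi.mul_apply, Pi.abs_apply]
  ring

theorem der_int_sg' (hy : 0 < y) {h : E3 → ℝ} (hh : MemLp h 2 (volume : Measure E3)) (C : ℝ)
    (x : E3) : Integrable (fun w => C * sg y (x - w) ^ 4 * |h w|) (volume : Measure E3) := by
  have h1 := (der_int_sg hy hh C x).comp_sub_left x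
  refine h1.congr (Eventually.of_forall fun w => ?_)
  simp only [sub_sub_cancel]

theorem der_int (hy : 0 < y) {κ : E3 → ℝ} (hc : Continuous κ) {C : ℝ}
    (hb : ∀ z, |κ z| ≤ C * sg y z ^ 4) {h : E3 → ℝ} (hh : MemLp h 2 (volume : Measure E3))
    (x : E3) : Integrable (fun z => κ z • h (x - z)) (volume : Measure E3) := by
  refine (der_int_sg hy hh C x).mono'
    (hc.aestronglyMeasurable.smul (der_memLp_shift hh x).aestronglyMeasurable)
    (Eventually.of_forall fun z => ?_)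
  rw [smul_eq_mul, Real.norm_eq_abs, abs_mul]
  exact mul_le_mul_of_nonneg_right (hb z) (abs_nonneg _)

/-- the `y`-derivative -/
theorem der_y (hy : 0 < y) {κ κ' : ℝ → E3 → ℝ} {C C0 : ℝ}
    (hd : ∀ s, y / 2 < s → s < 2 * y → ∀ x, HasDerivAt (fun s => κ s x) (κ' s x) s)
    (hb : ∀ s, y / 2 < s → s < 2 * y → ∀ x, |κ' s x| ≤ C * sg y x ^ 4)
    (hc : ∀ s, 0 < s → Continuous (κ s)) (hc' : Continuous (κ' y))
    (hb0 : ∀ x, |κ y x| ≤ C0 * sg y x ^ 4)
    {h : E3 → ℝ} (hh : MemLp h 2 (volume : Measure E3)) (x : E3) :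
    HasDerivAt (fun s => pe κ h x s) (pe κ' h x y) y := by
  have hI : Ioo (y / 2) (2 * y) ∈ 𝓝 y :=
    Ioo_mem_nhds (by linarith : y / 2 < y) (by linarith : y < 2 * y)
  have hm := (der_memLp_shift hh x).aestronglyMeasurable
  exact (hasDerivAt_integral_of_dominated_loc_of_deriv_le (𝕜 := ℝ)
    (F := fun s z => κ s z • h (x - z)) (F' := fun s z => κ' s z • h (x - z))
    (bound := fun z => C * sg y z ^ 4 * |h (x - z)|) hI
    (by
      filter_upwards [hI] with s hs
      exact (hc s (by have := hs.1; linarith)).aestronglyMeasurable.smul hm)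
    (der_int hy (hc y hy) hb0 hh x)
    (hc'.aestronglyMeasurable.smul hm)
    (Eventually.of_forall fun z s hs => by
      rw [smul_eq_mul, Real.norm_eq_abs, abs_mul]
      exact mul_le_mul_of_nonneg_right (hb s hs.1 hs.2 z) (abs_nonneg _))
    (der_int_sg hy hh C x)
    (Eventually.of_forall fun z s hs => (hd s hs.1 hs.2 z).smul_const (h (x - z)))).2

theorem der_sg_shift (hy : 0 < y) {v : E3} (hv : ‖v‖ ≤ y / 2) (z : E3) :
    sg y (z + v) ≤ 2 * sg y z := by
  unfold sg
  rw [inv_le_comm₀ (by positivity) (by positivity), mul_inv, inv_inv]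
  rw [show (2:ℝ)⁻¹ * √(y ^ 2 + ‖z‖ ^ 2) = √(y ^ 2 + ‖z‖ ^ 2) / 2 by ring]
  apply Real.le_sqrt_of_sq_le
  rw [div_pow, Real.sq_sqrt (by positivity)]
  have h1 : ‖z‖ ≤ ‖z + v‖ + ‖v‖ := by
    have := norm_sub_le (z + v) v
    rwa [add_sub_cancel_right] at this
  nlinarith [norm_nonneg z, norm_nonneg v, norm_nonneg (z + v), sq_nonneg (‖z + v‖ - ‖v‖),
    mul_self_le_mul_self (norm_nonneg z) h1, mul_self_le_mul_self (norm_nonneg v) hv]

theorem der_norm_ee (j : Fin 3) : ‖ee j‖ = 1 := Pool.Agent.TP.norm_ee j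

/-- the derivative in the direction `e_j` -/
theorem der_x (hy : 0 < y) (j : Fin 3) {κ κ' : E3 → ℝ} {C C0 : ℝ} (hC : 0 ≤ C)
    (hd : ∀ x, HasLineDerivAt ℝ κ (κ' x) x (ee j))
    (hb : ∀ x, |κ' x| ≤ C * sg y x ^ 4) (hb0 : ∀ x, |κ x| ≤ C0 * sg y x ^ 4)
    (hc : Continuous κ) (hc' : Continuous κ')
    {h : E3 → ℝ} (hh : MemLp h 2 (volume : Measure E3)) (x : E3) :
    HasDerivAt (fun t : ℝ => cvf κ h (x + t • ee j)) (cvf κ' h x) 0 := by
  have hI : Ioo (-(y / 2)) (y / 2) ∈ 𝓝 (0:ℝ) :=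
    Ioo_mem_nhds (by linarith : -(y / 2) < 0) (by linarith : 0 < y / 2)
  have e : ∀ (κ : E3 → ℝ) (x : E3), cvf κ h x = ∫ w, κ (x - w) • h w := by
    intro κ x
    have := integral_sub_left_eq_self (fun z => κ z • h (x - z)) (volume : Measure E3) x
    unfold cvf
    rw [← this]
    simp only [sub_sub_cancel]
  have e1 : (fun t : ℝ => cvf κ h (x + t • ee j)) =
      fun t : ℝ => ∫ w, κ (x + t • ee j - w) • h w := by
    ext t
    exact e κ _
  have e2 : cvf κ' h x = ∫ w, κ' (x + (0:ℝ) • ee j - w) • h w := by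
    rw [e κ' x, zero_smul, add_zero]
  rw [e1, e2]
  have hcs : ∀ t : ℝ, Continuous fun w : E3 => x + t • ee j - w := fun t => by fun_prop
  exact (hasDerivAt_integral_of_dominated_loc_of_deriv_le (𝕜 := ℝ)
    (F := fun (t : ℝ) w => κ (x + t • ee j - w) • h w)
    (F' := fun (t : ℝ) w => κ' (x + t • ee j - w) • h w)
    (bound := fun w => C * 16 * sg y (x - w) ^ 4 * |h w|) hI
    (by
      filter_upwards with t
      exact (hc.comp (hcs t)).aestronglyMeasurable.smul hh.aestronglyMeasurable)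
    (by
      have := (der_int hy hc hb0 hh x).comp_sub_left x
      refine this.congr (Eventually.of_forall fun w => ?_)
      simp only [sub_sub_cancel, zero_smul, add_zero])
    ((hc'.comp (hcs 0)).aestronglyMeasurable.smul hh.aestronglyMeasurable)
    (Eventually.of_forall fun w t ht => by
      rw [smul_eq_mul, Real.norm_eq_abs, abs_mul]
      refine mul_le_mul_of_nonneg_right ?_ (abs_nonneg _)
      have h1 : x + t • ee j - w = (x - w) + t • ee j := by abel
      have h2 : ‖t • ee j‖ ≤ y / 2 := by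
        rw [norm_smul, der_norm_ee, mul_one, Real.norm_eq_abs]
        exact abs_le.2 ⟨ht.1.le, ht.2.le⟩
      have h3 := der_sg_shift hy h2 (x - w)
      have h4 := sg_pos hy (x - w + t • ee j)
      calc |κ' (x + t • ee j - w)| ≤ C * sg y (x + t • ee j - w) ^ 4 := hb _
        _ = C * sg y (x - w + t • ee j) ^ 4 := by rw [h1]
        _ ≤ C * (2 * sg y (x - w)) ^ 4 :=
            mul_le_mul_of_nonneg_left (pow_le_pow_left₀ h4.le h3 4) hC
        _ = C * 16 * sg y (x - w) ^ 4 := by ring)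
    (der_int_sg' hy hh (C * 16) x)
    (Eventually.of_forall fun w t ht => by
      have h1 := hd (x + t • ee j - w)
      have h2 : HasDerivAt (fun s : ℝ => κ (x + t • ee j - w + s • ee j))
          (κ' (x + t • ee j - w)) (t - t) := by
        rw [sub_self]
        exact h1
      have h3 := h2.comp_sub_const t t
      refine HasDerivAt.smul_const ?_ (h w)
      refine h3.congr_of_eventuallyEq (Eventually.of_forall fun s => ?_)
      have h5 : x + s • ee j - w = x + t • ee j - w + (s - t) • ee j := by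
        rw [sub_smul]
        abel
      simp only [h5])).2

theorem der_line_yk (hy : 0 < y) (j : Fin 3) (x : E3) :
    HasLineDerivAt ℝ (yk y) (dyk j y x) x (ee j) := by
  have h4 := line_sg_pow hy 4 j x
  have h6 := line_sg_pow hy 6 j x
  unfold HasLineDerivAt at h4 h6 ⊢
  have h2 := (h4.sub (h6.const_mul (4 * y ^ 2))).const_mul (JJ 4)⁻¹
  refine h2.congr_deriv ?_
  unfold dyk
  push_cast
  ring

theorem der_continuous_dyk (j : Fin 3) (hy : 0 < y) : Continuous (dyk j y) := by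
  unfold dyk
  exact continuous_const.mul (((continuous_const.mul
    ((continuous_coord j).mul (continuous_sg_pow hy 6))).neg).add
    (continuous_const.mul ((continuous_coord j).mul (continuous_sg_pow hy 8))))

theorem der_dk_le (j : Fin 3) (hy : 0 < y) (x : E3) :
    |dk j y x| ≤ ((JJ 4)⁻¹ * 4) * sg y x ^ 4 := by
  have hJ := JJ4_inv_pos
  calc |dk j y x| ≤ (JJ 4)⁻¹ * (4 * y) * sg y x ^ 5 := abs_dk_le j hy x
    _ ≤ (JJ 4)⁻¹ * (4 * y) * (y⁻¹ * sg y x ^ 4) :=
        mul_le_mul_of_nonneg_left (sg_five_le hy x) (by positivity)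
    _ = _ := by field_simp

theorem der_dyk_le (j : Fin 3) (hy : 0 < y) (x : E3) :
    |dyk j y x| ≤ ((JJ 4)⁻¹ * 28 * y⁻¹) * sg y x ^ 4 := by
  have hJ := JJ4_inv_pos
  calc |dyk j y x| ≤ (JJ 4)⁻¹ * 28 * sg y x ^ 5 := abs_dyk_le j hy x
    _ ≤ (JJ 4)⁻¹ * 28 * (y⁻¹ * sg y x ^ 4) :=
        mul_le_mul_of_nonneg_left (sg_five_le hy x) (by positivity)
    _ = _ := by ring

theorem der_yyk_le (hy : 0 < y) (x : E3) :
    |yyk y x| ≤ ((JJ 4)⁻¹ * 24 * y⁻¹) * sg y x ^ 4 := by
  have hJ := JJ4_inv_pos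
  calc |yyk y x| ≤ (JJ 4)⁻¹ * (24 * y) * sg y x ^ 6 := abs_yyk_le hy x
    _ = (JJ 4)⁻¹ * 24 * (y * sg y x ^ 6) := by ring
    _ ≤ (JJ 4)⁻¹ * 24 * (y⁻¹ * sg y x ^ 4) :=
        mul_le_mul_of_nonneg_left (sg_six_le hy x) (by positivity)
    _ = _ := by ring

theorem der_ddk_le (i j : Fin 3) (hy : 0 < y) (x : E3) :
    |ddk i j y x| ≤ ((JJ 4)⁻¹ * 28 * y⁻¹) * sg y x ^ 4 := by
  have hJ := JJ4_inv_pos
  calc |ddk i j y x| ≤ (JJ 4)⁻¹ * (28 * y) * sg y x ^ 6 := abs_ddk_le i j hy x
    _ = (JJ 4)⁻¹ * 28 * (y * sg y x ^ 6) := by ring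
    _ ≤ (JJ 4)⁻¹ * 28 * (y⁻¹ * sg y x ^ 4) :=
        mul_le_mul_of_nonneg_left (sg_six_le hy x) (by positivity)
    _ = _ := by ring

/-- bounds which are uniform near `y` -/
theorem der_loc (hy : 0 < y) {s K : ℝ} (hK : 0 ≤ K) (h1 : y / 2 < s) {a : ℝ} (x : E3)
    (h : a ≤ K * sg s x ^ 4) : a ≤ K * 16 * sg y x ^ 4 := by
  calc a ≤ K * sg s x ^ 4 := h
    _ ≤ K * (16 * sg y x ^ 4) := mul_le_mul_of_nonneg_left (sg_four_le hy h1.le x) hK
    _ = _ := by ring

theorem der_loc_inv (hy : 0 < y) {s K : ℝ} (hK : 0 ≤ K) (h1 : y / 2 < s) {a : ℝ} (x : E3)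
    (h : a ≤ (K * s⁻¹) * sg s x ^ 4) : a ≤ (K * (2 / y)) * 16 * sg y x ^ 4 := by
  have hs : 0 < s := by linarith
  have h2 : s⁻¹ ≤ 2 / y := by
    rw [inv_le_comm₀ hs (by positivity), inv_div]
    exact h1.le
  apply der_loc hy (by positivity) h1 x
  exact h.trans (mul_le_mul_of_nonneg_right (mul_le_mul_of_nonneg_left h2 hK)
    (pow_nonneg (sg_pos hs x).le _))

theorem der_ok : SpDer := by
  intro h hh x y hy
  have hJ := JJ4_inv_pos
  have bpk : ∀ x, |pk y x| ≤ ((JJ 4)⁻¹ * y) * sg y x ^ 4 := fun x => abs_pk_le hy x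
  have byk : ∀ x, |yk y x| ≤ ((JJ 4)⁻¹ * 4) * sg y x ^ 4 := fun x => abs_yk_le hy x
  refine ⟨fun j => ?_, ?_, fun i j => ?_, fun j => ?_, fun j => ?_, ?_, ?_⟩
  · exact der_x hy j (by positivity) (line_pk hy j) (der_dk_le j hy) bpk (continuous_pk hy)
      (continuous_dk j hy) hh x
  · exact der_y hy (κ := pk) (κ' := yk) (C := (JJ 4)⁻¹ * 4 * 16)
      (fun s h1 _ x => hasDerivAt_pk (by linarith) x)
      (fun s h1 _ x => der_loc hy (by positivity) h1 x (abs_yk_le (by linarith) x))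
      (fun s hs => continuous_pk hs) (continuous_yk hy) bpk hh x
  · exact der_x hy i (by positivity) (line_dk hy i j) (der_ddk_le i j hy) (der_dk_le j hy)
      (continuous_dk j hy) (continuous_ddk i j hy) hh x
  · exact der_x hy j (by positivity) (der_line_yk hy j) (der_dyk_le j hy) byk
      (continuous_yk hy) (der_continuous_dyk j hy) hh x
  · exact der_y hy (κ := dk j) (κ' := dyk j) (C := (JJ 4)⁻¹ * 28 * (2 / y) * 16)
      (fun s h1 _ x => hasDerivAt_dk j (by linarith) x)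
      (fun s h1 _ x => der_loc_inv hy (by positivity) h1 x (der_dyk_le j (by linarith) x))
      (fun s hs => continuous_dk j hs) (der_continuous_dyk j hy) (der_dk_le j hy) hh x
  · exact der_y hy (κ := yk) (κ' := yyk) (C := (JJ 4)⁻¹ * 24 * (2 / y) * 16)
      (fun s h1 _ x => hasDerivAt_yk (by linarith) x)
      (fun s h1 _ x => der_loc_inv hy (by positivity) h1 x (der_yyk_le (by linarith) x))
      (fun s hs => continuous_yk hs) (continuous_yyk hy) byk hh x
  · unfold pe cvf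
    rw [← integral_finsetSum _ fun k _ => der_int hy (continuous_ddk k k hy) (der_ddk_le k k hy)
      hh x, ← integral_neg]
    congr 1
    ext z
    rw [← Finset.sum_smul, sum_ddk hy z, neg_smul]

end Pool.Agent.TF.D
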