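import Pool.Agent.TF.D.Spec

/-!
# Row D1a of project TF: the six kernel families are dominated by the Poisson kernel
-/

set_option autoImplicit false

namespace Pool.Agent.TF.D

open MeasureTheory Set Filter Topology Pool.Agent.TO Pool.Agent.TB Pool.Agent.TC Pool.Agent.TP
  Pool.Agent.TF
open scoped ENNReal NNReal Real InnerProductSpace SchwartzMap LineDeriv

theorem dka_sg : ContinuousOn (fun p : E3 × ℝ => sg p.2 p.1) {p | 0 < p.2} := by
  unfold sg
  refine ContinuousOn.inv₀ (Continuous.continuousOn (by fun_prop)) fun p hp => ?_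
  have hp' : 0 < p.2 := hp
  have : 0 < p.2 ^ 2 + ‖p.1‖ ^ 2 := by positivity
  exact (Real.sqrt_pos.2 this).ne'

theorem dka_y : ContinuousOn (fun p : E3 × ℝ => p.2) {p | 0 < p.2} := continuousOn_snd

theorem dka_x (j : Fin 3) : ContinuousOn (fun p : E3 × ℝ => p.1 j) {p | 0 < p.2} :=
  ((continuous_coord j).comp continuous_fst).continuousOn

/-- comparison of powers -/
theorem dka_cmp {y0 y : ℝ} (h0 : 0 < y0) (h : y0 ≤ y) (x : E3) (k : ℕ) :
    sg y x ^ (4 + k) ≤ y0⁻¹ ^ k * sg y x ^ 4 := by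
  have hy : 0 < y := h0.trans_le h
  have h1 : sg y x ≤ y0⁻¹ := (sg_le_inv hy x).trans (inv_anti₀ h0 h)
  have h2 := (sg_pos hy x).le
  rw [pow_add, mul_comm]
  exact mul_le_mul_of_nonneg_right (pow_le_pow_left₀ h2 h1 k) (by positivity)

/-- the form used for the kernels with a factor `y` -/
theorem dka_dom {κ : ℝ → E3 → ℝ} {c : ℝ} (hc : 0 ≤ c) (k : ℕ)
    (hb : ∀ y, 0 < y → ∀ x, |κ y x| ≤ (JJ 4)⁻¹ * (c * y) * sg y x ^ (4 + k)) :
    ∀ y0 > 0, ∃ C, ∀ y, y0 ≤ y → ∀ x, |κ y x| ≤ C * (y * sg y x ^ 4) := by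
  intro y0 h0
  refine ⟨(JJ 4)⁻¹ * c * y0⁻¹ ^ k, fun y hy x => ?_⟩
  have hy0 : 0 < y := h0.trans_le hy
  have hJ := JJ4_inv_pos
  refine (hb y hy0 x).trans ?_
  have h1 := dka_cmp h0 hy x k
  calc (JJ 4)⁻¹ * (c * y) * sg y x ^ (4 + k)
      ≤ (JJ 4)⁻¹ * (c * y) * (y0⁻¹ ^ k * sg y x ^ 4) :=
        mul_le_mul_of_nonneg_left h1 (by positivity)
    _ = _ := by ring

/-- the form used for the kernels without a factor `y` -/
theorem dka_dom' {κ : ℝ → E3 → ℝ} {c : ℝ} (hc : 0 ≤ c) (k : ℕ)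
    (hb : ∀ y, 0 < y → ∀ x, |κ y x| ≤ (JJ 4)⁻¹ * c * sg y x ^ (4 + k)) :
    ∀ y0 > 0, ∃ C, ∀ y, y0 ≤ y → ∀ x, |κ y x| ≤ C * (y * sg y x ^ 4) := by
  intro y0 h0
  refine ⟨(JJ 4)⁻¹ * c * y0⁻¹ ^ k * y0⁻¹, fun y hy x => ?_⟩
  have hy0 : 0 < y := h0.trans_le hy
  have hJ := JJ4_inv_pos
  have hs := sg_pos hy0 x
  refine (hb y hy0 x).trans ?_
  have h1 := dka_cmp h0 hy x k
  have h2 : 1 ≤ y0⁻¹ * y := by
    rw [inv_mul_eq_div]
    exact (one_le_div h0).2 hy
  calc (JJ 4)⁻¹ * c * sg y x ^ (4 + k)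
      ≤ (JJ 4)⁻¹ * c * (y0⁻¹ ^ k * sg y x ^ 4) :=
        mul_le_mul_of_nonneg_left h1 (by positivity)
    _ = ((JJ 4)⁻¹ * c * (y0⁻¹ ^ k * sg y x ^ 4)) * 1 := (mul_one _).symm
    _ ≤ ((JJ 4)⁻¹ * c * (y0⁻¹ ^ k * sg y x ^ 4)) * (y0⁻¹ * y) :=
        mul_le_mul_of_nonneg_left h2 (by positivity)
    _ = _ := by ring

theorem dka_pk : DK pk where
  cont := by
    unfold pk
    exact continuousOn_const.mul (dka_y.mul (dka_sg.pow 4))
  dom := dka_dom (c := 1) zero_le_one 0 fun y hy x => by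
    refine (abs_pk_le hy x).trans (le_of_eq ?_)
    ring

theorem dka_dk (j : Fin 3) : DK (dk j) where
  cont := by
    unfold dk
    exact continuousOn_const.mul
      (((continuousOn_const.mul dka_y).mul ((dka_x j).mul (dka_sg.pow 6))).neg)
  dom := dka_dom (c := 4) (by norm_num) 1 fun y hy x => abs_dk_le j hy x

theorem dka_yk : DK yk where
  cont := by
    unfold yk
    exact continuousOn_const.mul
      ((dka_sg.pow 4).sub ((continuousOn_const.mul (dka_y.pow 2)).mul (dka_sg.pow 6)))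
  dom := dka_dom' (c := 4) (by norm_num) 0 fun y hy x => abs_yk_le hy x

theorem dka_ddk (i j : Fin 3) : DK (ddk i j) where
  cont := by
    unfold ddk
    refine continuousOn_const.mul (((continuousOn_const.mul dka_y).neg).mul ?_)
    refine ContinuousOn.sub ?_ (continuousOn_const.mul
      (((dka_x i).mul (dka_x j)).mul (dka_sg.pow 8)))
    split_ifs
    · exact dka_sg.pow 6
    · exact continuousOn_const
  dom := dka_dom (c := 28) (by norm_num) 2 fun y hy x => abs_ddk_le i j hy x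

theorem dka_dyk (j : Fin 3) : DK (dyk j) where
  cont := by
    unfold dyk
    exact continuousOn_const.mul
      (((continuousOn_const.mul ((dka_x j).mul (dka_sg.pow 6))).neg).add
        ((continuousOn_const.mul (dka_y.pow 2)).mul ((dka_x j).mul (dka_sg.pow 8))))
  dom := dka_dom' (c := 28) (by norm_num) 1 fun y hy x => abs_dyk_le j hy x

theorem dka_yyk : DK yyk where
  cont := by
    unfold yyk
    exact continuousOn_const.mul
      (((continuousOn_const.mul dka_y).mul (dka_sg.pow 6)).neg.add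
        ((continuousOn_const.mul (dka_y.pow 3)).mul (dka_sg.pow 8)))
  dom := dka_dom (c := 24) (by norm_num) 2 fun y hy x => abs_yyk_le hy x

/-- D1a -/
theorem dk_ok : SpDK := ⟨dka_pk, dka_dk, dka_yk, dka_ddk, dka_dyk, dka_yyk⟩

end Pool.Agent.TF.D
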