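import Pool.Agent.TF.D.En2

/-!
# Block D: the energy inequality
-/

set_option autoImplicit false

namespace Pool.Agent.TF.D.En

open MeasureTheory Set Filter Topology Pool.Agent.TO Pool.Agent.TB Pool.Agent.TC Pool.Agent.TP
  Pool.Agent.TF
open scoped ENNReal NNReal Real InnerProductSpace

variable {δ κ : ℝ} {V : Fin 4 → E3 → ℝ → ℝ} {M W : Fin 4 → Fin 4 → E3 → ℝ → ℝ}

theorem en_prod (hδ : 0 < δ) {f : E3 → ℝ → ℝ} {c : ℝ → ℝ} {B C Y : ℝ}
    (hf : ContinuousOn (fun p : E3 × ℝ => f p.1 p.2) {p | -δ < p.2}) (hc : Continuous c)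
    (hB : ∀ y ∈ Ioc 0 Y, |c y| ≤ B)
    (hi : ∀ y, 0 ≤ y → Integrable (fun x => f x y) ∧ ∫ x, |f x y| ≤ C) :
    Integrable (fun p : ℝ × E3 => c p.1 * f p.2 p.1)
      ((volume.restrict (Ioc 0 Y)).prod (volume : Measure E3)) := by
  have hC : 0 ≤ C := (integral_nonneg fun x => abs_nonneg _).trans (hi 0 le_rfl).2
  have hm : AEStronglyMeasurable (fun p : ℝ × E3 => c p.1 * f p.2 p.1)
      ((volume.restrict (Ioc 0 Y)).prod (volume : Measure E3)) := by
    have e1 : (volume.restrict (Ioc 0 Y)).prod (volume : Measure E3) =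
        ((volume : Measure ℝ).prod (volume : Measure E3)).restrict (Ioc 0 Y ×ˢ univ) := by
      rw [← Measure.prod_restrict, Measure.restrict_univ]
    rw [e1]
    apply ContinuousOn.aestronglyMeasurable _ (measurableSet_Ioc.prod MeasurableSet.univ)
    apply (hc.comp continuous_fst).continuousOn.mul
    exact hf.comp (continuous_swap.continuousOn) (fun p hp => by
      exact lt_trans (neg_lt_zero.2 hδ) hp.1.1)
  rw [integrable_prod_iff hm]
  refine ⟨?_, ?_⟩
  · rw [ae_restrict_iff' measurableSet_Ioc]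
    exact Eventually.of_forall fun y hy => (hi y hy.1.le).1.const_mul (c y)
  · apply Integrable.of_bound hm.norm.integral_prod_right' (B * C)
    rw [ae_restrict_iff' measurableSet_Ioc]
    apply Eventually.of_forall
    intro y hy
    have h1 : ∫ x, ‖c y * f x y‖ = |c y| * ∫ x, |f x y| := by
      rw [← integral_const_mul]
      simp only [Real.norm_eq_abs, abs_mul]
    rw [Real.norm_eq_abs, abs_of_nonneg (integral_nonneg fun x => norm_nonneg _)]
    change ∫ x, ‖c y * f x y‖ ≤ _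
    rw [h1]
    exact mul_le_mul (hB y hy) (hi y hy.1.le).2 (integral_nonneg fun x => abs_nonneg _)
      ((abs_nonneg _).trans (hB y hy))

theorem en_low (hU : SpU) (h : HS δ V M W) (hκ : 0 < κ) (x : E3) {y : ℝ} (hy : 0 ≤ y) :
    Mn M x y / √(Vn V x y + κ) ≤ 4 * ∑ a, Udd (1 / 2) κ V M W a x y := by
  obtain ⟨-, -, -, -, -, -, -, h8⟩ := hU δ V M W h (1 / 2) κ (by norm_num) (by norm_num) hκ
  have h1 := h8 x y (by linarith [h.pos])
  have hu : 0 < Vn V x y + κ := by
    have := Vn_nonneg (V := V) x y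
    linarith
  have e1 : (Vn V x y + κ) ^ ((1 / 2 : ℝ) - 1) = (√(Vn V x y + κ))⁻¹ := by
    rw [Real.sqrt_eq_rpow, ← Real.rpow_neg hu.le]
    norm_num
  rw [e1] at h1
  have e2 : 2 * (1 / 2 : ℝ) * (1 - 3 / 2 * (1 - 1 / 2)) * (√(Vn V x y + κ))⁻¹ * Mn M x y =
      1 / 4 * (Mn M x y / √(Vn V x y + κ)) := by
    ring
  rw [e2] at h1
  linarith

/-- the identity for the weighted integral of the Laplacian -/
theorem en_main (hU : SpU) (h : HS δ V M W) (hκ : 0 < κ) {Y : ℝ} (hY : 0 < Y) :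
    IntegrableOn (fun y => ∫ x, wf Y y * Udd (1 / 2) κ V M W 0 x y) (Ioc 0 Y) ∧
    ∫ y in Ioc 0 Y, ∫ x, wf Y y * Udd (1 / 2) κ V M W 0 x y ≤ 5 * Kn V := by
  obtain ⟨-, -, -, -, c0, c1, c2, -⟩ :=
    hU δ V M W h (1 / 2) κ (by norm_num) (by norm_num) hκ
  obtain ⟨C, hC, hb⟩ := en_udd h hU hκ
  have hK : 0 ≤ Kn V := integral_nonneg fun x => Real.sqrt_nonneg _
  have cS : ContinuousOn (fun p : E3 × ℝ => Sk κ V p.1 p.2) {p | -δ < p.2} :=
    c0.sub continuousOn_const
  have P1 := en_prod (B := Y) (C := C) (Y := Y) h.pos (c2 0) (wf_cont Y)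
    (fun y hy => by
      rw [abs_of_nonneg (wf_nonneg hY hy.1.le)]
      exact wf_le hY hy.1.le hy.2) (hb 0)
  have P2 := en_prod (B := 4 / Y) (C := Kn V) (Y := Y) h.pos cS (wf2_cont Y)
    (fun y hy => wf2_abs hY hy.1.le hy.2)
    (fun y hy => ⟨(sk_int h hU hκ hy).1, by
      simp only [abs_of_nonneg (sk_nonneg hκ _ _)]
      exact (sk_int h hU hκ hy).2⟩)
  refine ⟨P1.integral_prod_left, ?_⟩
  have s1 := integral_integral_swap (f := fun (y : ℝ) (x : E3) =>
    wf Y y * Udd (1 / 2) κ V M W 0 x y) P1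
  have s2 := integral_integral_swap (f := fun (y : ℝ) (x : E3) => wf2 Y y * Sk κ V x y) P2
  rw [s1]
  have e1 : ∀ x : E3, ∫ y in Ioc 0 Y, wf Y y * Udd (1 / 2) κ V M W 0 x y =
      Sk κ V x 0 + ∫ y in Ioc 0 Y, wf2 Y y * Sk κ V x y := by
    intro x
    have := en_parts h hU hκ hY x
    rwa [intervalIntegral.integral_of_le hY.le, intervalIntegral.integral_of_le hY.le] at this
  simp only [e1]
  rw [integral_add (sk_int h hU hκ le_rfl).1 P2.integral_prod_right, ← s2]
  have h3 : ∫ y in Ioc 0 Y, ∫ x, wf2 Y y * Sk κ V x y ≤ 4 * Kn V := by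
    have h4 : ∀ y ∈ Ioc 0 Y, ‖∫ x, wf2 Y y * Sk κ V x y‖ ≤ 4 / Y * Kn V := by
      intro y hy
      rw [integral_const_mul, norm_mul, Real.norm_eq_abs, Real.norm_eq_abs,
        abs_of_nonneg (integral_nonneg fun x => sk_nonneg hκ x y)]
      exact mul_le_mul (wf2_abs hY hy.1.le hy.2) (sk_int h hU hκ hy.1.le).2
        (integral_nonneg fun x => sk_nonneg hκ x y) (by positivity)
    have h5 := norm_setIntegral_le_of_norm_le_const (μ := volume) (s := Ioc 0 Y)
      (by simp) h4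
    refine (le_abs_self _).trans (h5.trans (le_of_eq ?_))
    rw [Real.volume_real_Ioc_of_le hY.le]
    field_simp
    ring
  have h4 := (sk_int h hU hκ (le_refl (0:ℝ))).2
  linarith

theorem en_ok (hU : SpU) : SpEn := by
  refine ⟨80, by norm_num, ?_⟩
  intro δ V M W h κ τ hκ hτ
  have hY : 0 < 2 * τ := by positivity
  obtain ⟨C, hC, hb⟩ := en_udd h hU hκ
  obtain ⟨iφ, lφ⟩ := en_main hU h hκ hY
  have hK : 0 ≤ Kn V := integral_nonneg fun x => Real.sqrt_nonneg _
  set φ : ℝ → ℝ := fun y => ∫ x, wf (2 * τ) y * Udd (1 / 2) κ V M W 0 x y with hφ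
  -- the sum of all directions
  have isum : ∀ y, 0 ≤ y → Integrable (fun x => ∑ a, Udd (1 / 2) κ V M W a x y) := fun y hy =>
    integrable_finsetSum _ fun a _ => (hb a y hy).1
  have hsum : ∀ y, 0 ≤ y →
      ∫ x, wf (2 * τ) y * ∑ a, Udd (1 / 2) κ V M W a x y = φ y := by
    intro y hy
    rw [hφ]
    dsimp only
    rw [integral_const_mul, integral_const_mul, integral_finsetSum _ fun a _ => (hb a y hy).1,
      Fin.sum_univ_succ]
    have e1 : ∑ j : Fin 3, ∫ x, Udd (1 / 2) κ V M W j.succ x y = 0 :=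
      Finset.sum_eq_zero fun j _ => en_zero h hU hκ j hy
    rw [e1, add_zero]
  have hpos : ∀ (x : E3) (y : ℝ), 0 ≤ y → 0 ≤ ∑ a, Udd (1 / 2) κ V M W a x y := by
    intro x y hy
    have h1 := en_low hU h hκ x hy
    have h2 : 0 ≤ Mn M x y / √(Vn V x y + κ) :=
      div_nonneg (Mn_nonneg x y) (Real.sqrt_nonneg _)
    linarith
  have hφ0 : ∀ y, 0 ≤ y → 0 ≤ φ y := by
    intro y hy
    rw [← hsum y hy]
    exact integral_nonneg fun x => mul_nonneg (wf_nonneg hY hy) (hpos x y hy)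
  -- the slices
  have hslice : ∀ y ∈ Ioo 0 τ, ∫⁻ x, ENNReal.ofReal (y * (Mn M x y / √(Vn V x y + κ))) ≤
      ENNReal.ofReal (16 * φ y) := by
    intro y hy
    rw [← hsum y hy.1.le, ← integral_const_mul,
      ofReal_integral_eq_lintegral_ofReal (((isum y hy.1.le).const_mul _).const_mul _)
        (Eventually.of_forall fun x => mul_nonneg (by norm_num)
          (mul_nonneg (wf_nonneg hY hy.1.le) (hpos x y hy.1.le)))]
    apply lintegral_mono
    intro x
    apply ENNReal.ofReal_le_ofReal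
    have h1 := en_low hU h hκ x hy.1.le
    have h2 := wf_low hτ hy.1.le hy.2.le
    have h3 := hpos x y hy.1.le
    have h4 := hy.1
    calc y * (Mn M x y / √(Vn V x y + κ))
        ≤ y * (4 * ∑ a, Udd (1 / 2) κ V M W a x y) := by gcongr
      _ ≤ (4 * wf (2 * τ) y) * (4 * ∑ a, Udd (1 / 2) κ V M W a x y) := by gcongr
      _ = _ := by ring
  calc ∫⁻ y in Ioo 0 τ, ∫⁻ x, ENNReal.ofReal (y * (Mn M x y / √(Vn V x y + κ)))
      ≤ ∫⁻ y in Ioo 0 τ, ENNReal.ofReal (16 * φ y) :=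
        setLIntegral_mono' measurableSet_Ioo hslice
    _ ≤ ∫⁻ y in Ioc 0 (2 * τ), ENNReal.ofReal (16 * φ y) :=
        lintegral_mono_set fun y hy => ⟨hy.1, by linarith [hy.2]⟩
    _ = ENNReal.ofReal (∫ y in Ioc 0 (2 * τ), 16 * φ y) := by
        rw [ofReal_integral_eq_lintegral_ofReal (iφ.const_mul 16)]
        rw [Filter.EventuallyLE, ae_restrict_iff' measurableSet_Ioc]
        exact Eventually.of_forall fun y hy => mul_nonneg (by norm_num) (hφ0 y hy.1.le)
    _ ≤ ENNReal.ofReal (80 * Kn V) := by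
        apply ENNReal.ofReal_le_ofReal
        rw [integral_const_mul]
        linarith

end Pool.Agent.TF.D.En

namespace Pool.Agent.TF.D

/-- D6: the energy inequality -/
theorem en_ok (hU : SpU) : SpEn := En.en_ok hU

end Pool.Agent.TF.D
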