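import Pool.Agent.TF.D.Spec

/-!
# Block D: the energy inequality, part 1 (integrals in `x`)
-/

set_option autoImplicit false

namespace Pool.Agent.TF.D.En

open MeasureTheory Set Filter Topology Pool.Agent.TO Pool.Agent.TB Pool.Agent.TC Pool.Agent.TP
  Pool.Agent.TF
open scoped ENNReal NNReal Real InnerProductSpace

variable {δ κ : ℝ} {V : Fin 4 → E3 → ℝ → ℝ} {M W : Fin 4 → Fin 4 → E3 → ℝ → ℝ}

theorem en_cont {f : E3 → ℝ → ℝ}
    (hf : ContinuousOn (fun p : E3 × ℝ => f p.1 p.2) {p | -δ < p.2}) {y : ℝ} (hy : -δ < y) :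
    Continuous fun x => f x y := by
  have h : Continuous fun x : E3 => ((x, y) : E3 × ℝ) := by fun_prop
  exact hf.comp_continuous h (fun x => hy)

theorem en_conty {f : E3 → ℝ → ℝ}
    (hf : ContinuousOn (fun p : E3 × ℝ => f p.1 p.2) {p | -δ < p.2}) (x : E3) :
    ContinuousOn (fun y => f x y) (Ioi (-δ)) := by
  have h : Continuous fun y : ℝ => ((x, y) : E3 × ℝ) := by fun_prop
  exact hf.comp h.continuousOn (fun y hy => hy)

theorem Vn_nonneg (x : E3) (y : ℝ) : 0 ≤ Vn V x y := Finset.sum_nonneg fun _ _ => sq_nonneg _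

theorem Mn_nonneg (x : E3) (y : ℝ) : 0 ≤ Mn M x y :=
  Finset.sum_nonneg fun _ _ => Finset.sum_nonneg fun _ _ => sq_nonneg _

theorem en_cs (a : Fin 4) (x : E3) (y : ℝ) :
    (∑ b, V b x y * M a b x y) ^ 2 ≤ Vn V x y * ∑ b, M a b x y ^ 2 :=
  Finset.sum_mul_sq_le_sq_mul_sq _ _ _

theorem en_abs (a : Fin 4) (x : E3) (y : ℝ) :
    |∑ b, V b x y * M a b x y| ≤ Vn V x y + ∑ b, M a b x y ^ 2 := by
  refine (Finset.abs_sum_le_sum_abs _ _).trans ?_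
  unfold Vn
  rw [← Finset.sum_add_distrib]
  apply Finset.sum_le_sum
  intro b _
  rw [abs_mul]
  nlinarith [sq_nonneg (|V b x y| - |M a b x y|), sq_abs (V b x y), sq_abs (M a b x y),
    sq_nonneg (V b x y), sq_nonneg (M a b x y)]

theorem en_abs2 (a : Fin 4) (x : E3) (y : ℝ) :
    |∑ b, (M a b x y ^ 2 + V b x y * W a b x y)| ≤
      Vn V x y + ∑ b, M a b x y ^ 2 + ∑ b, W a b x y ^ 2 := by
  refine (Finset.abs_sum_le_sum_abs _ _).trans ?_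
  unfold Vn
  rw [← Finset.sum_add_distrib, ← Finset.sum_add_distrib]
  apply Finset.sum_le_sum
  intro b _
  refine (abs_add_le _ _).trans ?_
  rw [abs_mul, abs_of_nonneg (sq_nonneg (M a b x y))]
  nlinarith [sq_nonneg (|V b x y| - |W a b x y|), sq_abs (V b x y), sq_abs (W a b x y),
    sq_nonneg (V b x y), sq_nonneg (W a b x y)]

theorem en_p1 (hκ : 0 < κ) (x : E3) (y : ℝ) :
    (Vn V x y + κ) ^ ((1 / 2 : ℝ) - 1) ≤ κ ^ ((1 / 2 : ℝ) - 1) := by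
  apply Real.rpow_le_rpow_of_nonpos hκ
  · have := Vn_nonneg (V := V) x y
    linarith
  · norm_num

theorem en_bd1 (hκ : 0 < κ) (a : Fin 4) (x : E3) (y : ℝ) :
    |Ud (1 / 2) κ V M a x y| ≤ κ ^ ((1 / 2 : ℝ) - 1) * (Vn V x y + ∑ b, M a b x y ^ 2) := by
  have hu : 0 < Vn V x y + κ := by
    have := Vn_nonneg (V := V) x y
    linarith
  unfold Ud
  rw [abs_mul, abs_mul, abs_of_nonneg (Real.rpow_nonneg hu.le _)]
  have h1 : |2 * (1 / 2 : ℝ)| = 1 := by norm_num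
  rw [h1, one_mul]
  exact mul_le_mul (en_p1 hκ x y) (en_abs a x y) (abs_nonneg _) (Real.rpow_nonneg hκ.le _)

theorem en_bd2 (hκ : 0 < κ) (a : Fin 4) (x : E3) (y : ℝ) :
    |Udd (1 / 2) κ V M W a x y| ≤ κ ^ ((1 / 2 : ℝ) - 1) *
      (Vn V x y + 2 * ∑ b, M a b x y ^ 2 + ∑ b, W a b x y ^ 2) := by
  have hV := Vn_nonneg (V := V) x y
  have hu : 0 < Vn V x y + κ := by linarith
  have hp1 := en_p1 (V := V) hκ x y
  have hc : 0 ≤ κ ^ ((1 / 2 : ℝ) - 1) := Real.rpow_nonneg hκ.le _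
  have hM : 0 ≤ ∑ b, M a b x y ^ 2 := Finset.sum_nonneg fun _ _ => sq_nonneg _
  have h2 : |(Vn V x y + κ) ^ ((1 / 2 : ℝ) - 1) * ∑ b, (M a b x y ^ 2 + V b x y * W a b x y)| ≤
      κ ^ ((1 / 2 : ℝ) - 1) * (Vn V x y + ∑ b, M a b x y ^ 2 + ∑ b, W a b x y ^ 2) := by
    rw [abs_mul, abs_of_nonneg (Real.rpow_nonneg hu.le _)]
    exact mul_le_mul hp1 (en_abs2 a x y) (abs_nonneg _) hc
  have h3 : |(Vn V x y + κ) ^ ((1 / 2 : ℝ) - 2) * (∑ b, V b x y * M a b x y) ^ 2| ≤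
      κ ^ ((1 / 2 : ℝ) - 1) * ∑ b, M a b x y ^ 2 := by
    rw [abs_of_nonneg (mul_nonneg (Real.rpow_nonneg hu.le _) (sq_nonneg _))]
    have e1 : (Vn V x y + κ) ^ ((1 / 2 : ℝ) - 2) * (Vn V x y + κ) =
        (Vn V x y + κ) ^ ((1 / 2 : ℝ) - 1) := by
      have h := Real.rpow_add hu ((1 / 2 : ℝ) - 2) 1
      rw [Real.rpow_one] at h
      rw [← h]
      norm_num
    calc (Vn V x y + κ) ^ ((1 / 2 : ℝ) - 2) * (∑ b, V b x y * M a b x y) ^ 2
        ≤ (Vn V x y + κ) ^ ((1 / 2 : ℝ) - 2) * ((Vn V x y + κ) * ∑ b, M a b x y ^ 2) := by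
          apply mul_le_mul_of_nonneg_left _ (Real.rpow_nonneg hu.le _)
          refine (en_cs a x y).trans (mul_le_mul_of_nonneg_right ?_ hM)
          linarith
      _ = (Vn V x y + κ) ^ ((1 / 2 : ℝ) - 1) * ∑ b, M a b x y ^ 2 := by rw [← mul_assoc, e1]
      _ ≤ _ := mul_le_mul_of_nonneg_right hp1 hM
  have h4 : Udd (1 / 2) κ V M W a x y =
      (Vn V x y + κ) ^ ((1 / 2 : ℝ) - 1) * ∑ b, (M a b x y ^ 2 + V b x y * W a b x y) -
      (Vn V x y + κ) ^ ((1 / 2 : ℝ) - 2) * (∑ b, V b x y * M a b x y) ^ 2 := by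
    unfold Udd
    ring
  rw [h4]
  refine (abs_sub _ _).trans ?_
  calc _ ≤ κ ^ ((1 / 2 : ℝ) - 1) * (Vn V x y + ∑ b, M a b x y ^ 2 + ∑ b, W a b x y ^ 2) +
      κ ^ ((1 / 2 : ℝ) - 1) * ∑ b, M a b x y ^ 2 := add_le_add h2 h3
    _ = _ := by ring

/-- uniform bounds of the squares -/
theorem en_l2 (h : HS δ V M W) : ∃ C : ℝ, ∀ a y, 0 ≤ y →
    (Integrable (fun x => Vn V x y) ∧ ∫ x, Vn V x y ≤ C) ∧
    (Integrable (fun x => ∑ b, M a b x y ^ 2) ∧ ∫ x, ∑ b, M a b x y ^ 2 ≤ C) ∧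
    (Integrable (fun x => ∑ b, W a b x y ^ 2) ∧ ∫ x, ∑ b, W a b x y ^ 2 ≤ C) := by
  obtain ⟨C, hC⟩ := h.l2
  refine ⟨4 * C, fun a y hy => ⟨⟨?_, ?_⟩, ⟨?_, ?_⟩, ⟨?_, ?_⟩⟩⟩
  · exact integrable_finsetSum _ fun b _ => (hC a b y hy).1.1
  · unfold Vn
    rw [integral_finsetSum _ fun b _ => (hC a b y hy).1.1]
    calc ∑ b, ∫ x, V b x y ^ 2 ≤ ∑ _b : Fin 4, C := Finset.sum_le_sum fun b _ => (hC a b y hy).1.2
      _ = 4 * C := by simp
  · exact integrable_finsetSum _ fun b _ => (hC a b y hy).2.1.1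
  · rw [integral_finsetSum _ fun b _ => (hC a b y hy).2.1.1]
    calc ∑ b, ∫ x, M a b x y ^ 2 ≤ ∑ _b : Fin 4, C :=
          Finset.sum_le_sum fun b _ => (hC a b y hy).2.1.2
      _ = 4 * C := by simp
  · exact integrable_finsetSum _ fun b _ => (hC a b y hy).2.2.1
  · rw [integral_finsetSum _ fun b _ => (hC a b y hy).2.2.1]
    calc ∑ b, ∫ x, W a b x y ^ 2 ≤ ∑ _b : Fin 4, C :=
          Finset.sum_le_sum fun b _ => (hC a b y hy).2.2.2
      _ = 4 * C := by simp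

theorem en_ud (h : HS δ V M W) (hU : SpU) (hκ : 0 < κ) (a : Fin 4) {y : ℝ} (hy : 0 ≤ y) :
    Integrable (fun x => Ud (1 / 2) κ V M a x y) := by
  obtain ⟨C, hC⟩ := en_l2 h
  obtain ⟨-, -, -, -, -, c1, -, -⟩ := hU δ V M W h (1 / 2) κ (by norm_num) (by norm_num) hκ
  have hy' : -δ < y := by linarith [h.pos]
  have h1 := hC a y hy
  apply ((h1.1.1.add h1.2.1.1).const_mul (κ ^ ((1 / 2 : ℝ) - 1))).mono'
    (en_cont (c1 a) hy').aestronglyMeasurable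
  exact Eventually.of_forall fun x => en_bd1 hκ a x y

theorem en_udd (h : HS δ V M W) (hU : SpU) (hκ : 0 < κ) : ∃ C : ℝ, 0 ≤ C ∧ ∀ a y, 0 ≤ y →
    Integrable (fun x => Udd (1 / 2) κ V M W a x y) ∧
    ∫ x, |Udd (1 / 2) κ V M W a x y| ≤ C := by
  obtain ⟨C, hC⟩ := en_l2 h
  obtain ⟨-, -, -, -, -, -, c1, -⟩ := hU δ V M W h (1 / 2) κ (by norm_num) (by norm_num) hκ
  have hC0 : 0 ≤ C := (integral_nonneg fun x => Vn_nonneg x 0).trans (hC 0 0 le_rfl).1.2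
  have hc : 0 ≤ κ ^ ((1 / 2 : ℝ) - 1) := Real.rpow_nonneg hκ.le _
  refine ⟨κ ^ ((1 / 2 : ℝ) - 1) * (4 * C), by positivity, fun a y hy => ?_⟩
  have hy' : -δ < y := by linarith [h.pos]
  obtain ⟨⟨i1, l1⟩, ⟨i2, l2⟩, ⟨i3, l3⟩⟩ := hC a y hy
  have hI := (((i1.add (i2.const_mul 2)).add i3).const_mul (κ ^ ((1 / 2 : ℝ) - 1)))
  have hi : Integrable (fun x => Udd (1 / 2) κ V M W a x y) := by
    apply hI.mono' (en_cont (c1 a) hy').aestronglyMeasurable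
    exact Eventually.of_forall fun x => en_bd2 hκ a x y
  refine ⟨hi, ?_⟩
  have a1 := integral_add (i1.add (i2.const_mul 2)) i3
  have a2 := integral_add i1 (i2.const_mul 2)
  have a3 : ∫ x, 2 * ∑ b, M a b x y ^ 2 = 2 * ∫ x, ∑ b, M a b x y ^ 2 := integral_const_mul _ _
  simp only [Pi.add_apply] at a1 a2
  calc ∫ x, |Udd (1 / 2) κ V M W a x y| ≤ ∫ x, κ ^ ((1 / 2 : ℝ) - 1) *
      (Vn V x y + 2 * ∑ b, M a b x y ^ 2 + ∑ b, W a b x y ^ 2) :=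
        integral_mono hi.abs hI fun x => en_bd2 hκ a x y
    _ = κ ^ ((1 / 2 : ℝ) - 1) * ((∫ x, Vn V x y) + 2 * (∫ x, ∑ b, M a b x y ^ 2) +
        ∫ x, ∑ b, W a b x y ^ 2) := by
        rw [integral_const_mul, a1, a2, a3]
    _ ≤ _ := mul_le_mul_of_nonneg_left (by linarith) hc

theorem en_zero (h : HS δ V M W) (hU : SpU) (hκ : 0 < κ) (j : Fin 3) {y : ℝ} (hy : 0 ≤ y) :
    ∫ x, Udd (1 / 2) κ V M W j.succ x y = 0 := by
  obtain ⟨-, -, d1, -, -, -, -, -⟩ := hU δ V M W h (1 / 2) κ (by norm_num) (by norm_num) hκ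
  have hy' : -δ < y := by linarith [h.pos]
  obtain ⟨C, -, hC⟩ := en_udd h hU hκ
  have h1 := integral_bilinear_hasLineDerivAt_right_eq_neg_left_of_integrable
    (μ := (volume : Measure E3)) (v := ee j)
    (f := fun _ : E3 => (1:ℝ)) (f' := fun _ : E3 => (0:ℝ))
    (g := fun x => Ud (1 / 2) κ V M j.succ x y) (g' := fun x => Udd (1 / 2) κ V M W j.succ x y)
    (B := ContinuousLinearMap.mul ℝ ℝ) (by simp)
    (by simpa using (hC j.succ y hy).1) (by simpa using en_ud h hU hκ j.succ hy)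
    (fun x _ => by
      simpa [HasLineDerivAt] using hasDerivAt_const (0:ℝ) (1:ℝ))
    (fun x _ => d1 j x y hy')
  simpa using h1

end Pool.Agent.TF.D.En
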