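import Pool.Agent.TF.D.En1

/-!
# Block D: the energy inequality, part 2 (the mass is not increasing, integrals in `y`)
-/

set_option autoImplicit false

namespace Pool.Agent.TF.D.En

open MeasureTheory Set Filter Topology Pool.Agent.TO Pool.Agent.TB Pool.Agent.TC Pool.Agent.TP
  Pool.Agent.TF
open scoped ENNReal NNReal Real InnerProductSpace

variable {δ κ : ℝ} {V : Fin 4 → E3 → ℝ → ℝ} {M W : Fin 4 → Fin 4 → E3 → ℝ → ℝ}

/-- the vector of the `V_b` -/
noncomputable def vv (V : Fin 4 → E3 → ℝ → ℝ) (y : ℝ) (x : E3) : EuclideanSpace ℝ (Fin 4) :=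
  WithLp.toLp 2 fun b => V b x y

theorem vv_apply (y : ℝ) (x : E3) (b : Fin 4) : (vv V y x) b = V b x y := rfl

theorem norm_vv (y : ℝ) (x : E3) : ‖vv V y x‖ = √(Vn V x y) := by
  rw [EuclideanSpace.norm_eq]
  unfold Vn
  congr 1
  apply Finset.sum_congr rfl
  intro b _
  rw [vv_apply, Real.norm_eq_abs, sq_abs]

theorem cont_vv (h : HS δ V M W) {y : ℝ} (hy : 0 ≤ y) : Continuous (vv V y) := by
  have hy' : -δ < y := by linarith [h.pos]
  apply (PiLp.continuous_toLp 2 _).comp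
  exact continuous_pi fun b => en_cont (h.cV b) hy'

theorem vv_ext (h : HS δ V M W) {y : ℝ} (hy : 0 < y) (x : E3) :
    vv V y x = cvf (pk y) (vv V 0) x := by
  obtain ⟨C, hC⟩ := h.l2
  have i1 : Integrable (fun x => Vn V x 0) :=
    integrable_finsetSum _ fun b _ => (hC 0 b 0 le_rfl).1.1
  have h2 : ∫⁻ z, ‖vv V 0 z‖ₑ ^ 2 < ∞ := by
    have e1 : ∀ z, ‖vv V 0 z‖ₑ ^ 2 = ENNReal.ofReal (Vn V z 0) := by
      intro z
      rw [← ofReal_norm, ← ENNReal.ofReal_pow (norm_nonneg _), norm_vv,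
        Real.sq_sqrt (Vn_nonneg z 0)]
    simp only [e1]
    exact i1.lintegral_lt_top
  have hi : Integrable (fun z => pk y z • vv V 0 (x - z)) (volume : Measure E3) :=
    integrable_cvf (kk_pk hy) (cont_vv h le_rfl).stronglyMeasurable h2 x
  ext b
  rw [vv_apply, h.ext b x y hy]
  exact ((EuclideanSpace.proj b : EuclideanSpace ℝ (Fin 4) →L[ℝ] ℝ).integral_comp_comm hi)

/-- the mass is not increasing -/
theorem en_mass (h : HS δ V M W) {y : ℝ} (hy : 0 ≤ y) :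
    Integrable (fun x => √(Vn V x y)) ∧ ∫ x, √(Vn V x y) ≤ Kn V := by
  have i0 : Integrable (fun x => √(Vn V x 0)) := by
    have i1 : Integrable (fun x => ∑ b, |V b x 0|) :=
      integrable_finsetSum _ fun b _ => (h.l1 b).abs
    have e1 : (fun x => √(Vn V x 0)) = fun x => ‖vv V 0 x‖ := by
      funext x
      rw [norm_vv]
    apply i1.mono'
    · rw [e1]
      exact (cont_vv h le_rfl).norm.aestronglyMeasurable
    · apply Eventually.of_forall
      intro x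
      rw [Real.norm_eq_abs, abs_of_nonneg (Real.sqrt_nonneg _)]
      unfold Vn
      apply Real.sqrt_le_iff.2 ⟨Finset.sum_nonneg fun _ _ => abs_nonneg _, ?_⟩
      have h1 := Finset.sum_sq_le_sq_sum_of_nonneg (s := Finset.univ) (f := fun b => |V b x 0|)
        (fun b _ => abs_nonneg _)
      simpa only [sq_abs] using h1
  rcases hy.eq_or_lt with rfl | hy0
  · exact ⟨i0, le_rfl⟩
  · have hc := cont_vv h hy
    have h1 : ∫⁻ x, ‖vv V y x‖ₑ ≤ ∫⁻ x, ‖vv V 0 x‖ₑ := by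
      calc ∫⁻ x, ‖vv V y x‖ₑ ≤ ∫⁻ x, ∫⁻ z, ‖pk y z‖ₑ * ‖vv V 0 (x - z)‖ₑ := by
            apply lintegral_mono
            intro x
            dsimp only
            rw [vv_ext h hy0 x]
            exact enorm_cvf_le _ _
        _ ≤ ENNReal.ofReal 1 * ∫⁻ x, ‖vv V 0 x‖ₑ :=
            lintegral_cvf (kk_pk hy0) (cont_vv h le_rfl).enorm.measurable
        _ = _ := by rw [ENNReal.ofReal_one, one_mul]
    have e0 : ∫⁻ x, ‖vv V 0 x‖ₑ = ENNReal.ofReal (Kn V) := by
      unfold Kn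
      rw [ofReal_integral_eq_lintegral_ofReal i0 (Eventually.of_forall fun x => Real.sqrt_nonneg _)]
      apply lintegral_congr
      intro x
      rw [← norm_vv, ofReal_norm]
    have i2 : Integrable (vv V y) := ⟨hc.aestronglyMeasurable, by
      rw [hasFiniteIntegral_iff_enorm]
      exact h1.trans_lt (e0 ▸ ENNReal.ofReal_lt_top)⟩
    have i3 : Integrable (fun x => √(Vn V x y)) := by
      have := i2.norm
      simpa only [norm_vv] using this
    refine ⟨i3, ?_⟩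
    have hK : 0 ≤ Kn V := integral_nonneg fun x => Real.sqrt_nonneg _
    rw [← ENNReal.ofReal_le_ofReal_iff hK,
      ofReal_integral_eq_lintegral_ofReal i3 (Eventually.of_forall fun x => Real.sqrt_nonneg _),
      ← e0]
    refine le_trans (le_of_eq ?_) h1
    apply lintegral_congr
    intro x
    rw [← norm_vv, ofReal_norm]

/-- `S = (|V|² + κ)^{1/2} - κ^{1/2}` -/
noncomputable def Sk (κ : ℝ) (V : Fin 4 → E3 → ℝ → ℝ) (x : E3) (y : ℝ) : ℝ :=
  Uq (1 / 2) κ V x y - √κ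

theorem uq_half (x : E3) (y : ℝ) : Uq (1 / 2) κ V x y = √(Vn V x y + κ) := by
  unfold Uq
  rw [Real.sqrt_eq_rpow]

theorem sk_nonneg (hκ : 0 < κ) (x : E3) (y : ℝ) : 0 ≤ Sk κ V x y := by
  unfold Sk
  rw [uq_half, sub_nonneg]
  apply Real.sqrt_le_sqrt
  have := Vn_nonneg (V := V) x y
  linarith

theorem sk_le (hκ : 0 < κ) (x : E3) (y : ℝ) : Sk κ V x y ≤ √(Vn V x y) := by
  unfold Sk
  rw [uq_half, sub_le_iff_le_add]
  have h0 := Vn_nonneg (V := V) x y
  apply Real.sqrt_le_iff.2 ⟨by positivity, ?_⟩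
  nlinarith [Real.sq_sqrt h0, Real.sq_sqrt hκ.le,
    mul_nonneg (Real.sqrt_nonneg (Vn V x y)) (Real.sqrt_nonneg κ)]

theorem sk_int (h : HS δ V M W) (hU : SpU) (hκ : 0 < κ) {y : ℝ} (hy : 0 ≤ y) :
    Integrable (fun x => Sk κ V x y) ∧ ∫ x, Sk κ V x y ≤ Kn V := by
  obtain ⟨-, -, -, -, c0, -, -, -⟩ := hU δ V M W h (1 / 2) κ (by norm_num) (by norm_num) hκ
  have hy' : -δ < y := by linarith [h.pos]
  obtain ⟨i1, l1⟩ := en_mass h hy
  have i2 : Integrable (fun x => Sk κ V x y) := by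
    apply i1.mono'
    · exact ((en_cont c0 hy').sub continuous_const).aestronglyMeasurable
    · apply Eventually.of_forall
      intro x
      rw [Real.norm_eq_abs, abs_of_nonneg (sk_nonneg hκ x y)]
      exact sk_le hκ x y
  exact ⟨i2, (integral_mono i2 i1 fun x => sk_le hκ x y).trans l1⟩

/-! ### the weight -/

/-- the weight -/
noncomputable def wf (Y y : ℝ) : ℝ := y - 2 * y ^ 2 / Y + y ^ 3 / Y ^ 2

/-- its derivative -/
noncomputable def wf1 (Y y : ℝ) : ℝ := 1 - 4 * y / Y + 3 * y ^ 2 / Y ^ 2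

/-- its second derivative -/
noncomputable def wf2 (Y y : ℝ) : ℝ := -4 / Y + 6 * y / Y ^ 2

theorem wf_d (Y y : ℝ) : HasDerivAt (wf Y) (wf1 Y y) y := by
  have h1 := ((hasDerivAt_id y).sub (((hasDerivAt_pow 2 y).const_mul 2).div_const Y)).add
    ((hasDerivAt_pow 3 y).div_const (Y ^ 2))
  refine h1.congr_deriv ?_
  unfold wf1
  push_cast
  ring

theorem wf1_d (Y y : ℝ) : HasDerivAt (wf1 Y) (wf2 Y y) y := by
  have h1 := ((hasDerivAt_const y (1:ℝ)).sub (((hasDerivAt_id y).const_mul 4).div_const Y)).add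
    (((hasDerivAt_pow 2 y).const_mul 3).div_const (Y ^ 2))
  refine h1.congr_deriv ?_
  unfold wf2
  push_cast
  ring

theorem wf_eq {Y : ℝ} (hY : 0 < Y) (y : ℝ) : wf Y y = y * (1 - y / Y) ^ 2 := by
  unfold wf
  field_simp
  ring

theorem wf_nonneg {Y y : ℝ} (hY : 0 < Y) (hy : 0 ≤ y) : 0 ≤ wf Y y := by
  rw [wf_eq hY]
  positivity

theorem wf_le {Y y : ℝ} (hY : 0 < Y) (hy : 0 ≤ y) (hyY : y ≤ Y) : wf Y y ≤ Y := by
  rw [wf_eq hY]
  have h1 : 0 ≤ y / Y := by positivity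
  have h2 : y / Y ≤ 1 := (div_le_one hY).2 hyY
  have h3 : (1 - y / Y) ^ 2 ≤ 1 := by nlinarith
  calc y * (1 - y / Y) ^ 2 ≤ y * 1 := by gcongr
    _ ≤ Y := by linarith

theorem wf_low {τ y : ℝ} (hτ : 0 < τ) (hy : 0 ≤ y) (hyτ : y ≤ τ) : y ≤ 4 * wf (2 * τ) y := by
  rw [wf_eq (by positivity)]
  have h2 : y / (2 * τ) ≤ 1 / 2 := by
    rw [div_le_iff₀ (by positivity)]
    linarith
  have h3 : 1 / 4 ≤ (1 - y / (2 * τ)) ^ 2 := by nlinarith
  nlinarith

theorem wf2_abs {Y y : ℝ} (hY : 0 < Y) (hy : 0 ≤ y) (hyY : y ≤ Y) : |wf2 Y y| ≤ 4 / Y := by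
  unfold wf2
  have h0 : 6 * y / Y ^ 2 = 6 / Y * (y / Y) := by
    field_simp
  have h1 : 0 ≤ y / Y := by positivity
  have h2 : y / Y ≤ 1 := (div_le_one hY).2 hyY
  have h3 : 0 < 1 / Y := by positivity
  rw [h0, abs_le]
  have h4 : -4 / Y = -(4 * (1 / Y)) := by ring
  have h5 : 6 / Y * (y / Y) = 6 * (1 / Y) * (y / Y) := by ring
  have h6 : 4 / Y = 4 * (1 / Y) := by ring
  rw [h4, h5, h6]
  constructor <;> nlinarith [mul_nonneg h3.le h1]

theorem wf_cont (Y : ℝ) : Continuous (wf Y) := continuous_iff_continuousAt.2 fun y => (wf_d Y y).continuousAt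

theorem wf1_cont (Y : ℝ) : Continuous (wf1 Y) :=
  continuous_iff_continuousAt.2 fun y => (wf1_d Y y).continuousAt

theorem wf2_cont (Y : ℝ) : Continuous (wf2 Y) := by
  unfold wf2
  fun_prop

/-- integration by parts in `y` -/
theorem en_parts (h : HS δ V M W) (hU : SpU) (hκ : 0 < κ) {Y : ℝ} (hY : 0 < Y) (x : E3) :
    ∫ y in (0:ℝ)..Y, wf Y y * Udd (1 / 2) κ V M W 0 x y =
      Sk κ V x 0 + ∫ y in (0:ℝ)..Y, wf2 Y y * Sk κ V x y := by
  obtain ⟨-, dy, -, dyy, c0, c1, c2, -⟩ :=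
    hU δ V M W h (1 / 2) κ (by norm_num) (by norm_num) hκ
  have hsub : uIcc 0 Y ⊆ Ioi (-δ) := by
    rw [uIcc_of_le hY.le]
    intro y hy
    exact lt_of_lt_of_le (neg_lt_zero.2 h.pos) hy.1
  have k0 : ContinuousOn (fun y => Sk κ V x y) (uIcc 0 Y) :=
    ((en_conty c0 x).mono hsub).sub continuousOn_const
  have k2 : ContinuousOn (fun y => Udd (1 / 2) κ V M W 0 x y) (uIcc 0 Y) :=
    (en_conty (c2 0) x).mono hsub
  have i1 : IntervalIntegrable (fun y => wf Y y * Udd (1 / 2) κ V M W 0 x y) volume 0 Y :=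
    ((wf_cont Y).continuousOn.mul k2).intervalIntegrable
  have i2 : IntervalIntegrable (fun y => wf2 Y y * Sk κ V x y) volume 0 Y :=
    ((wf2_cont Y).continuousOn.mul k0).intervalIntegrable
  have hd : ∀ y ∈ uIcc 0 Y, HasDerivAt
      (fun y => wf Y y * Ud (1 / 2) κ V M 0 x y - wf1 Y y * Sk κ V x y)
      (wf Y y * Udd (1 / 2) κ V M W 0 x y - wf2 Y y * Sk κ V x y) y := by
    intro y hy
    have hy' : -δ < y := hsub hy
    have hS : HasDerivAt (fun y => Sk κ V x y) (Ud (1 / 2) κ V M 0 x y) y :=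
      (dy x y hy').sub_const _
    have h1 := ((wf_d Y y).mul (dyy x y hy')).sub ((wf1_d Y y).mul hS)
    refine h1.congr_deriv ?_
    ring
  have h1 := intervalIntegral.integral_eq_sub_of_hasDerivAt hd (i1.sub i2)
  rw [intervalIntegral.integral_sub i1 i2] at h1
  have e1 : wf Y Y = 0 := by
    rw [wf_eq hY, div_self hY.ne']
    ring
  have e2 : wf1 Y Y = 0 := by
    unfold wf1
    field_simp
    ring
  have e3 : wf Y 0 = 0 := by simp [wf]
  have e4 : wf1 Y 0 = 1 := by simp [wf1]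
  simp only [e1, e2, e3, e4] at h1
  linarith

end Pool.Agent.TF.D.En
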