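import Pool.Agent.TF.D.Spec

/-!
# Extensions of square integrable functions by dominated kernels
-/

set_option autoImplicit false

namespace Pool.Agent.TF.D

open MeasureTheory Set Filter Topology Pool.Agent.TO Pool.Agent.TB Pool.Agent.TC Pool.Agent.TP
  Pool.Agent.TF
open scoped ENNReal NNReal Real InnerProductSpace SchwartzMap LineDeriv

variable {κ : ℝ → E3 → ℝ} {h : E3 → ℝ} {y0 y C B : ℝ}

theorem h90_cont (hk : DK κ) (hy : 0 < y) : Continuous (κ y) := by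
  have h1 : Continuous (fun x : E3 => ((x, y) : E3 × ℝ)) := by fun_prop
  exact hk.cont.comp_continuous h1 (fun x => hy)

theorem h90_dom (hk : DK κ) (hy0 : 0 < y0) :
    ∃ C, 0 ≤ C ∧ ∀ y, y0 ≤ y → ∀ x, |κ y x| ≤ C * (y * sg y x ^ 4) := by
  obtain ⟨C, hC⟩ := hk.dom y0 hy0
  refine ⟨C, ?_, hC⟩
  have h1 := hC y0 le_rfl 0
  have h2 := sg_pos hy0 (0 : E3)
  have h3 : 0 < y0 * sg y0 (0:E3) ^ 4 := by positivity
  exact nonneg_of_mul_nonneg_left ((abs_nonneg _).trans h1) h3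

theorem h90_sq (hk : DK κ) (hy0 : 0 < y0) (hC : 0 ≤ C)
    (hd : ∀ y, y0 ≤ y → ∀ x, |κ y x| ≤ C * (y * sg y x ^ 4)) (hy : y0 ≤ y) :
    Integrable (fun z => κ y z ^ 2) ∧ ∫ z, κ y z ^ 2 ≤ C ^ 2 * JJ 8 * y0⁻¹ ^ 3 := by
  have hy1 : 0 < y := hy0.trans_le hy
  have hi : Integrable (fun z : E3 => C ^ 2 * y ^ 2 * sg y z ^ 8) :=
    (integrable_sg hy1 (by norm_num)).const_mul _
  have hb : ∀ z, κ y z ^ 2 ≤ C ^ 2 * y ^ 2 * sg y z ^ 8 := by
    intro z
    have h1 := hd y hy z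
    calc κ y z ^ 2 = |κ y z| ^ 2 := (sq_abs _).symm
      _ ≤ (C * (y * sg y z ^ 4)) ^ 2 := pow_le_pow_left₀ (abs_nonneg _) h1 2
      _ = _ := by ring
  have hc := h90_cont hk hy1
  have hint : Integrable (fun z => κ y z ^ 2) := by
    refine hi.mono' (hc.pow 2).aestronglyMeasurable (Eventually.of_forall fun z => ?_)
    rw [Real.norm_eq_abs, abs_of_nonneg (sq_nonneg _)]
    exact hb z
  refine ⟨hint, ?_⟩
  calc ∫ z, κ y z ^ 2 ≤ ∫ z : E3, C ^ 2 * y ^ 2 * sg y z ^ 8 := integral_mono hint hi hb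
    _ = C ^ 2 * JJ 8 * y⁻¹ ^ 3 := by
        rw [integral_const_mul, integral_sg hy1]
        field_simp
    _ ≤ C ^ 2 * JJ 8 * y0⁻¹ ^ 3 := by
        have h8 := JJ_pos (n := 8) (by norm_num)
        gcongr

theorem h90_pe (x : E3) (y : ℝ) : pe κ h x y = ∫ w, κ y (x - w) * h w := by
  unfold pe cvf
  rw [← integral_sub_left_eq_self (fun w => κ y (x - w) * h w) volume x]
  simp only [sub_sub_cancel, smul_eq_mul]

theorem h90_int (hi : Integrable (fun z => κ y z ^ 2)) (hc : Continuous (κ y))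
    (hh : MemLp h 2 (volume : Measure E3)) (x : E3) :
    Integrable (fun w => κ y (x - w) * h w) := by
  have hcc : Continuous (fun w => κ y (x - w)) := hc.comp (continuous_const.sub continuous_id)
  have h1 : MemLp (fun w => κ y (x - w)) 2 (volume : Measure E3) := by
    rw [memLp_two_iff_integrable_sq hcc.aestronglyMeasurable]
    exact hi.comp_sub_left x
  exact h1.integrable_mul hh

/-- the Cauchy-Schwarz inequality in additive form -/
theorem h90_set (hi : Integrable (fun z => κ y z ^ 2)) (hB : ∫ z, κ y z ^ 2 ≤ B)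
    (hh : MemLp h 2 (volume : Measure E3)) (x : E3) (S : Set E3) {t : ℝ} (ht : 0 < t) :
    |∫ w in S, κ y (x - w) * h w| ≤ (t * B + t⁻¹ * ∫ w in S, h w ^ 2) / 2 := by
  have hk2 : Integrable (fun w => κ y (x - w) ^ 2) := hi.comp_sub_left x
  have hh2 : Integrable (fun w => h w ^ 2) := hh.integrable_sq
  have hb : Integrable (fun w => (t * κ y (x - w) ^ 2 + t⁻¹ * h w ^ 2) / 2)
      (volume.restrict S) :=
    (((hk2.const_mul t).add (hh2.const_mul t⁻¹)).div_const 2).restrict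
  rw [← Real.norm_eq_abs]
  calc ‖∫ w in S, κ y (x - w) * h w‖
      ≤ ∫ w in S, (t * κ y (x - w) ^ 2 + t⁻¹ * h w ^ 2) / 2 := by
        refine norm_integral_le_of_norm_le hb (Eventually.of_forall fun w => ?_)
        rw [norm_mul, Real.norm_eq_abs, Real.norm_eq_abs]
        have e1 : |κ y (x - w)| ^ 2 = κ y (x - w) ^ 2 := sq_abs _
        have e2 : |h w| ^ 2 = h w ^ 2 := sq_abs _
        rw [← e1, ← e2]
        have h3 : 0 ≤ t⁻¹ * (t * |κ y (x - w)| - |h w|) ^ 2 := by positivity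
        have h4 : t⁻¹ * (t * |κ y (x - w)| - |h w|) ^ 2 =
            t * |κ y (x - w)| ^ 2 + t⁻¹ * |h w| ^ 2 - 2 * (|κ y (x - w)| * |h w|) := by
          field_simp
          ring
        linarith
    _ = (t * (∫ w in S, κ y (x - w) ^ 2) + t⁻¹ * ∫ w in S, h w ^ 2) / 2 := by
        rw [integral_div, integral_add (hk2.const_mul t).restrict (hh2.const_mul t⁻¹).restrict,
          integral_const_mul, integral_const_mul]
    _ ≤ (t * B + t⁻¹ * ∫ w in S, h w ^ 2) / 2 := by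
        have h5 : ∫ w in S, κ y (x - w) ^ 2 ≤ B := by
          refine le_trans (setIntegral_le_integral hk2
            (Eventually.of_forall fun w => sq_nonneg _)) ?_
          rw [integral_sub_left_eq_self (fun z => κ y z ^ 2) volume x]
          exact hB
        gcongr

theorem h90_bd (hi : Integrable (fun z => κ y z ^ 2)) (hB : ∫ z, κ y z ^ 2 ≤ B)
    (hh : MemLp h 2 (volume : Measure E3)) (x : E3) :
    |pe κ h x y| ≤ (1 * B + 1⁻¹ * ∫ w, h w ^ 2) / 2 := by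
  have := h90_set hi hB hh x univ one_pos
  rw [h90_pe]
  simpa using this

theorem h90_sg_le {x x1 w : E3} {y1 : ℝ} (hy1 : 0 < y1) (hy : y1 / 2 ≤ y)
    (hx : ‖x - x1‖ ≤ y1 / 2) : sg y (x - w) ≤ 3 * sg y1 (x1 - w) := by
  have hy' : 0 < y := by linarith
  unfold sg
  rw [inv_le_comm₀ (by positivity) (by positivity), mul_inv, inv_inv]
  rw [show (3:ℝ)⁻¹ * √(y1 ^ 2 + ‖x1 - w‖ ^ 2) = √(y1 ^ 2 + ‖x1 - w‖ ^ 2) / 3 by ring]
  apply Real.le_sqrt_of_sq_le
  rw [div_pow, Real.sq_sqrt (by positivity)]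
  have h1 : ‖x1 - w‖ ≤ ‖x - x1‖ + ‖x - w‖ := by
    have : x1 - w = -(x - x1) + (x - w) := by abel
    rw [this]
    refine (norm_add_le _ _).trans ?_
    rw [norm_neg]
  have h2 : ‖x1 - w‖ ^ 2 ≤ (y1 / 2 + ‖x - w‖) ^ 2 :=
    pow_le_pow_left₀ (norm_nonneg _) (by linarith) 2
  have h3 : (y1 / 2) ^ 2 ≤ y ^ 2 := pow_le_pow_left₀ (by positivity) hy 2
  nlinarith [sq_nonneg (y1 / 2 - ‖x - w‖), sq_nonneg ‖x - w‖]

theorem h90_cts (hk : DK κ) (hh : MemLp h 2 (volume : Measure E3)) :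
    ContinuousOn (fun p : E3 × ℝ => pe κ h p.1 p.2) {p | 0 < p.2} := by
  intro p hp
  apply ContinuousAt.continuousWithinAt
  obtain ⟨x1, y1⟩ := p
  have hy1 : 0 < y1 := hp
  have hfun : (fun p : E3 × ℝ => pe κ h p.1 p.2) =
      fun p : E3 × ℝ => ∫ w, κ p.2 (p.1 - w) * h w := by
    ext p
    exact h90_pe p.1 p.2
  rw [hfun]
  obtain ⟨C, hC, hd⟩ := h90_dom hk (half_pos hy1)
  have hopen : IsOpen {p : E3 × ℝ | 0 < p.2} := isOpen_lt continuous_const continuous_snd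
  have hev : ∀ᶠ p : E3 × ℝ in 𝓝 (x1, y1), y1 / 2 ≤ p.2 ∧ p.2 ≤ 2 * y1 ∧ ‖p.1 - x1‖ ≤ y1 / 2 := by
    have e1 : ∀ᶠ p : E3 × ℝ in 𝓝 (x1, y1), y1 / 2 < p.2 :=
      (isOpen_lt continuous_const continuous_snd).mem_nhds (by simp; linarith)
    have e2 : ∀ᶠ p : E3 × ℝ in 𝓝 (x1, y1), p.2 < 2 * y1 :=
      (isOpen_lt continuous_snd continuous_const).mem_nhds (by simp; linarith)
    have e3 : ∀ᶠ p : E3 × ℝ in 𝓝 (x1, y1), ‖p.1 - x1‖ < y1 / 2 :=
      (isOpen_lt (by fun_prop) continuous_const).mem_nhds (by simp; linarith)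
    filter_upwards [e1, e2, e3] with p h1 h2 h3
    exact ⟨h1.le, h2.le, h3.le⟩
  have hsg : MemLp (fun w : E3 => sg y1 (x1 - w) ^ 4) 2 (volume : Measure E3) := by
    have hc : Continuous (fun w : E3 => sg y1 (x1 - w) ^ 4) :=
      ((continuous_sg hy1).comp (continuous_const.sub continuous_id)).pow 4
    rw [memLp_two_iff_integrable_sq hc.aestronglyMeasurable]
    have := (integrable_sg hy1 (n := 8) (by norm_num)).comp_sub_left x1
    refine this.congr (Eventually.of_forall fun w => ?_)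
    simp only
    ring
  have hint : Integrable (fun w => sg y1 (x1 - w) ^ 4 * h w) := hsg.integrable_mul hh
  refine continuousAt_of_dominated (bound := fun w => C * (2 * y1) * 3 ^ 4 *
    ‖sg y1 (x1 - w) ^ 4 * h w‖) ?_ ?_ (hint.norm.const_mul _) ?_
  · filter_upwards [hev] with p hp
    have hp2 : 0 < p.2 := by linarith [hp.1]
    exact ((h90_cont hk hp2).comp (continuous_const.sub continuous_id)).aestronglyMeasurable.mul
      hh.1
  · filter_upwards [hev] with p hp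
    refine Eventually.of_forall fun w => ?_
    have hp2 : 0 < p.2 := by linarith [hp.1]
    have hs := sg_pos hy1 (x1 - w)
    have hs' := sg_pos hp2 (p.1 - w)
    rw [norm_mul, norm_mul, ← mul_assoc]
    apply mul_le_mul_of_nonneg_right _ (norm_nonneg _)
    rw [Real.norm_eq_abs, Real.norm_eq_abs, abs_of_pos (pow_pos hs 4)]
    calc |κ p.2 (p.1 - w)| ≤ C * (p.2 * sg p.2 (p.1 - w) ^ 4) := hd p.2 hp.1 _
      _ ≤ C * ((2 * y1) * (3 * sg y1 (x1 - w)) ^ 4) := by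
          have h5 := h90_sg_le (w := w) hy1 hp.1 hp.2.2
          have h6 := hp.2.1
          gcongr
      _ = _ := by ring
  · refine Eventually.of_forall fun w => ?_
    have h1 : ContinuousAt (fun p : E3 × ℝ => κ p.2 p.1) (x1 - w, y1) :=
      hk.cont.continuousAt (hopen.mem_nhds hy1)
    have h2 : ContinuousAt (fun p : E3 × ℝ => ((p.1 - w, p.2) : E3 × ℝ)) (x1, y1) := by
      fun_prop
    have h3 : ContinuousAt ((fun p : E3 × ℝ => κ p.2 p.1) ∘
        fun p : E3 × ℝ => ((p.1 - w, p.2) : E3 × ℝ)) (x1, y1) := ContinuousAt.comp h1 h2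
    have h4 : ContinuousAt (fun p : E3 × ℝ => κ p.2 (p.1 - w)) (x1, y1) := h3
    exact h4.mul continuousAt_const

theorem h90_tail (hh : MemLp h 2 (volume : Measure E3)) {ε : ℝ} (hε : 0 < ε) :
    ∃ n : ℕ, ∫ w in (Metric.closedBall (0:E3) n)ᶜ, h w ^ 2 ≤ ε := by
  have h1 := tendsto_setIntegral_of_antitone (μ := (volume : Measure E3))
    (s := fun n : ℕ => (Metric.closedBall (0:E3) n)ᶜ) (f := fun w => h w ^ 2)
    (fun n => Metric.isClosed_closedBall.measurableSet.compl)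
    (fun m n hmn => compl_subset_compl.2 (Metric.closedBall_subset_closedBall (by
      exact_mod_cast hmn))) ⟨0, hh.integrable_sq.integrableOn⟩
  have h2 : (⋂ n : ℕ, (Metric.closedBall (0:E3) n)ᶜ) = ∅ := by
    rw [eq_empty_iff_forall_notMem]
    intro x hx
    obtain ⟨n, hn⟩ := exists_nat_ge ‖x‖
    have := mem_iInter.1 hx n
    apply this
    simpa using hn
  rw [h2] at h1
  simp only [Measure.restrict_empty, integral_zero_measure] at h1
  obtain ⟨n, hn⟩ := (h1.eventually (ge_mem_nhds hε)).exists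
  exact ⟨n, hn⟩

theorem h90_sg3 {x : E3} {r : ℝ} (hy : 0 < y) (hr : 0 < r) (h1 : r ≤ ‖x‖ ∨ r ≤ y) :
    y * sg y x ^ 4 ≤ r⁻¹ ^ 3 := by
  have hs := sg_pos hy x
  have h2 := rho_sg hy x
  have h3 := nrm_sg hy x
  have h4 : sg y x ≤ r⁻¹ := by
    rw [← one_div, le_div_iff₀ hr, mul_comm]
    rcases h1 with h1 | h1
    · exact (mul_le_mul_of_nonneg_right h1 hs.le).trans h3
    · exact (mul_le_mul_of_nonneg_right h1 hs.le).trans h2
  calc y * sg y x ^ 4 = (y * sg y x) * sg y x ^ 3 := by ring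
    _ ≤ 1 * r⁻¹ ^ 3 := mul_le_mul h2 (pow_le_pow_left₀ hs.le h4 3) (by positivity) (by norm_num)
    _ = _ := one_mul _

theorem h90_ball (hy0 : 0 < y0) (hC : 0 ≤ C)
    (hd : ∀ y, y0 ≤ y → ∀ x, |κ y x| ≤ C * (y * sg y x ^ 4)) (hy : y0 ≤ y)
    (hh : MemLp h 2 (volume : Measure E3)) {x : E3} {n : ℕ} {r : ℝ} (hr : 0 < r)
    (h1 : r + n ≤ ‖x‖ ∨ r + n ≤ y) :
    |∫ w in Metric.closedBall (0:E3) n, κ y (x - w) * h w| ≤
      C * r⁻¹ ^ 3 * ∫ w in Metric.closedBall (0:E3) n, |h w| := by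
  have hy1 : 0 < y := hy0.trans_le hy
  have hloc : IntegrableOn h (Metric.closedBall (0:E3) n) :=
    (hh.locallyIntegrable (by norm_num)).integrableOn_isCompact (isCompact_closedBall _ _)
  rw [← Real.norm_eq_abs, ← integral_const_mul]
  refine norm_integral_le_of_norm_le (hloc.abs.const_mul _) ?_
  refine (ae_restrict_iff' Metric.isClosed_closedBall.measurableSet).2
    (Eventually.of_forall fun w hw => ?_)
  have hw' : ‖w‖ ≤ n := by simpa using hw
  rw [norm_mul, Real.norm_eq_abs, Real.norm_eq_abs]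
  apply mul_le_mul_of_nonneg_right _ (abs_nonneg _)
  refine (hd y hy _).trans ?_
  apply mul_le_mul_of_nonneg_left _ hC
  apply h90_sg3 hy1 hr
  rcases h1 with h1 | h1
  · left
    have : ‖x‖ ≤ ‖x - w‖ + ‖w‖ := by
      have e : x = (x - w) + w := by abel
      calc ‖x‖ = ‖(x - w) + w‖ := by rw [← e]
        _ ≤ _ := norm_add_le _ _
    linarith
  · right
    have : (0:ℝ) ≤ n := Nat.cast_nonneg n
    linarith

theorem h90_dec (hk : DK κ) (hh : MemLp h 2 (volume : Measure E3)) (hy0 : 0 < y0) {ε : ℝ}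
    (hε : 0 < ε) : ∃ R, ∀ x y, y0 ≤ y → (R ≤ ‖x‖ ∨ R ≤ y) → |pe κ h x y| ≤ ε := by
  obtain ⟨C, hC, hd⟩ := h90_dom hk hy0
  set B := C ^ 2 * JJ 8 * y0⁻¹ ^ 3 with hBdef
  have hB0 : 0 ≤ B := by
    have h8 := JJ_pos (n := 8) (by norm_num)
    positivity
  set t := ε / (2 * (B + 1)) with ht
  have htp : 0 < t := by positivity
  obtain ⟨n, hn⟩ := h90_tail hh (ε := t * (ε / 2)) (by positivity)
  set A := ∫ w in Metric.closedBall (0:E3) n, |h w| with hA
  have hA0 : 0 ≤ A := setIntegral_nonneg Metric.isClosed_closedBall.measurableSet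
    fun _ _ => abs_nonneg _
  have hlim : Tendsto (fun r : ℝ => C * r⁻¹ ^ 3 * A) atTop (𝓝 (C * 0 ^ 3 * A)) :=
    ((tendsto_inv_atTop_zero.pow 3).const_mul C).mul_const A
  have hz : C * 0 ^ 3 * A = 0 := by ring
  rw [hz] at hlim
  obtain ⟨r, hr1, hr2⟩ := ((hlim.eventually (ge_mem_nhds (half_pos hε))).and
    (eventually_gt_atTop 0)).exists
  refine ⟨r + n, fun x y hy hxy => ?_⟩
  have hy1 : 0 < y := hy0.trans_le hy
  obtain ⟨hi, hb⟩ := h90_sq hk hy0 hC hd hy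
  have hint := h90_int hi (h90_cont hk hy1) hh x
  rw [h90_pe, ← integral_add_compl (s := Metric.closedBall (0:E3) n)
    Metric.isClosed_closedBall.measurableSet hint]
  refine (abs_add_le _ _).trans ?_
  have h1 := h90_ball hy0 hC hd hy hh hr2 hxy
  have h2 := h90_set hi hb hh x (Metric.closedBall (0:E3) n)ᶜ htp
  have h3 : t * B ≤ ε / 2 := by
    rw [ht, div_mul_eq_mul_div, div_le_iff₀ (by positivity)]
    nlinarith
  have h4 : t⁻¹ * ∫ w in (Metric.closedBall (0:E3) n)ᶜ, h w ^ 2 ≤ ε / 2 := by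
    rw [inv_mul_le_iff₀ htp]
    exact hn
  have h5 : C * r⁻¹ ^ 3 * A ≤ ε / 2 := hr1
  linarith

theorem h90_l2 (hk : DK κ) (hh : MemLp h 2 (volume : Measure E3)) (hy0 : 0 < y0) :
    ∃ C, ∀ y, y0 ≤ y → Integrable (fun x => pe κ h x y ^ 2) ∧ ∫ x, pe κ h x y ^ 2 ≤ C := by
  obtain ⟨C, hC, hd⟩ := h90_dom hk hy0
  obtain ⟨g, hg, hhg⟩ := hh.1
  have hg2 : MemLp g 2 (volume : Measure E3) := hh.ae_eq hhg
  have hlg : ∫⁻ x, ‖g x‖ₑ ^ 2 < ∞ := by
    have := hg2.integrable_sq.2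
    rw [hasFiniteIntegral_iff_enorm] at this
    simpa only [enorm_pow] using this
  refine ⟨(ENNReal.ofReal ((C * JJ 4) ^ 2) * ∫⁻ x, ‖g x‖ₑ ^ 2).toReal, fun y hy => ?_⟩
  have hy1 : 0 < y := hy0.trans_le hy
  have hK : KK (κ y) (C * JJ 4) := by
    have h1 := kk_of_le (κ := κ y) (C := C * y) hy1 le_rfl (h90_cont hk hy1) (by positivity)
      (fun x => by rw [mul_assoc]; exact hd y hy x)
    have e : C * y * (y ^ 3 * y⁻¹ ^ 4 * JJ 4) = C * JJ 4 := by
      field_simp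
    rwa [e] at h1
  have hL := lintegral_sq_cvf_le hK hg
  have hfin : ENNReal.ofReal ((C * JJ 4) ^ 2) * ∫⁻ x, ‖g x‖ₑ ^ 2 < ∞ :=
    ENNReal.mul_lt_top ENNReal.ofReal_lt_top hlg
  have hm := stronglyMeasurable_cvf hK hg
  have heq : (fun x => pe κ h x y ^ 2) = fun x => cvf (κ y) g x ^ 2 := by
    ext x
    unfold pe
    rw [cvf_congr hhg x]
  rw [heq]
  have e1 : ∀ x, ENNReal.ofReal (cvf (κ y) g x ^ 2) = ‖cvf (κ y) g x‖ₑ ^ 2 := by
    intro x
    rw [← enorm_pow, ← ofReal_norm, Real.norm_of_nonneg (sq_nonneg _)]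
  constructor
  · refine ⟨(hm.pow 2).aestronglyMeasurable, ?_⟩
    rw [hasFiniteIntegral_iff_enorm]
    simp only [enorm_pow]
    exact hL.trans_lt hfin
  · rw [integral_eq_lintegral_of_nonneg_ae (Eventually.of_forall fun x => sq_nonneg _)
      (hm.pow 2).aestronglyMeasurable]
    simp only [e1]
    exact ENNReal.toReal_mono hfin.ne hL

/-- D1b: extensions of square integrable functions -/
theorem ext_ok : SpExt := by
  intro κ hk h hh
  refine ⟨h90_cts hk hh, ?_, fun y0 hy0 ε hε => h90_dec hk hh hy0 hε,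
    fun y0 hy0 => h90_l2 hk hh hy0⟩
  intro y0 hy0
  obtain ⟨C, hC, hd⟩ := h90_dom hk hy0
  refine ⟨(1 * (C ^ 2 * JJ 8 * y0⁻¹ ^ 3) + 1⁻¹ * ∫ w, h w ^ 2) / 2, fun x y hy => ?_⟩
  obtain ⟨hi, hb⟩ := h90_sq hk hy0 hC hd hy
  exact h90_bd hi hb hh x

end Pool.Agent.TF.D
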