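import Pool.Agent.TF.D.Spec

/-!
# Project TF, block D, row D7: Fefferman's duality inequality (helper26)
-/

set_option autoImplicit false

namespace Pool.Agent.TF.D

open MeasureTheory Set Filter Topology Pool.Agent.TO Pool.Agent.TB Pool.Agent.TC Pool.Agent.TP
  Pool.Agent.TF
open scoped ENNReal NNReal Real InnerProductSpace SchwartzMap LineDeriv

/-- the product measure on `0 < y < τ` -/
noncomputable def ff_nu (τ : ℝ) : Measure (E3 × ℝ) :=
  (volume : Measure E3).prod (volume.restrict (Ioo 0 τ))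

theorem ff_ae (τ : ℝ) : ∀ᵐ p ∂(ff_nu τ), p ∈ {p : E3 × ℝ | 0 < p.2} := by
  have h1 : ∀ᵐ y ∂(volume.restrict (Ioo 0 τ)), y ∈ Ioo 0 τ := ae_restrict_mem measurableSet_Ioo
  have h2 := (Measure.quasiMeasurePreserving_snd (μ := (volume : Measure E3))
    (ν := volume.restrict (Ioo 0 τ))).ae h1
  filter_upwards [h2] with p hp
  exact hp.1

theorem ff_aem {β : Type*} [TopologicalSpace β] [MeasurableSpace β] [BorelSpace β]
    [TopologicalSpace.PseudoMetrizableSpace β] {τ : ℝ}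
    {F : E3 × ℝ → β} (hF : ContinuousOn F {p : E3 × ℝ | 0 < p.2}) : AEMeasurable F (ff_nu τ) := by
  have hs : MeasurableSet {p : E3 × ℝ | 0 < p.2} := measurableSet_lt measurable_const measurable_snd
  have h1 : (ff_nu τ).restrict {p : E3 × ℝ | 0 < p.2} = ff_nu τ :=
    Measure.restrict_eq_self_of_ae_mem (ff_ae τ)
  rw [← h1]
  exact hF.aemeasurable hs

theorem ff_iter {τ : ℝ} {H : E3 × ℝ → ℝ≥0∞} (hH : AEMeasurable H (ff_nu τ)) :
    ∫⁻ y in Ioo 0 τ, ∫⁻ x, H (x, y) = ∫⁻ p, H p ∂(ff_nu τ) :=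
  (lintegral_prod_symm H hH).symm

/-- the components of the Poisson extension -/
theorem ff_comp {y : ℝ} (hy : 0 < y) (f : V3) (x : E3) (i : Fin 3) :
    cvf (pk y) f x i = pe pk (fun z => f z i) x y := by
  have h := integrable_cvf (kk_pk hy) (Lp.stronglyMeasurable f) (lintegral_sq_lt f) x
  exact ((EuclideanSpace.proj (𝕜 := ℝ) i).integral_comp_comm h).symm

theorem ff_memLp (f : V3) (i : Fin 3) : MemLp (fun z => f z i) 2 (volume : Measure E3) :=
  (EuclideanSpace.proj (𝕜 := ℝ) i).comp_memLp' (Lp.memLp f)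

/-- the Poisson extension of an `L²` field is continuous on the half space -/
theorem ff_contG (hDK : SpDK) (hExt : SpExt) (f : V3) :
    ContinuousOn (fun p : E3 × ℝ => cvf (pk p.2) f p.1) {p | 0 < p.2} := by
  have h1 : ContinuousOn (fun p : E3 × ℝ => fun i : Fin 3 => pe pk (fun z => f z i) p.1 p.2)
      {p | 0 < p.2} :=
    continuousOn_pi.2 fun i => (hExt pk hDK.1 _ (ff_memLp f i)).1
  have h2 : ContinuousOn (fun p : E3 × ℝ => (WithLp.toLp 2
      (fun i : Fin 3 => pe pk (fun z => f z i) p.1 p.2) : E3)) {p | 0 < p.2} :=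
    (PiLp.continuous_toLp 2 _).comp_continuousOn h1
  refine h2.congr fun p hp => ?_
  ext i
  exact ff_comp hp f p.1 i

/-- the energy of the extension -/
theorem ff_l2 {y : ℝ} (hy : 0 < y) (f : V3) :
    ∫⁻ x, ENNReal.ofReal (‖cvf (pk y) f x‖ ^ 2) ≤ ENNReal.ofReal (‖f‖ ^ 2) := by
  have h1 := lintegral_sq_cvf_le (kk_pk hy) (Lp.stronglyMeasurable f)
  rw [lintegral_sq_V3, enorm_sq_ofReal, one_pow, ENNReal.ofReal_one, one_mul] at h1
  refine le_trans (le_of_eq (lintegral_congr fun x => ?_)) h1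
  rw [← ofReal_norm, ENNReal.ofReal_pow (norm_nonneg _)]

theorem ff_l2' {τ : ℝ} (hτ : 0 < τ) (f : V3) :
    ∫⁻ y in Ioo 0 τ, ∫⁻ x, ENNReal.ofReal (y * ‖cvf (pk y) f x‖ ^ 2) ≤
      ENNReal.ofReal (τ ^ 2 * ‖f‖ ^ 2) := by
  calc ∫⁻ y in Ioo 0 τ, ∫⁻ x, ENNReal.ofReal (y * ‖cvf (pk y) f x‖ ^ 2)
      ≤ ∫⁻ y in Ioo 0 τ, ENNReal.ofReal (τ * ‖f‖ ^ 2) := by
        apply setLIntegral_mono measurable_const
        intro y hy
        calc ∫⁻ x, ENNReal.ofReal (y * ‖cvf (pk y) f x‖ ^ 2)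
            = ENNReal.ofReal y * ∫⁻ x, ENNReal.ofReal (‖cvf (pk y) f x‖ ^ 2) := by
              rw [← lintegral_const_mul' _ _ ENNReal.ofReal_ne_top]
              refine lintegral_congr fun x => ?_
              rw [ENNReal.ofReal_mul hy.1.le]
          _ ≤ ENNReal.ofReal τ * ENNReal.ofReal (‖f‖ ^ 2) := by
              gcongr
              · exact hy.2.le
              · exact ff_l2 hy.1 f
          _ = _ := (ENNReal.ofReal_mul hτ.le).symm
    _ = ENNReal.ofReal (τ * ‖f‖ ^ 2) * ENNReal.ofReal τ := by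
        rw [setLIntegral_const, Real.volume_Ioo, sub_zero]
    _ = _ := by
        rw [← ENNReal.ofReal_mul (by positivity)]
        congr 1
        ring

/-- joint measurability of the Poisson extension of a continuous function -/
theorem ff_measP {g : E3 → ℝ} (hg : Continuous g) :
    Measurable fun p : E3 × ℝ => cvf (pk p.2) g p.1 := by
  have hpk : Measurable fun q : (E3 × ℝ) × E3 => pk q.1.2 q.2 := by
    unfold pk sg
    have h1 : Measurable fun q : (E3 × ℝ) × E3 => q.1.2 := measurable_snd.comp measurable_fst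
    have h2 : Measurable fun q : (E3 × ℝ) × E3 => ‖q.2‖ := measurable_snd.norm
    exact (h1.mul ((((h1.pow_const 2).add (h2.pow_const 2)).sqrt.inv).pow_const 4)).const_mul _
  have h3 : StronglyMeasurable fun q : (E3 × ℝ) × E3 => pk q.1.2 q.2 • g (q.1.1 - q.2) := by
    refine hpk.stronglyMeasurable.smul ?_
    exact hg.stronglyMeasurable.comp_measurable
      ((measurable_fst.comp measurable_fst).sub measurable_snd)
  exact (h3.integral_prod_right' (ν := (volume : Measure E3))).measurable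

/-- the pointwise inequality -/
theorem ff_pt {y G M m H u v k l : ℝ} (hy : 0 ≤ y) (hl : 0 < l) (hu : 0 < u) (hM : M ^ 2 ≤ m)
    (hG : G ^ 2 ≤ H) (huv : u ≤ v + k) :
    y * |G * M| ≤ (2 * l)⁻¹ * (y * (m / u)) + l / 2 * (y * H * v) + l * k / 2 * (y * H) := by
  have h0 : 0 ≤ H := (sq_nonneg G).trans hG
  have h1 : |G * M| ≤ (2 * l)⁻¹ * (M ^ 2 / u) + l / 2 * (G ^ 2 * u) := by
    rw [abs_mul]
    have h2 : 0 ≤ (|M| - l * u * |G|) ^ 2 := sq_nonneg _
    have h3 : (2 * l)⁻¹ * (M ^ 2 / u) + l / 2 * (G ^ 2 * u) - |G| * |M| =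
        (|M| - l * u * |G|) ^ 2 / (2 * l * u) := by
      rw [← sq_abs M, ← sq_abs G]
      field_simp
      ring
    have h4 : 0 ≤ (|M| - l * u * |G|) ^ 2 / (2 * l * u) := by positivity
    linarith
  have h2 : (2 * l)⁻¹ * (M ^ 2 / u) ≤ (2 * l)⁻¹ * (m / u) := by gcongr
  have h3 : l / 2 * (G ^ 2 * u) ≤ l / 2 * (H * (v + k)) := by gcongr
  calc y * |G * M| ≤ y * ((2 * l)⁻¹ * (m / u) + l / 2 * (H * (v + k))) := by
        gcongr
        linarith
    _ = _ := by ring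

theorem ff_sqrt {a b : ℝ} (ha : 0 ≤ a) (hb : 0 ≤ b) : √(a + b) ≤ √a + √b := by
  rw [Real.sqrt_le_left (by positivity)]
  have h1 := Real.sq_sqrt ha
  have h2 := Real.sq_sqrt hb
  nlinarith [mul_nonneg (Real.sqrt_nonneg a) (Real.sqrt_nonneg b)]

/-- the last step: choice of the parameters -/
theorem ff_opt {I a b N : ℝ} (ha : 0 ≤ a) (hN : 0 ≤ N)
    (h : ∀ l : ℝ, 0 < l → ∃ B, ∀ k, 0 < k → I ≤ a / l + b * l * N + B * √k) :
    I ≤ (a + b) * √N := by
  have h1 : ∀ l : ℝ, 0 < l → I ≤ a / l + b * l * N := by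
    intro l hl
    obtain ⟨B, hB⟩ := h l hl
    apply le_of_forall_pos_le_add
    intro ε hε
    have hB1 : 0 < |B| + 1 := by positivity
    have h2 := hB ((ε / (|B| + 1)) ^ 2) (by positivity)
    rw [Real.sqrt_sq (by positivity)] at h2
    have h3 : B * (ε / (|B| + 1)) ≤ ε := by
      have h4 : B ≤ |B| + 1 := by linarith [le_abs_self B]
      calc B * (ε / (|B| + 1)) ≤ (|B| + 1) * (ε / (|B| + 1)) := by gcongr
        _ = ε := by field_simp
    linarith
  rcases hN.eq_or_lt with h0 | hpos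
  · rw [← h0, Real.sqrt_zero, mul_zero]
    apply le_of_forall_pos_le_add
    intro ε hε
    have h2 := h1 ((a + 1) / ε) (by positivity)
    rw [← h0, mul_zero, add_zero] at h2
    have h3 : a / ((a + 1) / ε) ≤ ε := by
      rw [div_div_eq_mul_div, div_le_iff₀ (by positivity)]
      nlinarith
    linarith
  · have hs : 0 < √N := Real.sqrt_pos.2 hpos
    have h2 := h1 (√N)⁻¹ (by positivity)
    have h3 : a / (√N)⁻¹ + b * (√N)⁻¹ * N = (a + b) * √N := by
      have h4 : (√N)⁻¹ * N = √N := by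
        rw [inv_mul_eq_div, Real.div_sqrt]
      rw [div_inv_eq_mul, mul_assoc b, h4]
      ring
    rw [← h3]
    exact h2

section

variable {δ : ℝ} {V : Fin 4 → E3 → ℝ → ℝ} {M W : Fin 4 → Fin 4 → E3 → ℝ → ℝ}

theorem ff_Vn_nonneg (x : E3) (y : ℝ) : 0 ≤ Vn V x y :=
  Finset.sum_nonneg fun b _ => sq_nonneg _

theorem ff_Mn_nonneg (x : E3) (y : ℝ) : 0 ≤ Mn M x y :=
  Finset.sum_nonneg fun a _ => Finset.sum_nonneg fun b _ => sq_nonneg _

theorem ff_sq_le_Mn (a b : Fin 4) (x : E3) (y : ℝ) : M a b x y ^ 2 ≤ Mn M x y := by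
  have h1 : M a b x y ^ 2 ≤ ∑ b, M a b x y ^ 2 :=
    Finset.single_le_sum (f := fun b => M a b x y ^ 2) (fun _ _ => sq_nonneg _) (Finset.mem_univ b)
  exact h1.trans (Finset.single_le_sum (f := fun a => ∑ b, M a b x y ^ 2)
    (fun _ _ => Finset.sum_nonneg fun _ _ => sq_nonneg _) (Finset.mem_univ a))

theorem ff_contV (h : HS δ V M W) :
    ContinuousOn (fun p : E3 × ℝ => Vn V p.1 p.2) {p | -δ < p.2} := by
  unfold Vn
  exact continuousOn_finsetSum _ fun b _ => (h.cV b).pow 2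

theorem ff_contM (h : HS δ V M W) :
    ContinuousOn (fun p : E3 × ℝ => Mn M p.1 p.2) {p | -δ < p.2} := by
  unfold Mn
  exact continuousOn_finsetSum _ fun a _ => continuousOn_finsetSum _ fun b _ => (h.cM a b).pow 2

theorem ff_contV0 (h : HS δ V M W) : Continuous fun x => Vn V x 0 := by
  have h1 := (ff_contV h).comp_continuous (f := fun x : E3 => (x, (0:ℝ))) (by fun_prop)
    (fun x => by simpa using h.pos)
  exact h1

/-- the boundary function `g = |V(·,0)|^{2/3}` -/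
theorem ff_g (h : HS δ V M W) : Continuous (fun x => Vn V x 0 ^ (1 / 3 : ℝ)) ∧
    (∀ x, 0 ≤ Vn V x 0 ^ (1 / 3 : ℝ)) ∧ (∃ B, ∀ x, Vn V x 0 ^ (1 / 3 : ℝ) ≤ B) ∧
    (∀ x, (Vn V x 0 ^ (1 / 3 : ℝ)) ^ (3 / 2 : ℝ) = √(Vn V x 0)) ∧
    Integrable (fun x => (Vn V x 0 ^ (1 / 3 : ℝ)) ^ (3 / 2 : ℝ)) := by
  have h4 : ∀ x, (Vn V x 0 ^ (1 / 3 : ℝ)) ^ (3 / 2 : ℝ) = √(Vn V x 0) := by
    intro x
    rw [← Real.rpow_mul (ff_Vn_nonneg x 0), Real.sqrt_eq_rpow]
    norm_num
  refine ⟨(ff_contV0 h).rpow_const fun x => Or.inr (by norm_num),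
    fun x => Real.rpow_nonneg (ff_Vn_nonneg x 0) _, ?_, h4, ?_⟩
  · obtain ⟨C, hC⟩ := h.bd
    refine ⟨(4 * C ^ 2) ^ (1 / 3 : ℝ), fun x => ?_⟩
    apply Real.rpow_le_rpow (ff_Vn_nonneg x 0) _ (by norm_num)
    have h1 : ∀ b, V b x 0 ^ 2 ≤ C ^ 2 := by
      intro b
      have h2 := (hC 0 b x 0 le_rfl).1
      rw [← sq_abs]
      exact pow_le_pow_left₀ (abs_nonneg _) h2 2
    calc Vn V x 0 ≤ ∑ b : Fin 4, C ^ 2 := Finset.sum_le_sum fun b _ => h1 b
      _ = 4 * C ^ 2 := by simp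
  · simp only [h4]
    refine Integrable.mono' (g := fun x => ∑ b, |V b x 0|) ?_ ?_ (Eventually.of_forall fun x => ?_)
    · exact integrable_finsetSum _ fun b _ => (h.l1 b).abs
    · exact (ff_contV0 h).sqrt.aestronglyMeasurable
    · rw [Real.norm_eq_abs, abs_of_nonneg (Real.sqrt_nonneg _)]
      rw [Real.sqrt_le_left (Finset.sum_nonneg fun b _ => abs_nonneg _)]
      unfold Vn
      have h5 := Finset.sum_sq_le_sq_sum_of_nonneg (s := Finset.univ) (f := fun b : Fin 4 => |V b x 0|)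
        (fun b _ => abs_nonneg _)
      simpa only [sq_abs] using h5

theorem ff_Kn_nonneg : 0 ≤ Kn V := integral_nonneg fun _ => Real.sqrt_nonneg _

/-- the absolute value of the iterated integral -/
theorem ff_abs {τ : ℝ} (hτ : 0 < τ) (F : E3 → ℝ → ℝ) :
    ENNReal.ofReal |∫ y in (0:ℝ)..τ, y * ∫ x, F x y| ≤
      ∫⁻ y in Ioo 0 τ, ∫⁻ x, ENNReal.ofReal (y * |F x y|) := by
  rw [intervalIntegral.integral_of_le hτ.le, integral_Ioc_eq_integral_Ioo, ← Real.norm_eq_abs,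
    ofReal_norm]
  refine (enorm_integral_le_lintegral_enorm _).trans ?_
  apply setLIntegral_mono' measurableSet_Ioo
  intro y hy
  rw [enorm_mul]
  refine (mul_le_mul_right (enorm_integral_le_lintegral_enorm _) _).trans (le_of_eq ?_)
  rw [← lintegral_const_mul' _ _ enorm_ne_top]
  refine lintegral_congr fun x => ?_
  rw [← ofReal_norm, ← ofReal_norm, Real.norm_eq_abs, Real.norm_eq_abs, abs_of_pos hy.1,
    ← ENNReal.ofReal_mul hy.1.le]

end

theorem fef_ok : SpDK → SpExt → SpCar → SpMu → SpSub → SpEn → SpFef := by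
  intro hDK hExt hCar hMu hSub hEn
  obtain ⟨C1, hC1, hCar⟩ := hCar
  obtain ⟨C2, hC2, hEn⟩ := hEn
  refine ⟨C2 / 2 + 4 * C1, by positivity, ?_⟩
  intro δ V M W h f N τ hN hτ hBox i a b
  have hK : 0 ≤ Kn V := ff_Kn_nonneg
  obtain ⟨hg1, hg2, hg3, hg4, hg5⟩ := ff_g h
  obtain ⟨hm1, hm2, hm3⟩ := hMu f N τ hN hτ hBox
  have hsub : {p : E3 × ℝ | 0 < p.2} ⊆ {p | -δ < p.2} := fun p hp => by
    have := h.pos
    have hp' : 0 < p.2 := hp
    show -δ < p.2
    linarith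
  have cV := (ff_contV h).mono hsub
  have cM := (ff_contM h).mono hsub
  have cG := ff_contG hDK hExt f
  have c2 : ContinuousOn (fun p : E3 × ℝ => p.2) {p | 0 < p.2} := continuousOn_snd
  -- the three functions
  obtain ⟨F3, hF3⟩ : ∃ F3 : E3 × ℝ → ℝ≥0∞, F3 = fun p =>
    ENNReal.ofReal (p.2 * ‖cvf (pk p.2) f p.1‖ ^ 2) := ⟨_, rfl⟩
  obtain ⟨F2, hF2⟩ : ∃ F2 : E3 × ℝ → ℝ≥0∞, F2 = fun p =>
    F3 p * ENNReal.ofReal (√(Vn V p.1 p.2)) := ⟨_, rfl⟩
  have m3 : AEMeasurable F3 (ff_nu τ) := by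
    rw [hF3]
    exact (ff_aem (c2.mul (cG.norm.pow 2))).ennreal_ofReal
  have m2 : AEMeasurable F2 (ff_nu τ) := by
    rw [hF2]
    exact m3.mul (ff_aem cV.sqrt).ennreal_ofReal
  have b3 : ∫⁻ p, F3 p ∂(ff_nu τ) ≤ ENNReal.ofReal (τ ^ 2 * ‖f‖ ^ 2) := by
    rw [← ff_iter m3, hF3]
    exact ff_l2' hτ f
  have b2 : ∫⁻ p, F2 p ∂(ff_nu τ) ≤ ENNReal.ofReal (C1 * (8 * N) * Kn V) := by
    have hmeas : Measurable fun p : E3 × ℝ => ENNReal.ofReal
        ((cvf (pk p.2) (fun z => Vn V z 0 ^ (1 / 3 : ℝ)) p.1) ^ (3 / 2 : ℝ)) :=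
      ((ff_measP hg1).pow_const _).ennreal_ofReal
    calc ∫⁻ p, F2 p ∂(ff_nu τ) = ∫⁻ y in Ioo 0 τ, ∫⁻ x, F2 (x, y) := (ff_iter m2).symm
      _ ≤ ∫⁻ y in Ioo 0 τ, ∫⁻ x, ENNReal.ofReal (y * ‖cvf (pk y) f x‖ ^ 2) *
          ENNReal.ofReal ((cvf (pk y) (fun z => Vn V z 0 ^ (1 / 3 : ℝ)) x) ^ (3 / 2 : ℝ)) := by
          apply setLIntegral_mono' measurableSet_Ioo
          intro y hy
          apply lintegral_mono
          intro x
          simp only [hF2, hF3]
          gcongr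
          have h1 := hSub δ V M W h x y hy.1
          have h2 : √(Vn V x y) = (Vn V x y ^ (1 / 3 : ℝ)) ^ (3 / 2 : ℝ) := by
            rw [← Real.rpow_mul (ff_Vn_nonneg x y), Real.sqrt_eq_rpow]
            norm_num
          rw [h2]
          exact Real.rpow_le_rpow (Real.rpow_nonneg (ff_Vn_nonneg x y) _) h1 (by norm_num)
      _ = ∫⁻ p, ENNReal.ofReal ((cvf (pk p.2) (fun z => Vn V z 0 ^ (1 / 3 : ℝ)) p.1) ^
          (3 / 2 : ℝ)) ∂(mu τ f) := (hm3 _ hmeas).symm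
      _ ≤ ENNReal.ofReal (C1 * (8 * N) * ∫ x, (Vn V x 0 ^ (1 / 3 : ℝ)) ^ (3 / 2 : ℝ)) :=
          hCar (mu τ f) (8 * N) (by positivity) hm1 hm2 _ hg1 hg2 hg3 hg5
      _ = _ := by simp only [hg4]; rfl
  obtain ⟨I, hI⟩ : ∃ I : ℝ, I = |∫ y in (0:ℝ)..τ, y * ∫ x, cvf (pk y) f x i * M a b x y| :=
    ⟨_, rfl⟩
  rw [← hI]
  have key : I ≤ (C2 * Kn V / 2 + 4 * C1 * Kn V) * √N := by
    apply ff_opt (by positivity) hN
    intro l hl
    refine ⟨l / 2 * (τ ^ 2 * ‖f‖ ^ 2), fun κ hκ => ?_⟩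
    obtain ⟨F1, hF1⟩ : ∃ F1 : E3 × ℝ → ℝ≥0∞, F1 = fun p =>
      ENNReal.ofReal (p.2 * (Mn M p.1 p.2 / √(Vn V p.1 p.2 + κ))) := ⟨_, rfl⟩
    have hpos : ∀ x y, 0 < √(Vn V x y + κ) := fun x y =>
      Real.sqrt_pos.2 (by linarith [ff_Vn_nonneg (V := V) x y])
    have m1 : AEMeasurable F1 (ff_nu τ) := by
      rw [hF1]
      exact (ff_aem (c2.mul (cM.div ((cV.add continuousOn_const).sqrt)
        fun p _ => (hpos p.1 p.2).ne'))).ennreal_ofReal
    have b1 : ∫⁻ p, F1 p ∂(ff_nu τ) ≤ ENNReal.ofReal (C2 * Kn V) := by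
      rw [← ff_iter m1, hF1]
      exact hEn δ V M W h κ τ hκ hτ
    have h1 : ENNReal.ofReal I ≤ ENNReal.ofReal ((2 * l)⁻¹ * (C2 * Kn V) +
        l / 2 * (C1 * (8 * N) * Kn V) + l * √κ / 2 * (τ ^ 2 * ‖f‖ ^ 2)) := by
      calc ENNReal.ofReal I ≤ ∫⁻ y in Ioo 0 τ, ∫⁻ x,
            ENNReal.ofReal (y * |cvf (pk y) f x i * M a b x y|) := by
            rw [hI]
            exact ff_abs hτ (fun x y => cvf (pk y) f x i * M a b x y)
        _ ≤ ∫⁻ y in Ioo 0 τ, ∫⁻ x, (ENNReal.ofReal (2 * l)⁻¹ * F1 (x, y) +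
            ENNReal.ofReal (l / 2) * F2 (x, y) + ENNReal.ofReal (l * √κ / 2) * F3 (x, y)) := by
            apply setLIntegral_mono' measurableSet_Ioo
            intro y hy
            apply lintegral_mono
            intro x
            have hy0 : (0:ℝ) ≤ y := hy.1.le
            have hG : (cvf (pk y) f x i) ^ 2 ≤ ‖cvf (pk y) f x‖ ^ 2 := by
              have h3 : |cvf (pk y) f x i| ≤ ‖cvf (pk y) f x‖ := by
                have := PiLp.norm_apply_le (cvf (pk y) f x) i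
                rwa [Real.norm_eq_abs] at this
              rw [← sq_abs]
              exact pow_le_pow_left₀ (abs_nonneg _) h3 2
            have h4 := ff_pt hy0 hl (hpos x y) (ff_sq_le_Mn (M := M) a b x y) hG
              (ff_sqrt (ff_Vn_nonneg (V := V) x y) hκ.le)
            have n1 : 0 ≤ y * (Mn M x y / √(Vn V x y + κ)) :=
              mul_nonneg hy0 (div_nonneg (ff_Mn_nonneg x y) (hpos x y).le)
            have n2 : 0 ≤ y * ‖cvf (pk y) f x‖ ^ 2 := by positivity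
            simp only [hF1, hF2, hF3]
            rw [← ENNReal.ofReal_mul n2, ← ENNReal.ofReal_mul (by positivity),
              ← ENNReal.ofReal_mul (by positivity), ← ENNReal.ofReal_mul (by positivity),
              ← ENNReal.ofReal_add (by positivity) (by positivity),
              ← ENNReal.ofReal_add (by positivity) (by positivity)]
            exact ENNReal.ofReal_le_ofReal h4
        _ = ∫⁻ p, (ENNReal.ofReal (2 * l)⁻¹ * F1 p +
            ENNReal.ofReal (l / 2) * F2 p + ENNReal.ofReal (l * √κ / 2) * F3 p) ∂(ff_nu τ) :=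
            ff_iter (((m1.const_mul _).add (m2.const_mul _)).add (m3.const_mul _))
        _ = ENNReal.ofReal (2 * l)⁻¹ * (∫⁻ p, F1 p ∂(ff_nu τ)) +
            ENNReal.ofReal (l / 2) * (∫⁻ p, F2 p ∂(ff_nu τ)) +
            ENNReal.ofReal (l * √κ / 2) * ∫⁻ p, F3 p ∂(ff_nu τ) := by
            have m12 : AEMeasurable (fun p => ENNReal.ofReal (2 * l)⁻¹ * F1 p +
                ENNReal.ofReal (l / 2) * F2 p) (ff_nu τ) := (m1.const_mul _).add (m2.const_mul _)
            rw [lintegral_add_left' m12,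
              lintegral_add_left' (m1.const_mul _), lintegral_const_mul'' _ m1,
              lintegral_const_mul'' _ m2, lintegral_const_mul'' _ m3]
        _ ≤ ENNReal.ofReal (2 * l)⁻¹ * ENNReal.ofReal (C2 * Kn V) +
            ENNReal.ofReal (l / 2) * ENNReal.ofReal (C1 * (8 * N) * Kn V) +
            ENNReal.ofReal (l * √κ / 2) * ENNReal.ofReal (τ ^ 2 * ‖f‖ ^ 2) := by gcongr
        _ = _ := by
            rw [← ENNReal.ofReal_mul (by positivity), ← ENNReal.ofReal_mul (by positivity),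
              ← ENNReal.ofReal_mul (by positivity),
              ← ENNReal.ofReal_add (by positivity) (by positivity),
              ← ENNReal.ofReal_add (by positivity) (by positivity)]
    rw [ENNReal.ofReal_le_ofReal_iff (by positivity)] at h1
    refine h1.trans (le_of_eq ?_)
    field_simp
    ring
  refine key.trans (le_of_eq ?_)
  ring

end Pool.Agent.TF.D
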