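import Pool.Agent.TF.D.Spec

/-!
# Block D: Hahn-Banach in `V3`
-/

set_option autoImplicit false

namespace Pool.Agent.TF.D

open MeasureTheory Set Filter Topology Pool.Agent.TO Pool.Agent.TB Pool.Agent.TC Pool.Agent.TP
  Pool.Agent.TF
open scoped ENNReal NNReal Real InnerProductSpace

theorem hb_ok : SpHB := by
  intro K v hK hne h
  by_contra hv
  obtain ⟨l, u, hu1, hu2⟩ := geometric_hahn_banach_closed_point hK.closure isClosed_closure hv
  set φ := (InnerProductSpace.toDual ℝ V3).symm l with hφ
  have hl : ∀ c, l c = ⟪c, φ⟫_ℝ := by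
    intro c
    rw [real_inner_comm, hφ, InnerProductSpace.toDual_symm_apply]
  have h1 := h φ u (fun c hc => by rw [← hl]; exact (hu1 c (subset_closure hc)).le)
  rw [← hl] at h1
  linarith

end Pool.Agent.TF.D
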