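import Pool.Agent.TF.D.Spec

/-!
# Block D, row D1h: the harmonic system of a field
-/

set_option autoImplicit false

namespace Pool.Agent.TF.D

open MeasureTheory Set Filter Topology Pool.Agent.TO Pool.Agent.TB Pool.Agent.TC Pool.Agent.TP
  Pool.Agent.TF
open scoped ENNReal NNReal Real InnerProductSpace SchwartzMap LineDeriv

/-- the components of the system -/
noncomputable def hsH (R : Fin 3 → V3 →L[ℝ] V3) (q : V3) (i : Fin 3) : Fin 4 → E3 → ℝ :=
  Fin.cons (fun z => -(q z i)) (fun j z => R j q z i)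

/-- the first derivatives of the Poisson kernel -/
noncomputable def hsK1 : Fin 4 → ℝ → E3 → ℝ := Fin.cons yk (fun k => dk k)

/-- the second derivatives of the Poisson kernel -/
noncomputable def hsK2 : Fin 4 → ℝ → E3 → ℝ := Fin.cons yyk (fun k => ddk k k)

theorem hs_pe_neg (κ : ℝ → E3 → ℝ) (h : E3 → ℝ) (x : E3) (y : ℝ) :
    pe κ (fun z => -(h z)) x y = -pe κ h x y := by
  unfold pe cvf
  simp only [smul_neg]
  exact integral_neg _

theorem hs_Vq (R : Fin 3 → V3 →L[ℝ] V3) (δ : ℝ) (q : V3) (i : Fin 3) (κ : ℝ → E3 → ℝ)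
    (b : Fin 4) (x : E3) (y : ℝ) : Vq R δ q i κ b x y = pe κ (hsH R q i b) x (y + δ) := by
  refine Fin.cases ?_ (fun j => ?_) b
  · exact (hs_pe_neg κ _ x (y + δ)).symm
  · rfl

theorem hs_Mq (R : Fin 3 → V3 →L[ℝ] V3) (δ : ℝ) (q : V3) (i : Fin 3)
    (a b : Fin 4) (x : E3) (y : ℝ) :
    Mq R δ q i a b x y = pe (hsK1 a) (hsH R q i b) x (y + δ) := by
  refine Fin.cases ?_ (fun j => ?_) a
  · exact hs_Vq R δ q i yk b x y
  · exact hs_Vq R δ q i (dk j) b x y

theorem hs_Wq (R : Fin 3 → V3 →L[ℝ] V3) (δ : ℝ) (q : V3) (i : Fin 3)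
    (a b : Fin 4) (x : E3) (y : ℝ) :
    Wq R δ q i a b x y = pe (hsK2 a) (hsH R q i b) x (y + δ) := by
  refine Fin.cases ?_ (fun j => ?_) a
  · exact hs_Vq R δ q i yyk b x y
  · exact hs_Vq R δ q i (ddk j j) b x y

theorem hs_memLp (f : V3) (i : Fin 3) : MemLp (fun z => f z i) 2 (volume : Measure E3) :=
  (EuclideanSpace.proj (𝕜 := ℝ) i : E3 →L[ℝ] ℝ).comp_memLp' (Lp.memLp f)

theorem hs_memLp_H (R : Fin 3 → V3 →L[ℝ] V3) (q : V3) (i : Fin 3) (b : Fin 4) :
    MemLp (hsH R q i b) 2 (volume : Measure E3) := by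
  refine Fin.cases ?_ (fun j => ?_) b
  · exact (hs_memLp q i).neg
  · exact hs_memLp (R j q) i

/-- components of a convolution -/
theorem hs_comp {κ : ℝ → E3 → ℝ} {y L : ℝ} (hκ : KK (κ y) L) (f : V3) (i : Fin 3) (x : E3) :
    pe κ (fun z => f z i) x y = cvf (κ y) f x i := by
  have h1 := (EuclideanSpace.proj (𝕜 := ℝ) i : E3 →L[ℝ] ℝ).integral_comp_comm
    (integrable_cvf hκ (Lp.stronglyMeasurable f) (lintegral_sq_lt f) x)
  unfold pe cvf
  exact h1

theorem hs_ae {κ : ℝ → E3 → ℝ} {y L : ℝ} (hκ : KK (κ y) L) (f : V3) (i : Fin 3) :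
    (fun x => (cvO (κ y) f : V3) x i) =ᵐ[volume] fun x => pe κ (fun z => f z i) x y := by
  filter_upwards [coe_cvO hκ f] with x hx
  rw [hx, hs_comp hκ]

theorem hs_cont {κ : ℝ → E3 → ℝ} {h : E3 → ℝ}
    (hc : ContinuousOn (fun p : E3 × ℝ => pe κ h p.1 p.2) {p | 0 < p.2}) {y : ℝ} (hy : 0 < y) :
    Continuous fun x => pe κ h x y :=
  hc.comp_continuous (f := fun x : E3 => (x, y)) (by fun_prop) fun _ => hy

theorem hs_eq {u v : E3 → ℝ} (hu : Continuous u) (hv : Continuous v) (h : u =ᵐ[volume] v)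
    (x : E3) : u x = v x :=
  congrFun ((Continuous.ae_eq_iff_eq volume hu hv).1 h) x

/-- uniform constants over finite families -/
theorem hs_fin {ι : Type} [Finite ι] {P : ι → ℝ → Prop}
    (hm : ∀ i C C', C ≤ C' → P i C → P i C') (h : ∀ i, ∃ C, P i C) : ∃ C, ∀ i, P i C := by
  choose C hC using h
  obtain ⟨B, hB⟩ := (Set.finite_range C).bddAbove
  exact ⟨B, fun i => hm i _ _ (hB ⟨i, rfl⟩) (hC i)⟩

section main

variable (hdk : SpDK) (hex : SpExt)

include hdk in
theorem hs_dk1 (a : Fin 4) : DK (hsK1 a) := by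
  refine Fin.cases ?_ (fun j => ?_) a
  · exact hdk.2.2.1
  · exact hdk.2.1 j

include hdk in
theorem hs_dk2 (a : Fin 4) : DK (hsK2 a) := by
  refine Fin.cases ?_ (fun j => ?_) a
  · exact hdk.2.2.2.2.2
  · exact hdk.2.2.2.1 j j

include hex in
theorem hs_conton {κ : ℝ → E3 → ℝ} (hκ : DK κ) {h : E3 → ℝ} (hh : MemLp h 2 (volume : Measure E3))
    (δ : ℝ) : ContinuousOn (fun p : E3 × ℝ => pe κ h p.1 (p.2 + δ)) {p | -δ < p.2} := by
  have h1 := (hex κ hκ h hh).1
  refine h1.comp (f := fun p : E3 × ℝ => (p.1, p.2 + δ)) (by fun_prop) ?_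
  intro p hp
  have h2 : -δ < p.2 := hp
  show 0 < p.2 + δ
  linarith

end main

/-- the first order relations -/
theorem hs_yp (hdk : SpDK) (hex : SpExt) {R : Fin 3 → V3 →L[ℝ] V3} (hR : RZ R) (q : V3)
    (i j : Fin 3) (x : E3) {y : ℝ} (hy : 0 < y) :
    pe yk (fun z => R j q z i) x y = -pe (dk j) (fun z => q z i) x y := by
  have hc1 := hs_cont (hex yk hdk.2.2.1 _ (hs_memLp (R j q) i)).1 hy
  have hc2 := hs_cont (hex (dk j) (hdk.2.1 j) _ (hs_memLp q i)).1 hy
  refine hs_eq hc1 hc2.neg ?_ x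
  filter_upwards [hs_ae (kk_yk hy) (R j q) i, hs_ae (kk_dk j hy) q i,
    Lp.coeFn_neg (Dp j y q)] with z h1 h2 h3
  have h4 := hR.yp j y hy q
  have h5 : (Yp y (R j q) : V3) z = -(Dp j y q : V3) z := by
    rw [h4, h3]
    rfl
  have h6 : (Yp y (R j q) : V3) z i = -((Dp j y q : V3) z i) := by
    rw [h5]
    rfl
  exact h1.symm.trans (h6.trans (congrArg Neg.neg h2))

theorem hs_dp (hdk : SpDK) (hex : SpExt) {R : Fin 3 → V3 →L[ℝ] V3} (hR : RZ R) (q : V3)
    (i k j : Fin 3) (x : E3) {y : ℝ} (hy : 0 < y) :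
    pe (dk k) (fun z => R j q z i) x y = pe (dk j) (fun z => R k q z i) x y := by
  have hc1 := hs_cont (hex (dk k) (hdk.2.1 k) _ (hs_memLp (R j q) i)).1 hy
  have hc2 := hs_cont (hex (dk j) (hdk.2.1 j) _ (hs_memLp (R k q) i)).1 hy
  refine hs_eq hc1 hc2 ?_ x
  filter_upwards [hs_ae (kk_dk k hy) (R j q) i, hs_ae (kk_dk j hy) (R k q) i] with z h1 h2
  have h4 := hR.dp k j y hy q
  have h5 : (Dp k y (R j q) : V3) z i = (Dp j y (R k q) : V3) z i := by
    rw [h4]
  exact h1.symm.trans (h5.trans h2)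

theorem hs_tr (hdk : SpDK) (hex : SpExt) {R : Fin 3 → V3 →L[ℝ] V3} (hR : RZ R) (q : V3)
    (i : Fin 3) (x : E3) {y : ℝ} (hy : 0 < y) :
    ∑ j, pe (dk j) (fun z => R j q z i) x y = pe yk (fun z => q z i) x y := by
  have hc1 : Continuous fun x => ∑ j, pe (dk j) (fun z => R j q z i) x y :=
    continuous_finsetSum _ fun j _ =>
      hs_cont (hex (dk j) (hdk.2.1 j) _ (hs_memLp (R j q) i)).1 hy
  have hc2 := hs_cont (hex yk hdk.2.2.1 _ (hs_memLp q i)).1 hy
  refine hs_eq hc1 hc2 ?_ x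
  filter_upwards [hs_ae (kk_dk 0 hy) (R 0 q) i, hs_ae (kk_dk 1 hy) (R 1 q) i,
    hs_ae (kk_dk 2 hy) (R 2 q) i, hs_ae (kk_yk hy) q i,
    Lp.coeFn_add (Dp 0 y (R 0 q) + Dp 1 y (R 1 q)) (Dp 2 y (R 2 q)),
    Lp.coeFn_add (Dp 0 y (R 0 q)) (Dp 1 y (R 1 q))] with z h0 h1 h2 h3 h4 h5
  have h6 := hR.sum_dp y hy q
  rw [Fin.sum_univ_three] at h6
  have h7 : (Yp y q : V3) z = ((Dp 0 y (R 0 q) : V3) z + (Dp 1 y (R 1 q) : V3) z) +
      (Dp 2 y (R 2 q) : V3) z := by
    rw [← h6, h4, Pi.add_apply, h5, Pi.add_apply]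
  have h8 : (Yp y q : V3) z i = ((Dp 0 y (R 0 q) : V3) z i + (Dp 1 y (R 1 q) : V3) z i) +
      (Dp 2 y (R 2 q) : V3) z i := by
    rw [h7]
    rfl
  rw [Fin.sum_univ_three]
  have g0 : (Dp 0 y (R 0 q) : V3) z i = pe (dk 0) (fun z => R 0 q z i) z y := h0
  have g1 : (Dp 1 y (R 1 q) : V3) z i = pe (dk 1) (fun z => R 1 q z i) z y := h1
  have g2 : (Dp 2 y (R 2 q) : V3) z i = pe (dk 2) (fun z => R 2 q z i) z y := h2
  have g3 : (Yp y q : V3) z i = pe yk (fun z => q z i) z y := h3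
  rw [← g0, ← g1, ← g2, ← g3, h8]

/-- the semigroup property for the components -/
theorem hs_pp (hdk : SpDK) (hex : SpExt) (hS : SG) (f : V3) (i : Fin 3) {δ y : ℝ} (hδ : 0 < δ)
    (hy : 0 < y) (x : E3) :
    pe pk (fun z => f z i) x (y + δ) = cvf (pk y) (fun z => pe pk (fun z => f z i) z δ) x := by
  have hae : (fun x => (Pp δ f : V3) x i) =ᵐ[volume] fun x => pe pk (fun z => f z i) x δ :=
    hs_ae (kk_pk hδ) f i
  have hmem : MemLp (fun z => pe pk (fun z => f z i) z δ) 2 (volume : Measure E3) :=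
    (hs_memLp (Pp δ f) i).ae_eq hae
  have hyδ : 0 < y + δ := by linarith
  have hc1 := hs_cont (hex pk hdk.1 _ (hs_memLp f i)).1 hyδ
  have hc2 := hs_cont (hex pk hdk.1 _ hmem).1 hy
  refine hs_eq hc1 hc2 ?_ x
  filter_upwards [hs_ae (kk_pk hyδ) f i, hs_ae (kk_pk hy) (Pp δ f) i] with z h1 h2
  have h3 := hS.pp y δ hy hδ f
  have h4 : (Pp (y + δ) f : V3) z i = (Pp y (Pp δ f) : V3) z i := by
    rw [h3]
  have h5 : pe pk (fun z => (Pp δ f : V3) z i) z y =
      pe pk (fun z => pe pk (fun z => f z i) z δ) z y := cvf_congr hae z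
  exact h1.symm.trans (h4.trans (h2.trans h5))

theorem hs_ok : SpDK → SpExt → SpDer → SpHS := by
  intro hdk hex hder R hS hR q i δ hδ hint
  have hV : ∀ b x y, Vq R δ q i pk b x y = pe pk (hsH R q i b) x (y + δ) := hs_Vq R δ q i pk
  have hM := hs_Mq R δ q i
  have hW := hs_Wq R δ q i
  have hmem := hs_memLp_H R q i
  -- boundary values
  have hbv : ∀ b : Fin 4, (fun x => Vq R δ q i pk b x 0) =ᵐ[volume]
      fun x => (Fin.cons (-(Pp δ q : V3) x i) (fun j : Fin 3 => (R j (Pp δ q) : V3) x i) :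
        Fin 4 → ℝ) b := by
    intro b
    refine Fin.cases ?_ (fun j => ?_) b
    · filter_upwards [hs_ae (kk_pk hδ) q i] with x hx
      rw [hV, zero_add]
      show pe pk (fun z => -(q z i)) x δ = -((Pp δ q : V3) x i)
      rw [hs_pe_neg]
      exact congrArg Neg.neg hx.symm
    · filter_upwards [hs_ae (kk_pk hδ) (R j q) i] with x hx
      rw [hV, zero_add]
      show pe pk (fun z => R j q z i) x δ = (R j (Pp δ q) : V3) x i
      have h1 : R j (Pp δ q) = Pp δ (R j q) := (hR.ti j).cvO (pk δ) q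
      rw [h1]
      exact hx.symm
  have hl1 : ∀ b, Integrable (fun x => Vq R δ q i pk b x 0) := by
    intro b
    refine Integrable.congr ?_ (hbv b).symm
    refine Fin.cases ?_ (fun j => ?_) b
    · exact (hint none).neg
    · exact hint (some j)
  refine ⟨?_, ?_⟩
  · refine
      { pos := hδ
        dx := ?_
        dy := ?_
        dxx := ?_
        dyy := ?_
        symm := ?_
        tr := ?_
        harm := ?_
        cV := ?_
        cM := ?_
        cW := ?_
        bd := ?_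
        dec := ?_
        l2 := ?_
        l1 := hl1
        ext := ?_ }
    · intro b j x y hy
      simp only [hV, hM]
      exact (hder _ (hmem b) x (y + δ) (by linarith)).1 j
    · intro b x y hy
      simp only [hV, hM]
      exact ((hder _ (hmem b) x (y + δ) (by linarith)).2.1).comp_add_const y δ
    · intro b j x y hy
      simp only [hM, hW]
      exact (hder _ (hmem b) x (y + δ) (by linarith)).2.2.1 j j
    · intro b x y hy
      simp only [hM, hW]
      exact ((hder _ (hmem b) x (y + δ) (by linarith)).2.2.2.2.2.1).comp_add_const y δ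
    · intro a b x y hy
      have hyδ : 0 < y + δ := by linarith
      have key : ∀ j : Fin 3, Mq R δ q i 0 j.succ x y = Mq R δ q i j.succ 0 x y := by
        intro j
        rw [hM, hM]
        show pe yk (fun z => R j q z i) x (y + δ) = pe (dk j) (fun z => -(q z i)) x (y + δ)
        rw [hs_pe_neg]
        exact hs_yp hdk hex hR q i j x hyδ
      revert b
      refine Fin.cases ?_ (fun k => ?_) a
      · intro b
        refine Fin.cases rfl (fun j => key j) b
      · intro b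
        refine Fin.cases (key k).symm (fun j => ?_) b
        rw [hM, hM]
        exact hs_dp hdk hex hR q i k j x hyδ
    · intro x y hy
      have hyδ : 0 < y + δ := by linarith
      simp only [hM]
      rw [Fin.sum_univ_succ]
      have h1 := hs_tr hdk hex hR q i x hyδ
      have h2 : pe (hsK1 0) (hsH R q i 0) x (y + δ) = -pe yk (fun z => q z i) x (y + δ) :=
        hs_pe_neg yk _ x (y + δ)
      have h3 : ∑ j : Fin 3, pe (hsK1 j.succ) (hsH R q i j.succ) x (y + δ) =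
          ∑ j, pe (dk j) (fun z => R j q z i) x (y + δ) := rfl
      rw [h2, h3, h1]
      ring
    · intro b x y hy
      simp only [hW]
      rw [Fin.sum_univ_succ]
      have h1 := (hder _ (hmem b) x (y + δ) (by linarith)).2.2.2.2.2.2
      have h3 : ∑ j : Fin 3, pe (hsK2 j.succ) (hsH R q i b) x (y + δ) =
          ∑ j, pe (ddk j j) (hsH R q i b) x (y + δ) := rfl
      have h2 : pe (hsK2 0) (hsH R q i b) x (y + δ) = pe yyk (hsH R q i b) x (y + δ) := rfl
      rw [h2, h3, h1]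
      ring
    · intro b
      simp only [hV]
      exact hs_conton hex hdk.1 (hmem b) δ
    · intro a b
      simp only [hM]
      exact hs_conton hex (hs_dk1 hdk a) (hmem b) δ
    · intro a b
      simp only [hW]
      exact hs_conton hex (hs_dk2 hdk a) (hmem b) δ
    · have bnd : ∀ κ : ℝ → E3 → ℝ, DK κ → ∀ b : Fin 4, ∃ C, ∀ x y, 0 ≤ y →
          |pe κ (hsH R q i b) x (y + δ)| ≤ C := by
        intro κ hκ b
        obtain ⟨C, hC⟩ := (hex κ hκ _ (hmem b)).2.1 δ hδ
        exact ⟨C, fun x y hy => hC x (y + δ) (by linarith)⟩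
      obtain ⟨C, hC⟩ := hs_fin (ι := Fin 4 × Fin 4)
        (P := fun p C => (∀ x y, 0 ≤ y → |pe pk (hsH R q i p.2) x (y + δ)| ≤ C) ∧
          (∀ x y, 0 ≤ y → |pe (hsK1 p.1) (hsH R q i p.2) x (y + δ)| ≤ C) ∧
          (∀ x y, 0 ≤ y → |pe (hsK2 p.1) (hsH R q i p.2) x (y + δ)| ≤ C))
        (fun p C C' h hp => ⟨fun x y hy => (hp.1 x y hy).trans h,
          fun x y hy => (hp.2.1 x y hy).trans h, fun x y hy => (hp.2.2 x y hy).trans h⟩)
        (fun p => by
          obtain ⟨C1, h1⟩ := bnd pk hdk.1 p.2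
          obtain ⟨C2, h2⟩ := bnd (hsK1 p.1) (hs_dk1 hdk p.1) p.2
          obtain ⟨C3, h3⟩ := bnd (hsK2 p.1) (hs_dk2 hdk p.1) p.2
          exact ⟨max C1 (max C2 C3), fun x y hy => (h1 x y hy).trans (le_max_left _ _),
            fun x y hy => (h2 x y hy).trans ((le_max_left _ _).trans (le_max_right _ _)),
            fun x y hy => (h3 x y hy).trans ((le_max_right _ _).trans (le_max_right _ _))⟩)
      refine ⟨C, fun a b x y hy => ?_⟩
      rw [hV, hM, hW]
      obtain ⟨h1, h2, h3⟩ := hC (a, b)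
      exact ⟨h1 x y hy, h2 x y hy, h3 x y hy⟩
    · intro ε hε
      obtain ⟨B, hB⟩ := hs_fin (ι := Fin 4)
        (P := fun b B => ∀ x y, 0 ≤ y → (B ≤ ‖x‖ ∨ B ≤ y) →
          |pe pk (hsH R q i b) x (y + δ)| ≤ ε)
        (fun b C C' h hp x y hy hxy => hp x y hy (hxy.imp h.trans h.trans))
        (fun b => by
          obtain ⟨B, hB⟩ := (hex pk hdk.1 _ (hmem b)).2.2.1 δ hδ ε hε
          exact ⟨B, fun x y hy hxy => hB x (y + δ) (by linarith)
            (hxy.imp id fun h => by linarith)⟩)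
      refine ⟨B, fun b x y hy hxy => ?_⟩
      rw [hV]
      exact hB b x y hy hxy
    · have bnd : ∀ κ : ℝ → E3 → ℝ, DK κ → ∀ b : Fin 4, ∃ C, ∀ y, 0 ≤ y →
          Integrable (fun x => pe κ (hsH R q i b) x (y + δ) ^ 2) ∧
          ∫ x, pe κ (hsH R q i b) x (y + δ) ^ 2 ≤ C := by
        intro κ hκ b
        obtain ⟨C, hC⟩ := (hex κ hκ _ (hmem b)).2.2.2 δ hδ
        exact ⟨C, fun y hy => hC (y + δ) (by linarith)⟩
      obtain ⟨C, hC⟩ := hs_fin (ι := Fin 4 × Fin 4)
        (P := fun p C => ∀ y, 0 ≤ y →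
          (Integrable (fun x => pe pk (hsH R q i p.2) x (y + δ) ^ 2) ∧
            ∫ x, pe pk (hsH R q i p.2) x (y + δ) ^ 2 ≤ C) ∧
          (Integrable (fun x => pe (hsK1 p.1) (hsH R q i p.2) x (y + δ) ^ 2) ∧
            ∫ x, pe (hsK1 p.1) (hsH R q i p.2) x (y + δ) ^ 2 ≤ C) ∧
          (Integrable (fun x => pe (hsK2 p.1) (hsH R q i p.2) x (y + δ) ^ 2) ∧
            ∫ x, pe (hsK2 p.1) (hsH R q i p.2) x (y + δ) ^ 2 ≤ C))
        (fun p C C' h hp y hy => ⟨⟨(hp y hy).1.1, (hp y hy).1.2.trans h⟩,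
          ⟨(hp y hy).2.1.1, (hp y hy).2.1.2.trans h⟩,
          ⟨(hp y hy).2.2.1, (hp y hy).2.2.2.trans h⟩⟩)
        (fun p => by
          obtain ⟨C1, h1⟩ := bnd pk hdk.1 p.2
          obtain ⟨C2, h2⟩ := bnd (hsK1 p.1) (hs_dk1 hdk p.1) p.2
          obtain ⟨C3, h3⟩ := bnd (hsK2 p.1) (hs_dk2 hdk p.1) p.2
          exact ⟨max C1 (max C2 C3), fun y hy =>
            ⟨⟨(h1 y hy).1, (h1 y hy).2.trans (le_max_left _ _)⟩,
            ⟨(h2 y hy).1, (h2 y hy).2.trans ((le_max_left _ _).trans (le_max_right _ _))⟩,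
            ⟨(h3 y hy).1, (h3 y hy).2.trans ((le_max_right _ _).trans (le_max_right _ _))⟩⟩⟩)
      refine ⟨C, fun a b y hy => ?_⟩
      simp only [hV, hM, hW]
      exact hC (a, b) y hy
    · intro b x y hy
      simp only [hV, zero_add]
      refine Fin.cases ?_ (fun j => ?_) b
      · show pe pk (fun z => -(q z i)) x (y + δ) = cvf (pk y) (fun z =>
          pe pk (fun z => -(q z i)) z δ) x
        simp only [hs_pe_neg]
        rw [hs_pp hdk hex hS q i hδ hy x]
        exact (hs_pe_neg pk _ x y).symm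
      · exact hs_pp hdk hex hS (R j q) i hδ hy x
  · unfold Kn
    have hle : ∀ x, √(Vn (Vq R δ q i pk) x 0) ≤ ∑ b, |Vq R δ q i pk b x 0| := by
      intro x
      refine Real.sqrt_le_iff.2 ⟨Finset.sum_nonneg fun b _ => abs_nonneg _, ?_⟩
      unfold Vn
      have h1 : ∀ b, Vq R δ q i pk b x 0 ^ 2 = |Vq R δ q i pk b x 0| ^ 2 :=
        fun b => (sq_abs _).symm
      simp only [h1]
      exact Finset.sum_sq_le_sq_sum_of_nonneg fun b _ => abs_nonneg _
    have hsum : Integrable (fun x => ∑ b, |Vq R δ q i pk b x 0|) :=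
      integrable_finsetSum _ fun b _ => (hl1 b).abs
    calc ∫ x, √(Vn (Vq R δ q i pk) x 0) ≤ ∫ x, ∑ b, |Vq R δ q i pk b x 0| :=
          integral_mono_of_nonneg (Eventually.of_forall fun x => Real.sqrt_nonneg _) hsum
            (Eventually.of_forall hle)
      _ = ∑ b, ∫ x, |Vq R δ q i pk b x 0| := integral_finsetSum _ fun b _ => (hl1 b).abs
      _ = ∑ j : Option (Fin 3), ∫ x, |To R j (Pp δ q) x i| := by
          rw [Fin.sum_univ_succ, Fintype.sum_option]
          congr 1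
          · apply integral_congr_ae
            filter_upwards [hbv 0] with x hx
            rw [hx]
            exact abs_neg _
          · refine Finset.sum_congr rfl fun j _ => ?_
            apply integral_congr_ae
            filter_upwards [hbv j.succ] with x hx
            rw [hx]
            rfl

end Pool.Agent.TF.D
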