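import Pool.Agent.TF.D.Spec

/-!
# Block D, row D8b: the low frequency part
-/

set_option autoImplicit false

namespace Pool.Agent.TF.D

open MeasureTheory Set Filter Topology Pool.Agent.TO Pool.Agent.TB Pool.Agent.TC Pool.Agent.TP
  Pool.Agent.TF
open scoped ENNReal NNReal Real InnerProductSpace SchwartzMap LineDeriv

variable {κ : E3 → ℝ} {L : ℝ}

/-- translates of divergence-free fields are divergence-free -/
theorem lo_div_tau (a : E3) {f : V3} (hf : IsDivFree f) : IsDivFree (tau a f) := by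
  intro φ
  have e1 : ∫ x, fderiv ℝ φ x ((tau a f : V3) x) = ∫ x, fderiv ℝ φ x (f (x - a)) := by
    apply integral_congr_ae
    filter_upwards [coe_tau a f] with x hx
    rw [hx]
  have e2 : ∫ x, fderiv ℝ φ x (f (x - a)) = ∫ x, fderiv ℝ φ (x + a) (f x) := by
    have h1 := integral_sub_right_eq_self (fun x : E3 => fderiv ℝ φ (x + a) (f x)) a
      (μ := (volume : Measure E3))
    simp only [sub_add_cancel] at h1
    exact h1
  have e3 : ∀ x : E3, fderiv ℝ (φ.compSubConstCLM ℝ (-a)) x = fderiv ℝ φ (x + a) := by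
    intro x
    have h1 : (φ.compSubConstCLM ℝ (-a) : E3 → ℝ) = fun x => φ (x + a) := by
      funext z
      rw [SchwartzMap.compSubConstCLM_apply, sub_neg_eq_add]
    rw [h1, fderiv_comp_add_right]
  rw [e1, e2, ← hf (φ.compSubConstCLM ℝ (-a))]
  simp only [e3]

/-- convolution operators preserve divergence-free fields -/
theorem lo_div_cvO (κ : E3 → ℝ) {f : V3} (hf : IsDivFree f) : IsDivFree (cvO κ f) := by
  rw [div_iff]
  intro φ
  unfold cvO
  split_ifs with h
  · rw [inner_cvL_tau]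
    have e : ∀ y, κ y * ⟪emb (gR φ), tau y f⟫_ℝ = 0 := by
      intro y
      rw [(div_iff _).1 (lo_div_tau y hf) φ, mul_zero]
    simp only [e, integral_zero]
  · simp

/-- the convolution of a square integrable field with an admissible kernel is bounded -/
theorem lo_bd (h : KK κ L) (f : V3) : ∃ A : ℝ, 0 ≤ A ∧ Bd (cvO κ f) A := by
  obtain ⟨C, hC, hb⟩ := h.bdd
  have hL := h.nonneg
  refine ⟨√(L * C) * ‖f‖, by positivity, ?_⟩
  unfold Bd
  filter_upwards [coe_cvO h f] with x hx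
  rw [hx]
  apply le_of_sq_ofReal (by positivity)
  have h1 : ENNReal.ofReal (‖cvf κ f x‖ ^ 2) = ‖cvf κ f x‖ₑ ^ 2 := by
    rw [← ofReal_norm, ENNReal.ofReal_pow (norm_nonneg _)]
  rw [h1]
  calc ‖cvf κ f x‖ₑ ^ 2
      ≤ ENNReal.ofReal L * ∫⁻ y, ‖κ y‖ₑ * ‖f (x - y)‖ₑ ^ 2 :=
        sq_cvf_le h (Lp.stronglyMeasurable f) x
    _ ≤ ENNReal.ofReal L * ∫⁻ y, ENNReal.ofReal C * ‖f (x - y)‖ₑ ^ 2 := by
        gcongr with y
        rw [← ofReal_norm]
        exact ENNReal.ofReal_le_ofReal (hb y)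
    _ = ENNReal.ofReal L * (ENNReal.ofReal C * ∫⁻ y, ‖f y‖ₑ ^ 2) := by
        rw [lintegral_const_mul _ ((meas_shift (Lp.stronglyMeasurable f) x).pow_const 2),
          lintegral_sub_left_eq_self (fun y => ‖f y‖ₑ ^ 2) x]
    _ = ENNReal.ofReal ((√(L * C) * ‖f‖) ^ 2) := by
        rw [lintegral_sq_V3, enorm_sq_ofReal, ← ENNReal.ofReal_mul hC, ← ENNReal.ofReal_mul hL,
          mul_pow, Real.sq_sqrt (by positivity)]
        congr 1
        ring

theorem lo_bd_smul {f : V3} {A : ℝ} (c : ℝ) (hf : Bd f A) : Bd (c • f) (|c| * A) := by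
  unfold Bd at *
  filter_upwards [hf, Lp.coeFn_smul c f] with x h1 h2
  rw [h2, Pi.smul_apply, norm_smul, Real.norm_eq_abs]
  exact mul_le_mul_of_nonneg_left h1 (abs_nonneg c)

theorem lo_ok : SpLo := by
  intro f τ hτ hf
  have hτ2 : 0 < 2 * τ := by linarith
  constructor
  · unfold lo
    rw [sub_eq_add_neg, ← neg_smul]
    exact div_add (lo_div_cvO _ hf) (lo_div_cvO _ hf) _
  · obtain ⟨A, hA, hA'⟩ := lo_bd (kk_pk hτ2) f
    obtain ⟨B, hB, hB'⟩ := lo_bd (kk_yk hτ2) f
    refine ⟨A + |2 * τ| * B + 1, by positivity, ?_⟩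
    exact bd_mono (bd_sub hA' (lo_bd_smul (2 * τ) hB')) (by linarith)

end Pool.Agent.TF.D
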