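import Pool.Agent.TF.D.Spec

/-!
# Block D, row D5a: the maximum principle on the half space
-/

set_option autoImplicit false

namespace Pool.Agent.TF.D

open MeasureTheory Set Filter Topology Pool.Agent.TO Pool.Agent.TB Pool.Agent.TC Pool.Agent.TP
  Pool.Agent.TF
open scoped ENNReal NNReal Real InnerProductSpace SchwartzMap LineDeriv

/-- At a local maximum the second derivative is at most zero. -/
theorem mx_second {g g' : ℝ → ℝ} {t c : ℝ} (h1 : ∀ᶠ s in 𝓝 t, HasDerivAt g (g' s) s)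
    (h2 : HasDerivAt g' c t) (hm : IsLocalMax g t) : c ≤ 0 := by
  by_contra hc
  rw [not_le] at hc
  have hd : deriv g =ᶠ[𝓝 t] g' := h1.mono fun s hs => hs.deriv
  have hdd : deriv (deriv g) t = c := by rw [hd.deriv_eq, h2.deriv]
  have h0 : deriv g t = 0 := hm.deriv_eq_zero
  have hmin : IsLocalMin g t :=
    isLocalMin_of_deriv_deriv_pos (by rw [hdd]; exact hc) h0 h1.self_of_nhds.continuousAt
  have hconst : g =ᶠ[𝓝 t] fun _ => g t := by
    filter_upwards [hm, hmin] with s hs1 hs2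
    exact le_antisymm hs1 hs2
  have hd2 : deriv g =ᶠ[𝓝 t] fun _ => (0 : ℝ) := by
    have h3 := hconst.deriv
    refine h3.trans ?_
    filter_upwards with s
    simp
  have h4 : deriv (deriv g) t = 0 := by
    rw [hd2.deriv_eq]
    simp
  rw [hdd] at h4
  exact absurd h4 hc.ne'

/-- A directional derivative at an arbitrary point of the line. -/
theorem mx_shift {S D : E3 → ℝ} {e : E3}
    (h : ∀ x, HasDerivAt (fun t : ℝ => S (x + t • e)) (D x) 0) (x : E3) (t : ℝ) :
    HasDerivAt (fun s : ℝ => S (x + s • e)) (D (x + t • e)) t := by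
  have h1 : HasDerivAt (fun s : ℝ => S (x + t • e + s • e)) (D (x + t • e)) (t - t) := by
    rw [sub_self]
    exact h (x + t • e)
  have h2 := h1.comp_sub_const t t
  refine h2.congr_of_eventuallyEq (Eventually.of_forall fun s => ?_)
  change S (x + s • e) = S (x + t • e + (s - t) • e)
  congr 1
  rw [sub_smul]
  abel

theorem max_ok : SpMax := by
  intro S D1 D2 hc hx hy hxx hyy hsum hsmall hfar x1 y1 hy1
  by_contra hS
  rw [not_le] at hS
  set d := S x1 y1 with hd
  obtain ⟨y0, hy0, hs0⟩ := hsmall (d / 2) (by positivity)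
  obtain ⟨R, hR⟩ := hfar (d / 2) (by positivity)
  -- where the function is large
  have key : ∀ x y, 0 < y → d / 2 < S x y → y0 < y ∧ ‖x‖ < R ∧ y < R := by
    intro x y hy' h
    refine ⟨?_, ?_, ?_⟩
    · by_contra hn
      exact absurd (hs0 x y hy' (not_lt.1 hn)) (not_le.2 h)
    · by_contra hn
      exact absurd (hR x y hy' (Or.inl (not_lt.1 hn))) (not_le.2 h)
    · by_contra hn
      exact absurd (hR x y hy' (Or.inr (not_lt.1 hn))) (not_le.2 h)
  obtain ⟨k1, k2, k3⟩ := key x1 y1 hy1 (by rw [← hd]; linarith)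
  have hR0 : 0 < R := lt_trans hy1 k3
  set β := d / (8 * (R + 1) ^ 2) with hβ
  have hβ0 : 0 < β := by positivity
  have hβR : β * (R + 1) ^ 2 = d / 8 := by
    rw [hβ]
    field_simp
  set K : Set (E3 × ℝ) := Metric.closedBall (0 : E3) (R + 1) ×ˢ Icc (y0 / 2) (R + 1) with hK
  have hKc : IsCompact K := (isCompact_closedBall _ _).prod isCompact_Icc
  have hKpos : ∀ p ∈ K, 0 < p.2 := fun p hp => lt_of_lt_of_le (by positivity) hp.2.1
  have hcF : ContinuousOn (fun p : E3 × ℝ => S p.1 p.2 + β * p.2 ^ 2) K := by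
    apply ContinuousOn.add
    · exact hc.mono fun p hp => hKpos p hp
    · fun_prop
  have hmem1 : (x1, y1) ∈ K := by
    refine ⟨?_, ?_, ?_⟩
    · rw [mem_closedBall_zero_iff]
      linarith
    · show y0 / 2 ≤ y1
      linarith
    · show y1 ≤ R + 1
      linarith
  obtain ⟨p, hpK, hpm⟩ := hKc.exists_isMaxOn ⟨_, hmem1⟩ hcF
  have hp0 : 0 < p.2 := hKpos p hpK
  have h1 : d + β * y1 ^ 2 ≤ S p.1 p.2 + β * p.2 ^ 2 := hpm hmem1
  have h2 : β * p.2 ^ 2 ≤ d / 8 := by
    rw [← hβR]
    apply mul_le_mul_of_nonneg_left _ hβ0.le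
    exact pow_le_pow_left₀ hp0.le hpK.2.2 2
  have h3 : 0 ≤ β * y1 ^ 2 := by positivity
  obtain ⟨m1, m2, m3⟩ := key p.1 p.2 hp0 (by linarith)
  have hnh : K ∈ 𝓝 (p.1, p.2) := by
    apply prod_mem_nhds
    · apply Metric.closedBall_mem_nhds_of_mem
      rw [mem_ball_zero_iff]
      linarith
    · exact Icc_mem_nhds (by linarith) (by linarith)
  have hj : ∀ j : Fin 3, D2 j.succ p.1 p.2 ≤ 0 := by
    intro j
    have a1 : ∀ t : ℝ, HasDerivAt (fun t : ℝ => S (p.1 + t • ee j) p.2 + β * p.2 ^ 2)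
        (D1 j.succ (p.1 + t • ee j) p.2) t := fun t =>
      (mx_shift (S := fun x => S x p.2) (D := fun x => D1 j.succ x p.2)
        (fun x => hx j x p.2 hp0) p.1 t).add_const _
    refine mx_second (g' := fun t : ℝ => D1 j.succ (p.1 + t • ee j) p.2) (t := 0)
      (Eventually.of_forall a1) (hxx j p.1 p.2 hp0) ?_
    have hcont : Tendsto (fun t : ℝ => (p.1 + t • ee j, p.2)) (𝓝 0) (𝓝 (p.1, p.2)) := by
      have : Continuous fun t : ℝ => (p.1 + t • ee j, p.2) := by fun_prop
      have h4 := this.tendsto 0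
      rwa [zero_smul, add_zero] at h4
    filter_upwards [hcont hnh] with t ht
    have h5 := hpm ht
    simpa using h5
  have h0 : D2 0 p.1 p.2 + 2 * β ≤ 0 := by
    have hpos : ∀ᶠ s in 𝓝 p.2, 0 < s := lt_mem_nhds hp0
    have a1 : ∀ᶠ s in 𝓝 p.2, HasDerivAt (fun s => S p.1 s + β * s ^ 2)
        (D1 0 p.1 s + 2 * β * s) s := by
      filter_upwards [hpos] with s hs
      have b1 : HasDerivAt (fun s : ℝ => β * s ^ 2) (2 * β * s) s := by
        have := (hasDerivAt_pow 2 s).const_mul β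
        refine this.congr_deriv ?_
        norm_num
        ring
      exact (hy p.1 s hs).add b1
    have a2 : HasDerivAt (fun s => D1 0 p.1 s + 2 * β * s) (D2 0 p.1 p.2 + 2 * β) p.2 := by
      have b2 : HasDerivAt (fun s : ℝ => 2 * β * s) (2 * β) p.2 := by
        simpa using (hasDerivAt_id p.2).const_mul (2 * β)
      exact (hyy p.1 p.2 hp0).add b2
    refine mx_second a1 a2 ?_
    have hcont : Tendsto (fun s : ℝ => (p.1, s)) (𝓝 p.2) (𝓝 (p.1, p.2)) := by
      have : Continuous fun s : ℝ => (p.1, s) := by fun_prop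
      exact this.tendsto p.2
    filter_upwards [hcont hnh] with s hs
    exact hpm hs
  have h4 := hsum p.1 p.2 hp0
  rw [Fin.sum_univ_succ] at h4
  have h5 : ∑ j : Fin 3, D2 j.succ p.1 p.2 ≤ 0 := Finset.sum_nonpos fun j _ => hj j
  linarith

end Pool.Agent.TF.D
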