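import Pool.Agent.TF.D.Spec

/-!
# The measure `mu`: box condition for all radii, iterated form (D2b)
-/

set_option autoImplicit false

namespace Pool.Agent.TF.D

open MeasureTheory Set Filter Topology Pool.Agent.TO Pool.Agent.TB Pool.Agent.TC Pool.Agent.TP
  Pool.Agent.TF
open scoped ENNReal NNReal Real InnerProductSpace SchwartzMap LineDeriv

/-- averaging over the centres -/
theorem mu_avg (ψ : E3 → ℝ≥0∞) (hψ : Measurable ψ) (z : E3) (r τ : ℝ) :
    (∫⁻ x in Metric.closedBall z r, ψ x) * volume (Metric.closedBall (0:E3) τ) ≤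
      ∫⁻ w in Metric.closedBall z (r + τ), ∫⁻ x in Metric.closedBall w τ, ψ x := by
  have hS : MeasurableSet {p : E3 × E3 | dist p.2 p.1 ≤ τ} :=
    measurableSet_le (measurable_snd.dist measurable_fst) measurable_const
  have hm : Measurable (Function.uncurry fun w x : E3 =>
      (Metric.closedBall w τ).indicator ψ x) := by
    have e : (Function.uncurry fun w x : E3 => (Metric.closedBall w τ).indicator ψ x) =
        {p : E3 × E3 | dist p.2 p.1 ≤ τ}.indicator fun p => ψ p.2 := by
      ext p
      rfl
    rw [e]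
    exact (hψ.comp measurable_snd).indicator hS
  calc (∫⁻ x in Metric.closedBall z r, ψ x) * volume (Metric.closedBall (0:E3) τ)
      = ∫⁻ x in Metric.closedBall z r, ψ x * volume (Metric.closedBall (0:E3) τ) :=
        (lintegral_mul_const _ hψ).symm
    _ ≤ ∫⁻ x in Metric.closedBall z r, ∫⁻ w in Metric.closedBall z (r + τ),
          (Metric.closedBall w τ).indicator ψ x := by
        apply setLIntegral_mono' Metric.isClosed_closedBall.measurableSet
        intro x hx
        have e1 : ∀ w : E3, (Metric.closedBall w τ).indicator ψ x =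
            (Metric.closedBall x τ).indicator (fun _ => ψ x) w := by
          intro w
          by_cases h : dist x w ≤ τ
          · rw [indicator_of_mem (Metric.mem_closedBall.2 h),
              indicator_of_mem (Metric.mem_closedBall'.2 h)]
          · rw [indicator_of_notMem (fun h' => h (Metric.mem_closedBall.1 h')),
              indicator_of_notMem (fun h' => h (Metric.mem_closedBall'.1 h'))]
        simp only [e1]
        rw [lintegral_indicator_const Metric.isClosed_closedBall.measurableSet,
          Measure.restrict_apply Metric.isClosed_closedBall.measurableSet]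
        have h2 : Metric.closedBall x τ ∩ Metric.closedBall z (r + τ) = Metric.closedBall x τ := by
          apply inter_eq_left.2
          apply Metric.closedBall_subset_closedBall'
          have := Metric.mem_closedBall.1 hx
          linarith
        rw [h2, Measure.addHaar_closedBall_center volume x τ]
    _ ≤ ∫⁻ x, ∫⁻ w in Metric.closedBall z (r + τ),
          (Metric.closedBall w τ).indicator ψ x := lintegral_mono' Measure.restrict_le_self le_rfl
    _ = ∫⁻ w in Metric.closedBall z (r + τ), ∫⁻ x, (Metric.closedBall w τ).indicator ψ x :=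
        (lintegral_lintegral_swap hm.aemeasurable).symm
    _ = _ := by
        apply lintegral_congr
        intro w
        exact lintegral_indicator Metric.isClosed_closedBall.measurableSet _

/-- from the balls of radius `τ` to the larger balls -/
theorem mu_large (ψ : E3 → ℝ≥0∞) (hψ : Measurable ψ) {N τ : ℝ} (hN : 0 ≤ N) (hτ : 0 < τ)
    (h : ∀ w, ∫⁻ x in Metric.closedBall w τ, ψ x ≤ ENNReal.ofReal (N * τ ^ 3)) (z : E3) {r : ℝ}
    (hr : τ ≤ r) :
    ∫⁻ x in Metric.closedBall z r, ψ x ≤ ENNReal.ofReal (8 * N * r ^ 3) := by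
  have hr0 : 0 ≤ r := hτ.le.trans hr
  have h1 := mu_avg ψ hψ z r τ
  have h2 : ∫⁻ w in Metric.closedBall z (r + τ), ∫⁻ x in Metric.closedBall w τ, ψ x ≤
      ENNReal.ofReal (N * τ ^ 3) * volume (Metric.closedBall z (r + τ)) := by
    rw [← setLIntegral_const]
    exact lintegral_mono fun w => h w
  have hf : Module.finrank ℝ E3 = 3 := by simp
  rw [Measure.addHaar_closedBall _ _ hτ.le, hf] at h1
  rw [Measure.addHaar_closedBall _ _ (by linarith), hf] at h2
  have hV0 : volume (Metric.ball (0:E3) 1) ≠ 0 :=
    (Metric.measure_ball_pos volume (0:E3) one_pos).ne'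
  have hV1 : volume (Metric.ball (0:E3) 1) ≠ ∞ := measure_ball_lt_top.ne
  have h3 := h1.trans h2
  rw [← mul_assoc, ← mul_assoc, ENNReal.mul_le_mul_iff_left hV0 hV1,
    ← ENNReal.ofReal_mul (by positivity)] at h3
  have e : N * τ ^ 3 * (r + τ) ^ 3 = N * (r + τ) ^ 3 * τ ^ 3 := by ring
  rw [e, ENNReal.ofReal_mul (by positivity), ENNReal.mul_le_mul_iff_left
    (by simp; positivity) ENNReal.ofReal_ne_top] at h3
  refine h3.trans (ENNReal.ofReal_le_ofReal ?_)
  have h4 : (r + τ) ^ 3 ≤ (2 * r) ^ 3 := pow_le_pow_left₀ (by positivity) (by linarith) 3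
  nlinarith [mul_le_mul_of_nonneg_left h4 hN]

theorem mu_meas_sg : Measurable fun p : ℝ × E3 => sg p.1 p.2 := by
  unfold sg
  have : Measurable fun p : ℝ × E3 => p.1 ^ 2 + ‖p.2‖ ^ 2 :=
    (measurable_fst.pow_const 2).add (measurable_snd.norm.pow_const 2)
  exact (this.sqrt).inv

theorem mu_meas_pk : Measurable fun p : ℝ × E3 => pk p.1 p.2 := by
  unfold pk
  exact (measurable_fst.mul (mu_meas_sg.pow_const 4)).const_mul _

/-- joint measurability of the Poisson extension -/
theorem mu_meas_cvf (f : V3) : StronglyMeasurable fun p : E3 × ℝ => cvf (pk p.2) f p.1 := by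
  have hf : StronglyMeasurable (f : E3 → E3) := Lp.stronglyMeasurable f
  have h2 : StronglyMeasurable (Function.uncurry fun (p : E3 × ℝ) (z : E3) =>
      pk p.2 z • f (p.1 - z)) :=
    ((mu_meas_pk.comp ((measurable_snd.comp measurable_fst).prodMk
      measurable_snd)).stronglyMeasurable).smul
      (hf.comp_measurable ((measurable_fst.comp measurable_fst).sub measurable_snd))
  exact h2.integral_prod_right

/-- the density is measurable -/
theorem mu_meas (f : V3) :
    Measurable fun p : E3 × ℝ => ENNReal.ofReal (p.2 * ‖cvf (pk p.2) f p.1‖ ^ 2) :=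
  (measurable_snd.mul ((mu_meas_cvf f).norm.measurable.pow_const 2)).ennreal_ofReal

theorem mu_lintegral (f : V3) (τ : ℝ) (F : E3 × ℝ → ℝ≥0∞) (hF : Measurable F) :
    ∫⁻ p, F p ∂(mu τ f) =
    ∫⁻ y in Ioo 0 τ, ∫⁻ x, ENNReal.ofReal (y * ‖cvf (pk y) f x‖ ^ 2) * F (x, y) := by
  unfold mu
  rw [lintegral_withDensity_eq_lintegral_mul _ (mu_meas f) hF,
    lintegral_prod_symm' _ ((mu_meas f).mul hF)]
  rfl

theorem mu_prod (f : V3) (τ r : ℝ) (A : Set E3) (hA : MeasurableSet A) :
    mu τ f (A ×ˢ Ioc 0 r) = ∫⁻ y in Ioc 0 r ∩ Ioo 0 τ, ∫⁻ x in A,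
      ENNReal.ofReal (y * ‖cvf (pk y) f x‖ ^ 2) := by
  have hm : MeasurableSet (A ×ˢ Ioc (0:ℝ) r) := hA.prod measurableSet_Ioc
  rw [← lintegral_indicator_one hm, mu_lintegral f τ _ (measurable_one.indicator hm),
    ← Measure.restrict_restrict measurableSet_Ioc, ← lintegral_indicator measurableSet_Ioc]
  apply lintegral_congr
  intro y
  by_cases hy : y ∈ Ioc 0 r
  · rw [indicator_of_mem hy, ← lintegral_indicator hA]
    apply lintegral_congr
    intro x
    by_cases hx : x ∈ A
    · rw [indicator_of_mem (mk_mem_prod hx hy), indicator_of_mem hx]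
      simp
    · rw [indicator_of_notMem (fun h => hx h.1), indicator_of_notMem hx, mul_zero]
  · rw [indicator_of_notMem hy]
    have : ∀ x : E3, (A ×ˢ Ioc (0:ℝ) r).indicator (1 : E3 × ℝ → ℝ≥0∞) (x, y) = 0 :=
      fun x => indicator_of_notMem (fun h => hy h.2) _
    simp only [this, mul_zero, lintegral_zero]

theorem mu_ok : SpDK → SpExt → SpMu := by
  intro _ _ f N τ hN hτ hB
  refine ⟨?_, ?_, fun F hF => mu_lintegral f τ F hF⟩
  · refine (withDensity_absolutelyContinuous _ _).ae_le ?_
    refine Measure.quasiMeasurePreserving_snd.ae (p := fun y : ℝ => 0 < y) ?_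
    exact (ae_restrict_mem measurableSet_Ioo).mono fun y hy => hy.1
  · intro z r hr
    have hA : MeasurableSet (Metric.closedBall z r) := Metric.isClosed_closedBall.measurableSet
    rw [mu_prod f τ r _ hA]
    rcases le_total r τ with h | h
    · refine le_trans (lintegral_mono' (Measure.restrict_mono inter_subset_left le_rfl) le_rfl) ?_
      rw [← Measure.restrict_congr_set Ioo_ae_eq_Ioc]
      refine (hB z r hr h).trans (ENNReal.ofReal_le_ofReal ?_)
      have : 0 ≤ N * r ^ 3 := by positivity
      nlinarith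
    · refine le_trans (lintegral_mono' (Measure.restrict_mono inter_subset_right le_rfl) le_rfl) ?_
      have hsw : ∀ w s, ∫⁻ y in Ioo 0 τ, ∫⁻ x in Metric.closedBall w s,
          ENNReal.ofReal (y * ‖cvf (pk y) f x‖ ^ 2) = ∫⁻ x in Metric.closedBall w s,
          ∫⁻ y in Ioo 0 τ, ENNReal.ofReal (y * ‖cvf (pk y) f x‖ ^ 2) := by
        intro w s
        apply lintegral_lintegral_swap
        exact ((mu_meas f).comp measurable_swap).aemeasurable
      rw [hsw]
      refine mu_large _ ?_ hN hτ ?_ z h
      · exact (mu_meas f).lintegral_prod_right'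
      · intro w
        rw [← hsw]
        exact hB w τ hτ le_rfl

end Pool.Agent.TF.D
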