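import Pool.Agent.TF.D.Spec

/-!
# Block D8: the reproducing formula
-/

set_option autoImplicit false

namespace Pool.Agent.TF.D

open MeasureTheory Set Filter Topology Pool.Agent.TO Pool.Agent.TB Pool.Agent.TC Pool.Agent.TP
  Pool.Agent.TF
open scoped ENNReal NNReal Real InnerProductSpace SchwartzMap LineDeriv

namespace Rep

theorem PM_cvO {κ : E3 → ℝ} {L : ℝ} (h : KK κ L) (k j : Fin 3) (f : V3) :
    PM k j (cvO κ f) = cvO κ (PM k j f) := by
  rw [cvO_eq h, PM_cvL h]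

theorem PM_Pp {y : ℝ} (hy : 0 < y) (k j : Fin 3) (f : V3) : PM k j (Pp y f) = Pp y (PM k j f) :=
  PM_cvO (kk_pk hy) k j f

theorem PM_Dp {y : ℝ} (hy : 0 < y) (l k j : Fin 3) (f : V3) :
    PM k j (Dp l y f) = Dp l y (PM k j f) := PM_cvO (kk_dk l hy) k j f

theorem PM_PM (k i j : Fin 3) (f : V3) : PM i j (PM k i f) = PM k j f := by
  apply Lp.ext
  filter_upwards [coe_PM i j (PM k i f), coe_PM k i f, coe_PM k j f] with x h1 h2 h3
  rw [h1, h2, h3]
  simp [ee]

theorem Pp_Dp (j : Fin 3) (s t : ℝ) (f : V3) : Pp s (Dp j t f) = Dp j t (Pp s f) :=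
  cvO_comm _ _ f

theorem Dp_Dp (i j : Fin 3) (s t : ℝ) (f : V3) : Dp i s (Dp j t f) = Dp j t (Dp i s f) :=
  cvO_comm _ _ f

/-- the gradient part does not contribute -/
theorem grad (f φ : V3) (hf : IsDivFree f) (hS : SG) {y δ : ℝ} (hy : 0 < y) (hδ : 0 < δ)
    (k : Fin 3) :
    ∑ i, ⟪PM i i (Pp y f), Dp k (y + δ) (PM k i (Dp i δ φ))⟫_ℝ = 0 := by
  have hyd : 0 < y + δ := by linarith
  set Z : V3 := Pp y (Dp k (y + δ) φ) with hZ
  have h1 : ∀ i, ⟪PM i i (Pp y f), Dp k (y + δ) (PM k i (Dp i δ φ))⟫_ℝ =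
      ⟪Dp i δ Z, PM i k f⟫_ℝ := by
    intro i
    have e1 : Dp k (y + δ) (PM k i (Dp i δ φ)) = PM k i (Dp i δ (Dp k (y + δ) φ)) := by
      rw [← PM_Dp hyd, Dp_Dp k i]
    rw [e1, PM_Pp hy, ← hS.symP y hy, ← PM_Pp hy, Pp_Dp, ← hZ, inner_PM, PM_PM, real_inner_comm]
  simp only [h1]
  exact divfree_ext hf (Q := Pp δ Z) (DQ := fun i => Dp i δ Z) (fun i => weak_Pp i hδ Z) k

/-- the second derivative -/
theorem second (f φ : V3) (hf : IsDivFree f) (hS : SG) {y δ : ℝ} (hy : 0 < y) (hδ : 0 < δ) :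
    ⟪f, YYp (2 * y + (δ + δ)) φ⟫_ℝ =
      -∑ k, ∑ i, ⟪PM i i (Pp y f), Dp k (y + δ) (cu δ φ k i)⟫_ℝ := by
  have hyd : 0 < y + δ := by linarith
  have h0 : YYp (2 * y + (δ + δ)) φ = -∑ k, DDp k k (2 * y + (δ + δ)) φ := by
    rw [sum_DDp (by linarith), neg_neg]
  rw [h0, inner_neg_right, inner_sum]
  congr 1
  apply Finset.sum_congr rfl
  intro k _
  have h1 : DDp k k (2 * y + (δ + δ)) φ = Pp y (Dp k (y + δ) (Dp k δ φ)) := by
    have e : 2 * y + (δ + δ) = (y + δ + y) + δ := by ring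
    rw [e, hS.dd k k _ _ (by linarith) hδ, hS.dp k _ _ hyd hy, ← Pp_Dp]
  rw [h1, hS.symP y hy]
  have h2 : ⟪Pp y f, Dp k (y + δ) (Dp k δ φ)⟫_ℝ =
      ∑ i, ⟪PM i i (Pp y f), Dp k (y + δ) (Dp k δ φ)⟫_ℝ := by
    rw [← sum_inner, sum_PM]
  have h3 : ∀ i, ⟪PM i i (Pp y f), Dp k (y + δ) (Dp k δ φ)⟫_ℝ =
      ⟪PM i i (Pp y f), Dp k (y + δ) (cu δ φ k i)⟫_ℝ +
      ⟪PM i i (Pp y f), Dp k (y + δ) (PM k i (Dp i δ φ))⟫_ℝ := by
    intro i
    rw [← inner_add_right, ← map_add]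
    congr 2
    unfold cu
    rw [sub_add_cancel]
  rw [h2, Finset.sum_congr rfl fun i _ => h3 i, Finset.sum_add_distrib, grad f φ hf hS hy hδ k,
    add_zero]

theorem continuousAt_YYp (hS : SG) (φ : V3) {y : ℝ} (hy : 0 < y) :
    ContinuousAt (fun s => YYp s φ) y := by
  have h1 : ContinuousAt (fun s => Yp (s - y / 2) (Yp (y / 2) φ)) y := by
    have h2 : ContinuousAt (fun s => Yp s (Yp (y / 2) φ)) (y - y / 2) :=
      (deriv_Yp (by linarith) _).continuousAt
    exact ContinuousAt.comp (f := fun s => s - y / 2) (g := fun s => Yp s (Yp (y / 2) φ)) h2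
      (by fun_prop)
  refine h1.congr ?_
  filter_upwards [Ioi_mem_nhds (show y / 2 < y by linarith)] with s hs
  rw [← hS.yy _ _ (by simpa using hs) (by linarith), sub_add_cancel]

end Rep

/-- D8 -/
theorem rep_ok : SpRep := by
  intro hS f φ hf τ δ hτ hδ
  have hpos : ∀ y : ℝ, 0 ≤ y → 0 < 2 * y + (δ + δ) := fun y hy => by linarith
  set N : ℝ → ℝ := fun y => ⟪f, Pp (2 * y + (δ + δ)) φ⟫_ℝ with hN
  set N' : ℝ → ℝ := fun y => 2 * ⟪f, Yp (2 * y + (δ + δ)) φ⟫_ℝ with hN'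
  set N'' : ℝ → ℝ := fun y => 4 * ⟪f, YYp (2 * y + (δ + δ)) φ⟫_ℝ with hN''
  have haff : ∀ y : ℝ, HasDerivAt (fun y : ℝ => 2 * y + (δ + δ)) 2 y := fun y => by
    simpa using ((hasDerivAt_id y).const_mul 2).add_const (δ + δ)
  have d1 : ∀ y, 0 ≤ y → HasDerivAt N (N' y) y := by
    intro y hy
    have h1 := (deriv_Pp (hpos y hy) φ).scomp y (haff y)
    have h2 := ((innerSL ℝ f).hasFDerivAt.comp_hasDerivAt y h1)
    simp only [innerSL_apply_apply, inner_smul_right, Function.comp_def] at h2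
    exact h2
  have d2 : ∀ y, 0 ≤ y → HasDerivAt N' (N'' y) y := by
    intro y hy
    have h1 := (deriv_Yp (hpos y hy) φ).scomp y (haff y)
    have h2 := ((innerSL ℝ f).hasFDerivAt.comp_hasDerivAt y h1).const_mul 2
    simp only [innerSL_apply_apply, inner_smul_right, Function.comp_def] at h2
    have e : N'' y = 2 * (2 * ⟪f, YYp (2 * y + (δ + δ)) φ⟫_ℝ) := by
      rw [hN'']; ring
    rw [e]
    exact h2
  have d3 : ∀ y, 0 ≤ y → HasDerivAt (fun y => y * N' y - N y) (y * N'' y) y := by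
    intro y hy
    have h1 := ((hasDerivAt_id y).mul (d2 y hy)).sub (d1 y hy)
    have e : 1 * N' y + id y * N'' y - N' y = y * N'' y := by
      simp only [id]; ring
    rw [← e]
    exact h1
  have c2 : ContinuousOn (fun y => y * N'' y) (uIcc 0 τ) := by
    rw [uIcc_of_le hτ.le]
    intro y hy
    apply ContinuousAt.continuousWithinAt
    have h1 : ContinuousAt (fun y => YYp (2 * y + (δ + δ)) φ) y :=
      ContinuousAt.comp (f := fun y : ℝ => 2 * y + (δ + δ)) (g := fun s => YYp s φ)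
        (Rep.continuousAt_YYp hS φ (hpos y hy.1)) (by fun_prop)
    exact continuousAt_id.mul (continuousAt_const.mul (continuousAt_const.inner h1))
  have ftc := intervalIntegral.integral_eq_sub_of_hasDerivAt (a := 0) (b := τ)
    (f := fun y => y * N' y - N y) (f' := fun y => y * N'' y)
    (fun y hy => by
      rw [uIcc_of_le hτ.le] at hy
      exact d3 y hy.1) c2.intervalIntegrable
  have hlo : N τ - τ * N' τ = ⟪lo τ f, Pp (δ + δ) φ⟫_ℝ := by
    have h2τ : 0 < 2 * τ := by linarith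
    have hdd : 0 < δ + δ := by linarith
    simp only [hN, hN']
    rw [hS.pp _ _ h2τ hdd, hS.yp _ _ h2τ hdd, hS.symP _ h2τ, hS.symY _ h2τ]
    unfold lo
    rw [inner_sub_left, real_inner_smul_left]
    ring
  have hN0 : N 0 = ⟪f, Pp (δ + δ) φ⟫_ℝ := by simp [hN]
  -- the integrals
  have hint : ∀ k i : Fin 3, IntegrableOn
      (fun y => y * ⟪PM i i (Pp y f), Dp k (y + δ) (cu δ φ k i)⟫_ℝ) (Ioc 0 τ) volume := by
    intro k i
    have hc : ContinuousOn (fun y => y * ⟪PM i i (Pp y f), Dp k (y + δ) (cu δ φ k i)⟫_ℝ)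
        (Ioc 0 τ) := by
      intro y hy
      apply ContinuousAt.continuousWithinAt
      have h1 : ContinuousAt (fun y => PM i i (Pp y f)) y :=
        (PM i i).continuous.continuousAt.comp (deriv_Pp hy.1 f).continuousAt
      have h2 : ContinuousAt (fun y => Dp k (y + δ) (cu δ φ k i)) y :=
        ContinuousAt.comp (f := fun y : ℝ => y + δ) (g := fun s => Dp k s (cu δ φ k i))
          (hS.dyd k _ (by linarith [hy.1]) _).continuousAt (by fun_prop)
      exact continuousAt_id.mul (h1.inner h2)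
    refine Integrable.mono' (g := fun _ => τ * (‖f‖ * (4 / δ * ‖cu δ φ k i‖)))
      (integrableOn_const (by simp)) (hc.aestronglyMeasurable measurableSet_Ioc) ?_
    filter_upwards [ae_restrict_mem measurableSet_Ioc] with y hy
    rw [norm_mul, Real.norm_eq_abs, abs_of_pos hy.1]
    apply mul_le_mul hy.2 _ (norm_nonneg _) hτ.le
    refine (norm_inner_le_norm _ _).trans ?_
    apply mul_le_mul ((norm_PM_le _ _ _).trans (norm_Pp_le hy.1 f)) _ (norm_nonneg _)
      (norm_nonneg _)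
    refine (norm_Dp_le k (by linarith [hy.1] : 0 < y + δ) _).trans ?_
    apply mul_le_mul_of_nonneg_right _ (norm_nonneg _)
    exact div_le_div_of_nonneg_left (by norm_num) hδ (by linarith [hy.1])
  have hI : ∫ y in (0:ℝ)..τ, y * N'' y =
      -(4 * ∑ k, ∑ i, ∫ y in (0:ℝ)..τ, y * ⟪PM i i (Pp y f), Dp k (y + δ) (cu δ φ k i)⟫_ℝ) := by
    simp only [intervalIntegral.integral_of_le hτ.le]
    have h1 : ∫ y in Ioc 0 τ, y * N'' y = ∫ y in Ioc 0 τ,
        (-4) * ∑ k, ∑ i, y * ⟪PM i i (Pp y f), Dp k (y + δ) (cu δ φ k i)⟫_ℝ := by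
      apply setIntegral_congr_fun measurableSet_Ioc
      intro y hy
      simp only [hN'']
      rw [Rep.second f φ hf hS hy.1 hδ]
      simp only [Finset.mul_sum, mul_neg, neg_mul, Finset.sum_neg_distrib]
      congr 1
      apply Finset.sum_congr rfl
      intro k _
      apply Finset.sum_congr rfl
      intro i _
      ring
    rw [h1, integral_const_mul, integral_finsetSum _ fun k _ => integrable_finsetSum _ fun i _ =>
      hint k i]
    rw [neg_mul]
    congr 2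
    apply Finset.sum_congr rfl
    intro k _
    rw [integral_finsetSum _ fun i _ => hint k i]
  rw [hI] at ftc
  simp only [zero_mul, zero_sub, sub_neg_eq_add] at ftc
  rw [← hN0, ← hlo]
  linarith

end Pool.Agent.TF.D
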