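import Pool.Agent.TF.D.Spec
import Pool.Agent.TB.Heat

/-!
# D9a: subordination of the Poisson kernel to the heat kernel
-/

set_option autoImplicit false

namespace Pool.Agent.TF.D

open MeasureTheory Set Filter Topology Pool.Agent.TO Pool.Agent.TB Pool.Agent.TC Pool.Agent.TP
  Pool.Agent.TF
open scoped ENNReal NNReal Real InnerProductSpace SchwartzMap LineDeriv

/-- `∫ s^{-a-1} e^{-b/s} ds = Γ(a) b^{-a}` -/
theorem sb9_int {a b : ℝ} (ha : 0 < a) (hb : 0 < b) :
    ∫ s in Ioi (0:ℝ), s ^ (-a - 1) * Real.exp (-(b / s)) = (1 / b) ^ a * Real.Gamma a := by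
  rw [← Real.integral_rpow_mul_exp_neg_mul_Ioi ha hb,
    ← integral_comp_rpow_Ioi (fun t => t ^ (a - 1) * Real.exp (-(b * t))) (p := -1) (by norm_num)]
  refine setIntegral_congr_fun measurableSet_Ioi fun s hs => ?_
  have hs' : (0:ℝ) < s := hs
  simp only [smul_eq_mul, abs_neg, abs_one, one_mul]
  rw [← Real.rpow_mul hs'.le, ← mul_assoc, ← Real.rpow_add hs', Real.rpow_neg_one]
  congr 2
  ring

theorem sb9_intble {a b : ℝ} (ha : 0 < a) (hb : 0 < b) :
    IntegrableOn (fun s : ℝ => s ^ (-a - 1) * Real.exp (-(b / s))) (Ioi 0) := by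
  by_contra h
  have h1 := sb9_int ha hb
  rw [IntegrableOn] at h
  rw [integral_undef h] at h1
  have := Real.Gamma_pos_of_pos ha
  have : 0 < (1 / b) ^ a * Real.Gamma a := by positivity
  linarith

theorem sb9_pos {y s : ℝ} (hy : 0 < y) (hs : 0 < s) : 0 < sb y s := by
  have hp := Real.pi_pos
  unfold sb
  positivity

theorem sb9_eq {y s : ℝ} (hs : 0 < s) :
    sb y s = y / (2 * √π) * (s ^ (-(1 / 2 : ℝ) - 1) * Real.exp (-(y ^ 2 / 4 / s))) := by
  have hp : 0 < √π := Real.sqrt_pos.2 Real.pi_pos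
  have e : s ^ (-(1 / 2 : ℝ) - 1) = (s ^ (3 / 2 : ℝ))⁻¹ := by
    rw [← Real.rpow_neg hs.le]
    norm_num
  have e2 : y ^ 2 / 4 / s = y ^ 2 / (4 * s) := by field_simp
  unfold sb
  rw [e, e2]
  field_simp

theorem sb9_1 {y : ℝ} (hy : 0 < y) : IntegrableOn (sb y) (Ioi 0) ∧ ∫ s in Ioi (0:ℝ), sb y s = 1 := by
  have hp : 0 < √π := Real.sqrt_pos.2 Real.pi_pos
  constructor
  · have h := (sb9_intble (a := 1 / 2) (b := y ^ 2 / 4) (by norm_num) (by positivity)).const_mul
      (y / (2 * √π))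
    refine IntegrableOn.congr_fun h (fun s hs => ?_) measurableSet_Ioi
    exact (sb9_eq hs).symm
  · rw [setIntegral_congr_fun measurableSet_Ioi (g := fun s => y / (2 * √π) *
      (s ^ (-(1 / 2 : ℝ) - 1) * Real.exp (-(y ^ 2 / 4 / s)))) (fun s hs => sb9_eq hs),
      integral_const_mul, sb9_int (by norm_num) (by positivity), Real.Gamma_one_half_eq]
    have e : (1 / (y ^ 2 / 4)) ^ (1 / 2 : ℝ) = 2 / y := by
      rw [← Real.sqrt_eq_rpow]
      have : 1 / (y ^ 2 / 4) = (2 / y) ^ 2 := by field_simp; norm_num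
      rw [this, Real.sqrt_sq (by positivity)]
    rw [e]
    field_simp

/-- the second Gaussian moment -/
theorem sb9_mom {s : ℝ} (hs : 0 < s) :
    ∫ y in Ioi (0:ℝ), y ^ (2:ℝ) * Real.exp (-(1 / (4 * s)) * y ^ (2:ℝ)) = 2 * √π * s ^ (3 / 2 : ℝ) := by
  rw [integral_rpow_mul_exp_neg_mul_rpow (by norm_num) (by norm_num) (by positivity)]
  have e1 : Real.Gamma ((2 + 1) / 2) = √π / 2 := by
    have : ((2:ℝ) + 1) / 2 = 1 / 2 + 1 := by norm_num
    rw [this, Real.Gamma_add_one (by norm_num), Real.Gamma_one_half_eq]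
    ring
  have e2 : (1 / (4 * s)) ^ (-((2:ℝ) + 1) / 2) = 8 * s ^ (3 / 2 : ℝ) := by
    have h1 : -((2:ℝ) + 1) / 2 = -(3 / 2) := by norm_num
    rw [h1, Real.rpow_neg (by positivity), one_div, Real.inv_rpow (by positivity), inv_inv,
      Real.mul_rpow (by norm_num) hs.le]
    have h2 : (4:ℝ) ^ (3 / 2 : ℝ) = 8 := by
      have : (4:ℝ) = 2 ^ (2:ℝ) := by norm_num
      rw [this, ← Real.rpow_mul (by norm_num)]
      norm_num
    rw [h2]
  rw [e1, e2]
  ring

theorem sb9_4 {r s : ℝ} (hr : 0 < r) (hs : 0 < s) :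
    ∫⁻ y in Ioo 0 r, ENNReal.ofReal (y * sb y s) ≤ 1 ∧
    ∫⁻ y in Ioo 0 r, ENNReal.ofReal (y * sb y s) ≤ ENNReal.ofReal (r ^ 3 / s ^ (3 / 2 : ℝ)) := by
  have hp : 0 < √π := Real.sqrt_pos.2 Real.pi_pos
  have hs3 : 0 < s ^ (3 / 2 : ℝ) := Real.rpow_pos_of_pos hs _
  constructor
  · have hm := sb9_mom hs
    have hi : IntegrableOn (fun y : ℝ => y ^ (2:ℝ) * Real.exp (-(1 / (4 * s)) * y ^ (2:ℝ))) (Ioi 0) := by
      by_contra h
      rw [IntegrableOn] at h
      rw [integral_undef h] at hm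
      have : 0 < 2 * √π * s ^ (3 / 2 : ℝ) := by positivity
      linarith
    calc ∫⁻ y in Ioo 0 r, ENNReal.ofReal (y * sb y s)
        ≤ ∫⁻ y in Ioi 0, ENNReal.ofReal (y * sb y s) :=
          lintegral_mono_set Ioo_subset_Ioi_self
      _ = ∫⁻ y in Ioi 0, ENNReal.ofReal ((2 * √π * s ^ (3 / 2 : ℝ))⁻¹ *
          (y ^ (2:ℝ) * Real.exp (-(1 / (4 * s)) * y ^ (2:ℝ)))) := by
          refine setLIntegral_congr_fun measurableSet_Ioi fun y hy => ?_
          have hy' : (0:ℝ) < y := hy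
          congr 1
          unfold sb
          rw [Real.rpow_two]
          have : -(y ^ 2 / (4 * s)) = -(1 / (4 * s)) * y ^ 2 := by ring
          rw [this]
          ring
      _ = ENNReal.ofReal (∫ y in Ioi (0:ℝ), (2 * √π * s ^ (3 / 2 : ℝ))⁻¹ *
          (y ^ (2:ℝ) * Real.exp (-(1 / (4 * s)) * y ^ (2:ℝ)))) := by
          rw [ofReal_integral_eq_lintegral_ofReal (hi.const_mul _)]
          filter_upwards [ae_restrict_mem measurableSet_Ioi] with y hy
          have hy' : (0:ℝ) < y := hy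
          simp only [Pi.zero_apply]
          positivity
      _ = 1 := by
          rw [integral_const_mul, hm, inv_mul_cancel₀ (by positivity), ENNReal.ofReal_one]
      _ ≤ 1 := le_rfl
  · calc ∫⁻ y in Ioo 0 r, ENNReal.ofReal (y * sb y s)
        ≤ ∫⁻ y in Ioo 0 r, ENNReal.ofReal (r ^ 2 / s ^ (3 / 2 : ℝ)) := by
          refine setLIntegral_mono measurable_const fun y hy => ?_
          apply ENNReal.ofReal_le_ofReal
          have h0 := hy.1
          have h1 := hy.2
          have he : Real.exp (-(y ^ 2 / (4 * s))) ≤ 1 := by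
            rw [Real.exp_le_one_iff]
            have : 0 ≤ y ^ 2 / (4 * s) := by positivity
            linarith
          have hpi : 1 ≤ 2 * √π := by
            have : 1 ≤ √π := by
              rw [Real.one_le_sqrt]
              linarith [Real.pi_gt_three]
            linarith
          unfold sb
          calc y * (y / (2 * √π * s ^ (3 / 2 : ℝ)) * Real.exp (-(y ^ 2 / (4 * s))))
              ≤ y * (y / (1 * s ^ (3 / 2 : ℝ)) * 1) := by gcongr
            _ = y ^ 2 / s ^ (3 / 2 : ℝ) := by ring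
            _ ≤ r ^ 2 / s ^ (3 / 2 : ℝ) := by gcongr
      _ = ENNReal.ofReal (r ^ 3 / s ^ (3 / 2 : ℝ)) := by
          rw [setLIntegral_const, Real.volume_Ioo, sub_zero, ← ENNReal.ofReal_mul (by positivity)]
          congr 1
          ring

/-! ### the kernel identity -/

/-- the constant `1 / π²` -/
noncomputable def sb9_c : ℝ := 16 * ((2 * √π)⁻¹ * (4 * π) ^ (-(3 / 2) : ℝ))

theorem sb9_mul {y s : ℝ} (hs : 0 < s) (z : E3) :
    sb y s * hk s z = (y * ((2 * √π)⁻¹ * (4 * π) ^ (-(3 / 2) : ℝ))) *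
      (s ^ (-(2:ℝ) - 1) * Real.exp (-((y ^ 2 + ‖z‖ ^ 2) / 4 / s))) := by
  have hp := Real.pi_pos
  rw [sb9_eq hs, hk, Real.mul_rpow (by positivity) hs.le]
  have e1 : s ^ (-(2:ℝ) - 1) = s ^ (-(1 / 2 : ℝ) - 1) * s ^ (-(3 / 2) : ℝ) := by
    rw [← Real.rpow_add hs]
    norm_num
  have e2 : Real.exp (-((y ^ 2 + ‖z‖ ^ 2) / 4 / s)) =
      Real.exp (-(y ^ 2 / 4 / s)) * Real.exp (-‖z‖ ^ 2 / (4 * s)) := by
    rw [← Real.exp_add]
    congr 1
    field_simp
    ring
  rw [e1, e2]
  ring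

theorem sb9_ker {y : ℝ} (hy : 0 < y) (z : E3) :
    IntegrableOn (fun s => sb y s * hk s z) (Ioi 0) ∧
    ∫ s in Ioi (0:ℝ), sb y s * hk s z = sb9_c * (y * sg y z ^ 4) := by
  have hb : 0 < (y ^ 2 + ‖z‖ ^ 2) / 4 := by positivity
  constructor
  · have h := (sb9_intble (a := 2) (by norm_num) hb).const_mul
      (y * ((2 * √π)⁻¹ * (4 * π) ^ (-(3 / 2) : ℝ)))
    exact IntegrableOn.congr_fun h (fun s hs => (sb9_mul hs z).symm) measurableSet_Ioi
  · rw [setIntegral_congr_fun measurableSet_Ioi (fun s hs => sb9_mul hs z), integral_const_mul,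
      sb9_int (by norm_num) hb, Real.Gamma_two]
    have h1 := sg_sq hy z
    have h2 : (1 / ((y ^ 2 + ‖z‖ ^ 2) / 4)) ^ (2:ℝ) = 16 * sg y z ^ 4 := by
      rw [Real.rpow_two]
      have h3 : 1 / ((y ^ 2 + ‖z‖ ^ 2) / 4) = 4 * sg y z ^ 2 := by
        have : y ^ 2 + ‖z‖ ^ 2 ≠ 0 := by positivity
        field_simp
        linarith
      rw [h3]
      ring
    rw [h2]
    unfold sb9_c
    ring

theorem sb9_meas (y : ℝ) : Measurable (Function.uncurry fun (s : ℝ) (z : E3) => sb y s * hk s z) := by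
  unfold sb hk Function.uncurry
  fun_prop

theorem sb9_meas_sb (y : ℝ) : Measurable (sb y) := by
  unfold sb
  fun_prop

theorem sb9_lint {y : ℝ} (hy : 0 < y) : ∫⁻ s in Ioi (0:ℝ), ENNReal.ofReal (sb y s) = 1 := by
  rw [← ofReal_integral_eq_lintegral_ofReal (sb9_1 hy).1, (sb9_1 hy).2, ENNReal.ofReal_one]
  filter_upwards [ae_restrict_mem measurableSet_Ioi] with s hs
  exact (sb9_pos hy hs).le

theorem sb9_lker {y : ℝ} (hy : 0 < y) (z : E3) :
    ∫⁻ s in Ioi (0:ℝ), ENNReal.ofReal (sb y s * hk s z) =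
      ENNReal.ofReal (sb9_c * (y * sg y z ^ 4)) := by
  rw [← (sb9_ker hy z).2, ofReal_integral_eq_lintegral_ofReal (sb9_ker hy z).1]
  filter_upwards [ae_restrict_mem measurableSet_Ioi] with s hs
  exact (mul_pos (sb9_pos hy hs) (hk_pos hs z)).le

theorem sb9_c_pos : 0 < sb9_c := by
  have := Real.pi_pos
  unfold sb9_c
  positivity

theorem sb9_c_eq : sb9_c = (JJ 4)⁻¹ := by
  have hy : (0:ℝ) < 1 := one_pos
  have h1 : ∫⁻ z : E3, ∫⁻ s in Ioi (0:ℝ), ENNReal.ofReal (sb 1 s * hk s z) = 1 := by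
    rw [lintegral_lintegral_swap]
    · rw [← sb9_lint hy]
      refine setLIntegral_congr_fun measurableSet_Ioi fun s hs => ?_
      simp only [ENNReal.ofReal_mul (sb9_pos hy hs).le]
      rw [lintegral_const_mul _ (meas_hk s), lintegral_hk hs, mul_one]
    · exact ((sb9_meas 1).ennreal_ofReal.comp measurable_swap).aemeasurable
  simp only [sb9_lker hy] at h1
  rw [← ofReal_integral_eq_lintegral_ofReal, integral_const_mul, integral_const_mul,
    integral_sg hy] at h1
  · have h2 := congrArg ENNReal.toReal h1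
    have hJ := JJ_pos (n := 4) le_rfl
    have hc := sb9_c_pos
    rw [ENNReal.toReal_ofReal (by positivity), ENNReal.toReal_one] at h2
    apply eq_inv_of_mul_eq_one_left
    rw [← h2]
    ring
  · exact ((integrable_sg hy le_rfl).const_mul _).const_mul _
  · refine Eventually.of_forall fun z => ?_
    have := sg_pos hy z
    have hc := sb9_c_pos
    simp only [Pi.zero_apply]
    positivity

theorem sb9_pk {y : ℝ} (hy : 0 < y) (z : E3) :
    ∫ s in Ioi (0:ℝ), sb y s * hk s z = pk y z := by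
  rw [(sb9_ker hy z).2, sb9_c_eq, pk]

theorem sb9_lpk {y : ℝ} (hy : 0 < y) (z : E3) :
    ∫⁻ s in Ioi (0:ℝ), ENNReal.ofReal (sb y s * hk s z) = ENNReal.ofReal (pk y z) := by
  rw [sb9_lker hy z, sb9_c_eq, pk]

/-! ### subordination -/

theorem sb9_heatF (s : ℝ) (f : V3) (x : E3) : heatF s f x = ∫ z, hk s z • f (x - z) := rfl

theorem sb9_smeas (f : V3) (x : E3) :
    StronglyMeasurable (Function.uncurry fun (s : ℝ) (z : E3) => hk s z • f (x - z)) := by
  have h1 : Measurable (Function.uncurry fun (s : ℝ) (z : E3) => hk s z) := by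
    unfold hk Function.uncurry
    fun_prop
  exact h1.stronglyMeasurable.smul ((Lp.stronglyMeasurable f).comp_measurable
    (measurable_const.sub measurable_snd))

theorem sb9_meas_heatF (f : V3) (x : E3) : StronglyMeasurable fun s => heatF s f x := by
  have h := (sb9_smeas f x).integral_prod_right (ν := (volume : Measure E3))
  exact h

theorem sb9_2 {y : ℝ} (hy : 0 < y) (f : V3) (x : E3) :
    cvf (pk y) f x = ∫ s in Ioi (0:ℝ), sb y s • heatF s f x := by
  have e1 : cvf (pk y) f x = ∫ z : E3, ∫ s in Ioi (0:ℝ), (sb y s * hk s z) • f (x - z) := by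
    unfold cvf
    congr 1
    ext1 z
    rw [← sb9_pk hy z, integral_smul_const]
  have hm : StronglyMeasurable (Function.uncurry fun (s : ℝ) (z : E3) =>
      (sb y s * hk s z) • f (x - z)) :=
    (sb9_meas y).stronglyMeasurable.smul ((Lp.stronglyMeasurable f).comp_measurable
    (measurable_const.sub measurable_snd))
  have hint : Integrable (Function.uncurry fun (z : E3) (s : ℝ) => (sb y s * hk s z) • f (x - z))
      ((volume : Measure E3).prod (volume.restrict (Ioi (0:ℝ)))) := by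
    have hm' : StronglyMeasurable (Function.uncurry fun (z : E3) (s : ℝ) =>
        (sb y s * hk s z) • f (x - z)) :=
      ((sb9_meas y).comp measurable_swap).stronglyMeasurable.smul
        ((Lp.stronglyMeasurable f).comp_measurable (measurable_const.sub measurable_fst))
    refine ⟨hm'.aestronglyMeasurable, ?_⟩
    rw [hasFiniteIntegral_iff_enorm, lintegral_prod _ hm'.enorm.aemeasurable]
    have h2 := (integrable_cvf (kk_pk hy) (Lp.stronglyMeasurable f) (lintegral_sq_lt f) x).2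
    rw [hasFiniteIntegral_iff_enorm] at h2
    refine lt_of_le_of_lt (lintegral_mono fun z => ?_) h2
    simp only [Function.uncurry_apply_pair, enorm_smul]
    rw [lintegral_mul_const']
    · gcongr
      have h3 := sb9_lpk hy z
      have h4 : ‖pk y z‖ₑ = ENNReal.ofReal (pk y z) := by
        rw [Real.enorm_eq_ofReal (pk_nonneg hy z)]
      rw [h4, ← h3]
      refine le_of_eq (setLIntegral_congr_fun measurableSet_Ioi fun s hs => ?_)
      rw [Real.enorm_eq_ofReal (mul_pos (sb9_pos hy hs) (hk_pos hs z)).le]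
    · exact enorm_ne_top
  rw [e1, integral_integral_swap hint]
  congr 1
  ext1 s
  rw [sb9_heatF, ← integral_smul]
  congr 1
  ext1 z
  rw [mul_smul]

theorem sb9_3 {y : ℝ} (hy : 0 < y) (f : V3) (x : E3) :
    ENNReal.ofReal (‖cvf (pk y) f x‖ ^ 2) ≤
      ∫⁻ s in Ioi (0:ℝ), ENNReal.ofReal (sb y s) * ‖heatF s f x‖ₑ ^ 2 := by
  have h1 : ‖cvf (pk y) f x‖ₑ ≤ ∫⁻ s in Ioi (0:ℝ), ENNReal.ofReal (sb y s) * ‖heatF s f x‖ₑ := by
    rw [sb9_2 hy]
    refine (enorm_integral_le_lintegral_enorm _).trans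
      (le_of_eq (setLIntegral_congr_fun measurableSet_Ioi fun s hs => ?_))
    rw [enorm_smul, Real.enorm_eq_ofReal (sb9_pos hy hs).le]
  have h2 := cs_weight (μ := volume.restrict (Ioi (0:ℝ))) (k := fun s => ENNReal.ofReal (sb y s))
    (g := fun s => ‖heatF s f x‖ₑ) (sb9_meas_sb y).ennreal_ofReal.aemeasurable
    (sb9_meas_heatF f x).enorm.aemeasurable
  rw [sb9_lint hy, one_mul] at h2
  rw [ENNReal.ofReal_pow (norm_nonneg _), ofReal_norm]
  exact (pow_le_pow_left₀ zero_le h1 2).trans h2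

theorem sb_ok : SpSb :=
  ⟨fun _ hy => sb9_1 hy, fun _ f x hy => sb9_2 hy f x, fun _ f x hy => sb9_3 hy f x,
    fun _ _ hr hs => sb9_4 hr hs⟩

end Pool.Agent.TF.D
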