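import Mathlib

/-!
# Project TF, block D: the Stein-Weiss inequality for harmonic gradient systems (helper79)

* `sw_alg`: a symmetric matrix of trace zero of size four satisfies
  `|M v|² ≤ (3/4) |M|² |v|²`; `sw_alg_sum`: the same for several systems.
* `sw_d1`, `sw_d2`: first and second derivative of `(∑ v_b² + k)^s` in one direction.
* `sw_lap_third`, `sw_lap_half`: the sum of the four second derivatives for `s = 1/3`, `s = 1/2`.
-/

set_option autoImplicit false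
set_option maxHeartbeats 400000

namespace Pool.Agent.TF

open Set Filter Topology

/-! ### Algebra -/

/-- Stein-Weiss: `|M v|² ≤ (3/4) |M|² |v|²` -/
theorem sw_alg (M : Fin 4 → Fin 4 → ℝ) (hs : ∀ a b, M a b = M b a) (ht : ∑ a, M a a = 0)
    (v : Fin 4 → ℝ) :
    ∑ a, (∑ b, M a b * v b) ^ 2 ≤ 3 / 4 * (∑ a, ∑ b, M a b ^ 2) * ∑ b, v b ^ 2 := by
  obtain ⟨w, hw⟩ : ∃ w : Fin 4 → ℝ, ∀ a, w a = ∑ b, M a b * v b := ⟨_, fun _ => rfl⟩
  obtain ⟨V, hV⟩ : ∃ V : ℝ, V = ∑ b, v b ^ 2 := ⟨_, rfl⟩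
  obtain ⟨W, hW⟩ : ∃ W : ℝ, W = ∑ b, w b ^ 2 := ⟨_, rfl⟩
  obtain ⟨α, hα⟩ : ∃ α : ℝ, α = ∑ b, v b * w b := ⟨_, rfl⟩
  obtain ⟨Q, hQ⟩ : ∃ Q : ℝ, Q = ∑ a, ∑ b, M a b ^ 2 := ⟨_, rfl⟩
  have hV0 : 0 ≤ V := by rw [hV]; exact Finset.sum_nonneg fun b _ => sq_nonneg _
  have hW0 : 0 ≤ W := by rw [hW]; exact Finset.sum_nonneg fun b _ => sq_nonneg _
  have hQ0 : 0 ≤ Q := by
    rw [hQ]; exact Finset.sum_nonneg fun b _ => Finset.sum_nonneg fun a _ => sq_nonneg _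
  have hcs : α ^ 2 ≤ V * W := by
    rw [hα, hV, hW]
    exact Finset.sum_mul_sq_le_sq_mul_sq _ _ _
  have hgoal : ∑ a, (∑ b, M a b * v b) ^ 2 = W := by
    rw [hW]
    exact Finset.sum_congr rfl fun a _ => by rw [hw]
  rw [hgoal, ← hV, ← hQ]
  rcases eq_or_lt_of_le hV0 with h0 | hVp
  · have hv : ∀ b, v b = 0 := by
      intro b
      have h1 := (Finset.sum_eq_zero_iff_of_nonneg (fun b _ => sq_nonneg (v b))).1
        (hV.symm.trans h0.symm) b (Finset.mem_univ b)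
      exact pow_eq_zero_iff (two_ne_zero) |>.1 h1
    have hw0 : ∀ b, w b = 0 := by
      intro b
      rw [hw]
      exact Finset.sum_eq_zero fun c _ => by rw [hv, mul_zero]
    have : W = 0 := by
      rw [hW]
      exact Finset.sum_eq_zero fun c _ => by rw [hw0]; ring
    rw [this, ← h0, mul_zero]
  -- the pairing with the test matrix
  have hpair : ∀ p q r : ℝ, ∑ a, ∑ b, M a b * (p * (v a * w b + w a * v b) - q * (v a * v b) -
      r * (if a = b then 1 else 0)) = 2 * p * W - q * α := by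
    intro p q r
    have e1 : ∑ a, ∑ b, M a b * (v a * w b) = W := by
      rw [Finset.sum_comm, hW]
      refine Finset.sum_congr rfl fun b _ => ?_
      have : ∑ a, M a b * (v a * w b) = (∑ a, M b a * v a) * w b := by
        rw [Finset.sum_mul]
        exact Finset.sum_congr rfl fun a _ => by rw [hs a b]; ring
      rw [this, ← hw b]; ring
    have e2 : ∑ a, ∑ b, M a b * (w a * v b) = W := by
      rw [hW]
      refine Finset.sum_congr rfl fun a _ => ?_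
      have : ∑ b, M a b * (w a * v b) = w a * (∑ b, M a b * v b) := by
        rw [Finset.mul_sum]
        exact Finset.sum_congr rfl fun b _ => by ring
      rw [this, ← hw a]; ring
    have e3 : ∑ a, ∑ b, M a b * (v a * v b) = α := by
      rw [hα]
      refine Finset.sum_congr rfl fun a _ => ?_
      have : ∑ b, M a b * (v a * v b) = v a * (∑ b, M a b * v b) := by
        rw [Finset.mul_sum]
        exact Finset.sum_congr rfl fun b _ => by ring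
      rw [this, ← hw a]
    have e4 : ∑ a, ∑ b, M a b * (if a = b then (1 : ℝ) else 0) = 0 := by
      refine (Finset.sum_congr rfl fun a _ => ?_).trans ht
      simp
    calc ∑ a, ∑ b, M a b * (p * (v a * w b + w a * v b) - q * (v a * v b) -
          r * (if a = b then 1 else 0))
        = p * (∑ a, ∑ b, M a b * (v a * w b)) + p * (∑ a, ∑ b, M a b * (w a * v b)) -
          q * (∑ a, ∑ b, M a b * (v a * v b)) -
          r * (∑ a, ∑ b, M a b * (if a = b then (1 : ℝ) else 0)) := by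
          simp only [Finset.mul_sum, ← Finset.sum_add_distrib, ← Finset.sum_sub_distrib]
          exact Finset.sum_congr rfl fun a _ => Finset.sum_congr rfl fun b _ => by ring
      _ = _ := by rw [e1, e2, e3, e4]; ring
  have hsq : ∀ p q r : ℝ, ∑ a, ∑ b, (p * (v a * w b + w a * v b) - q * (v a * v b) -
      r * (if a = b then 1 else 0)) ^ 2 = p ^ 2 * (2 * (V * W) + 2 * α ^ 2) + q ^ 2 * V ^ 2 +
        4 * r ^ 2 - 4 * p * q * (α * V) - 4 * p * r * α + 2 * q * r * V := by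
    intro p q r
    rw [hα, hV, hW]
    simp only [Fin.sum_univ_four]
    simp only [Fin.isValue, if_true, show ((0 : Fin 4) = 1) = False by decide,
      show ((0 : Fin 4) = 2) = False by decide, show ((0 : Fin 4) = 3) = False by decide,
      show ((1 : Fin 4) = 0) = False by decide, show ((1 : Fin 4) = 2) = False by decide,
      show ((1 : Fin 4) = 3) = False by decide, show ((2 : Fin 4) = 0) = False by decide,
      show ((2 : Fin 4) = 1) = False by decide, show ((2 : Fin 4) = 3) = False by decide,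
      show ((3 : Fin 4) = 0) = False by decide, show ((3 : Fin 4) = 1) = False by decide,
      show ((3 : Fin 4) = 2) = False by decide, if_false]
    ring
  have hmain : ∀ p q r : ℝ, 0 ≤ Q - 2 * (2 * p * W - q * α) +
      (p ^ 2 * (2 * (V * W) + 2 * α ^ 2) + q ^ 2 * V ^ 2 +
        4 * r ^ 2 - 4 * p * q * (α * V) - 4 * p * r * α + 2 * q * r * V) := by
    intro p q r
    rw [← hpair p q r, ← hsq p q r, hQ]
    have e : (∑ a, ∑ b, M a b ^ 2) - 2 * (∑ a, ∑ b, M a b * (p * (v a * w b + w a * v b) -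
        q * (v a * v b) - r * (if a = b then 1 else 0))) +
        (∑ a, ∑ b, (p * (v a * w b + w a * v b) - q * (v a * v b) -
          r * (if a = b then 1 else 0)) ^ 2) =
        ∑ a, ∑ b, (M a b - (p * (v a * w b + w a * v b) - q * (v a * v b) -
          r * (if a = b then 1 else 0))) ^ 2 := by
      simp only [Finset.mul_sum, ← Finset.sum_add_distrib, ← Finset.sum_sub_distrib]
      exact Finset.sum_congr rfl fun a _ => Finset.sum_congr rfl fun b _ => by ring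
    rw [e]
    exact Finset.sum_nonneg fun a _ => Finset.sum_nonneg fun b _ => sq_nonneg _
  have h1 := hmain (1 / V) (2 / 3 * α / V ^ 2) (α / (3 * V))
  have h2 : Q - 2 * (2 * (1 / V) * W - 2 / 3 * α / V ^ 2 * α) +
      ((1 / V) ^ 2 * (2 * (V * W) + 2 * α ^ 2) + (2 / 3 * α / V ^ 2) ^ 2 * V ^ 2 +
        4 * (α / (3 * V)) ^ 2 - 4 * (1 / V) * (2 / 3 * α / V ^ 2) * (α * V) -
        4 * (1 / V) * (α / (3 * V)) * α + 2 * (2 / 3 * α / V ^ 2) * (α / (3 * V)) * V) =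
      Q - (2 * (V * W) - 2 / 3 * α ^ 2) / V ^ 2 := by
    field_simp
    ring
  rw [h2, sub_nonneg, div_le_iff₀ (by positivity)] at h1
  have h3 : 4 / 3 * (V * W) ≤ Q * V ^ 2 := by linarith
  have h4 : V * (4 / 3 * W) ≤ V * (Q * V) := by
    calc V * (4 / 3 * W) = 4 / 3 * (V * W) := by ring
      _ ≤ _ := h3
      _ = _ := by ring
  have h5 := le_of_mul_le_mul_left h4 hVp
  linarith

/-- Stein-Weiss for several systems -/
theorem sw_alg_sum {ι : Type*} [Fintype ι] (M : ι → Fin 4 → Fin 4 → ℝ)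
    (hs : ∀ c a b, M c a b = M c b a) (ht : ∀ c, ∑ a, M c a a = 0) (v : ι → Fin 4 → ℝ) :
    ∑ a, (∑ c, ∑ b, M c a b * v c b) ^ 2 ≤
      3 / 4 * (∑ c, ∑ a, ∑ b, M c a b ^ 2) * ∑ c, ∑ b, v c b ^ 2 := by
  obtain ⟨m, hm⟩ : ∃ m : ι → ℝ, ∀ c, m c = √(∑ a, ∑ b, M c a b ^ 2) := ⟨_, fun _ => rfl⟩
  obtain ⟨n, hn⟩ : ∃ n : ι → ℝ, ∀ c, n c = √(∑ b, v c b ^ 2) := ⟨_, fun _ => rfl⟩
  have hm2 : ∀ c, m c ^ 2 = ∑ a, ∑ b, M c a b ^ 2 := fun c => by
    rw [hm, Real.sq_sqrt (Finset.sum_nonneg fun a _ => Finset.sum_nonneg fun b _ => sq_nonneg _)]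
  have hn2 : ∀ c, n c ^ 2 = ∑ b, v c b ^ 2 := fun c => by
    rw [hn, Real.sq_sqrt (Finset.sum_nonneg fun b _ => sq_nonneg _)]
  have hm0 : ∀ c, 0 ≤ m c := fun c => by rw [hm]; exact Real.sqrt_nonneg _
  have hn0 : ∀ c, 0 ≤ n c := fun c => by rw [hn]; exact Real.sqrt_nonneg _
  obtain ⟨w, hw⟩ : ∃ w : ι → Fin 4 → ℝ, ∀ c a, w c a = ∑ b, M c a b * v c b :=
    ⟨_, fun _ _ => rfl⟩
  have hwc : ∀ c, ∑ a, w c a ^ 2 ≤ 3 / 4 * (m c * n c) ^ 2 := by
    intro c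
    have h1 := sw_alg (M c) (hs c) (ht c) (v c)
    rw [mul_pow, hm2, hn2, ← mul_assoc]
    refine le_trans (le_of_eq ?_) h1
    exact Finset.sum_congr rfl fun a _ => by rw [hw]
  -- the cross terms
  have hcross : ∀ c d, ∑ a, w c a * w d a ≤ 3 / 4 * ((m c * n c) * (m d * n d)) := by
    intro c d
    have h1 : (∑ a, w c a * w d a) ^ 2 ≤ (∑ a, w c a ^ 2) * ∑ a, w d a ^ 2 :=
      Finset.sum_mul_sq_le_sq_mul_sq _ _ _
    have h2 : (∑ a, w c a * w d a) ^ 2 ≤ (3 / 4 * ((m c * n c) * (m d * n d))) ^ 2 := by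
      calc (∑ a, w c a * w d a) ^ 2 ≤ (∑ a, w c a ^ 2) * ∑ a, w d a ^ 2 := h1
        _ ≤ (3 / 4 * (m c * n c) ^ 2) * (3 / 4 * (m d * n d) ^ 2) :=
            mul_le_mul (hwc c) (hwc d) (Finset.sum_nonneg fun a _ => sq_nonneg _)
              (by positivity)
        _ = _ := by ring
    have h3 : 0 ≤ 3 / 4 * ((m c * n c) * (m d * n d)) := by
      have := mul_nonneg (mul_nonneg (hm0 c) (hn0 c)) (mul_nonneg (hm0 d) (hn0 d))
      linarith
    exact abs_le_of_sq_le_sq' h2 h3 |>.2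
  have hexp : ∑ a, (∑ c, ∑ b, M c a b * v c b) ^ 2 = ∑ c, ∑ d, ∑ a, w c a * w d a := by
    calc ∑ a, (∑ c, ∑ b, M c a b * v c b) ^ 2 = ∑ a, (∑ c, w c a) ^ 2 := by
          refine Finset.sum_congr rfl fun a _ => ?_
          rw [Finset.sum_congr rfl fun c _ => (hw c a).symm]
      _ = ∑ a, ∑ c, ∑ d, w c a * w d a := by
          refine Finset.sum_congr rfl fun a _ => ?_
          rw [sq, Finset.sum_mul_sum]
      _ = _ := by
          rw [Finset.sum_comm]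
          refine Finset.sum_congr rfl fun c _ => ?_
          rw [Finset.sum_comm]
  rw [hexp]
  calc ∑ c, ∑ d, ∑ a, w c a * w d a ≤ ∑ c, ∑ d, 3 / 4 * ((m c * n c) * (m d * n d)) :=
        Finset.sum_le_sum fun c _ => Finset.sum_le_sum fun d _ => hcross c d
    _ = 3 / 4 * (∑ c, m c * n c) ^ 2 := by
        rw [sq, Finset.sum_mul_sum, Finset.mul_sum]
        exact Finset.sum_congr rfl fun c _ => by rw [Finset.mul_sum]
    _ ≤ 3 / 4 * ((∑ c, m c ^ 2) * ∑ c, n c ^ 2) :=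
        mul_le_mul_of_nonneg_left (Finset.sum_mul_sq_le_sq_mul_sq _ _ _) (by norm_num)
    _ = _ := by
        rw [Finset.sum_congr rfl fun c _ => hm2 c, Finset.sum_congr rfl fun c _ => hn2 c]
        ring

/-! ### Calculus in one direction -/

section calculus

variable {β : Type*} [Fintype β]

/-- the first derivative of `(∑ v_b² + k)^s` -/
theorem sw_d1 {v v' : β → ℝ → ℝ} {t k : ℝ} (hk : 0 < k) (s : ℝ)
    (h1 : ∀ b, HasDerivAt (v b) (v' b t) t) :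
    HasDerivAt (fun τ => (∑ b, v b τ ^ 2 + k) ^ s)
      (s * (∑ b, v b t ^ 2 + k) ^ (s - 1) * (2 * ∑ b, v b t * v' b t)) t := by
  have hu : 0 < ∑ b, v b t ^ 2 + k := by
    have : 0 ≤ ∑ b, v b t ^ 2 := Finset.sum_nonneg fun b _ => sq_nonneg _
    linarith
  have h2 : HasDerivAt (fun τ => ∑ b, v b τ ^ 2 + k) (2 * ∑ b, v b t * v' b t) t := by
    have h3 : HasDerivAt (fun τ => ∑ b, v b τ ^ 2) (∑ b, 2 * (v b t * v' b t)) t := by
      refine (HasDerivAt.fun_sum fun b _ => (h1 b).fun_pow 2).congr_deriv ?_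
      refine Finset.sum_congr rfl fun b _ => ?_
      norm_num
      ring
    rw [← Finset.mul_sum] at h3
    exact h3.add_const k
  have h4 := h2.rpow_const (p := s) (Or.inl hu.ne')
  refine h4.congr_deriv ?_
  ring

/-- the second derivative of `(∑ v_b² + k)^s` -/
theorem sw_d2 {v v' : β → ℝ → ℝ} {v'' : β → ℝ} {t k : ℝ} (hk : 0 < k) (s : ℝ)
    (h1 : ∀ b, HasDerivAt (v b) (v' b t) t) (h2 : ∀ b, HasDerivAt (v' b) (v'' b) t) :
    HasDerivAt (fun τ => s * (∑ b, v b τ ^ 2 + k) ^ (s - 1) * (2 * ∑ b, v b τ * v' b τ))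
      (2 * s * (∑ b, v b t ^ 2 + k) ^ (s - 2) * (2 * (s - 1) * (∑ b, v b t * v' b t) ^ 2 +
        (∑ b, v b t ^ 2 + k) * ∑ b, (v' b t ^ 2 + v b t * v'' b))) t := by
  have hu : 0 < ∑ b, v b t ^ 2 + k := by
    have : 0 ≤ ∑ b, v b t ^ 2 := Finset.sum_nonneg fun b _ => sq_nonneg _
    linarith
  have h3 := sw_d1 hk (s - 1) h1
  have h4 : HasDerivAt (fun τ => ∑ b, v b τ * v' b τ) (∑ b, (v' b t ^ 2 + v b t * v'' b)) t := by
    refine (HasDerivAt.fun_sum fun b _ => (h1 b).fun_mul (h2 b)).congr_deriv ?_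
    exact Finset.sum_congr rfl fun b _ => by ring
  refine ((h3.const_mul s).fun_mul (h4.const_mul 2)).congr_deriv ?_
  have e1 : (∑ b, v b t ^ 2 + k) ^ (s - 1) = (∑ b, v b t ^ 2 + k) ^ (s - 2) *
      (∑ b, v b t ^ 2 + k) := by
    have : s - 1 = (s - 2) + 1 := by ring
    rw [this, Real.rpow_add hu, Real.rpow_one]
  have e2 : s - 1 - 1 = s - 2 := by ring
  rw [e2, e1]
  ring

end calculus

/-! ### The Laplacian -/

/-- the sum of the second derivatives, for a harmonic gradient system; `M c a b` is the derivative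
of `v c b` in the direction `a`, and `L c a b` its second derivative in this direction -/
theorem sw_lap {ι : Type*} [Fintype ι] (M : ι → Fin 4 → Fin 4 → ℝ)
    (L : ι → Fin 4 → Fin 4 → ℝ) (hL : ∀ c b, ∑ a, L c a b = 0) (v : ι → Fin 4 → ℝ) (u X s : ℝ) :
    ∑ a, 2 * s * X * (2 * (s - 1) * (∑ c, ∑ b, v c b * M c a b) ^ 2 +
        u * ∑ c, ∑ b, (M c a b ^ 2 + v c b * L c a b)) =
      2 * s * X * (u * (∑ c, ∑ a, ∑ b, M c a b ^ 2) -
        2 * (1 - s) * ∑ a, (∑ c, ∑ b, M c a b * v c b) ^ 2) := by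
  have e1 : ∑ a, ∑ c, ∑ b, v c b * L c a b = 0 := by
    rw [Finset.sum_comm]
    refine Finset.sum_eq_zero fun c _ => ?_
    rw [Finset.sum_comm]
    refine Finset.sum_eq_zero fun b _ => ?_
    rw [← Finset.mul_sum, hL, mul_zero]
  have e2 : ∑ a, ∑ c, ∑ b, (M c a b ^ 2 + v c b * L c a b) = ∑ c, ∑ a, ∑ b, M c a b ^ 2 := by
    simp only [Finset.sum_add_distrib]
    rw [e1, add_zero, Finset.sum_comm]
  have e3 : ∀ a, ∑ c, ∑ b, v c b * M c a b = ∑ c, ∑ b, M c a b * v c b := fun a =>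
    Finset.sum_congr rfl fun c _ => Finset.sum_congr rfl fun b _ => mul_comm _ _
  rw [← Finset.mul_sum, Finset.sum_add_distrib, ← Finset.mul_sum, ← Finset.mul_sum, e2]
  rw [Finset.sum_congr rfl fun a _ => by rw [e3 a]]
  ring

/-- `Δ u^(1/3) ≥ 0` -/
theorem sw_lap_third {ι : Type*} [Fintype ι] (M : ι → Fin 4 → Fin 4 → ℝ)
    (L : ι → Fin 4 → Fin 4 → ℝ) (hs : ∀ c a b, M c a b = M c b a) (ht : ∀ c, ∑ a, M c a a = 0)
    (hL : ∀ c b, ∑ a, L c a b = 0) (v : ι → Fin 4 → ℝ) {k : ℝ} (hk : 0 < k) :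
    0 ≤ ∑ a, 2 * (1 / 3 : ℝ) * (∑ c, ∑ b, v c b ^ 2 + k) ^ ((1 / 3 : ℝ) - 2) *
      (2 * ((1 / 3 : ℝ) - 1) * (∑ c, ∑ b, v c b * M c a b) ^ 2 +
        (∑ c, ∑ b, v c b ^ 2 + k) * ∑ c, ∑ b, (M c a b ^ 2 + v c b * L c a b)) := by
  rw [sw_lap M L hL v]
  have hu : 0 < ∑ c, ∑ b, v c b ^ 2 + k := by
    have : 0 ≤ ∑ c, ∑ b, v c b ^ 2 :=
      Finset.sum_nonneg fun c _ => Finset.sum_nonneg fun b _ => sq_nonneg _
    linarith
  have hQ : 0 ≤ ∑ c, ∑ a, ∑ b, M c a b ^ 2 := Finset.sum_nonneg fun c _ =>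
    Finset.sum_nonneg fun a _ => Finset.sum_nonneg fun b _ => sq_nonneg _
  have h1 := sw_alg_sum M hs ht v
  refine mul_nonneg (by positivity) ?_
  have h2 : 0 ≤ k * ∑ c, ∑ a, ∑ b, M c a b ^ 2 := mul_nonneg hk.le hQ
  nlinarith

/-- `Δ u^(1/2) ≥ (1/4) |M|² u^(-1/2)` -/
theorem sw_lap_half {ι : Type*} [Fintype ι] (M : ι → Fin 4 → Fin 4 → ℝ)
    (L : ι → Fin 4 → Fin 4 → ℝ) (hs : ∀ c a b, M c a b = M c b a) (ht : ∀ c, ∑ a, M c a a = 0)
    (hL : ∀ c b, ∑ a, L c a b = 0) (v : ι → Fin 4 → ℝ) {k : ℝ} (hk : 0 < k) :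
    1 / 4 * (∑ c, ∑ a, ∑ b, M c a b ^ 2) * (∑ c, ∑ b, v c b ^ 2 + k) ^ (-(1 / 2 : ℝ)) ≤
      ∑ a, 2 * (1 / 2 : ℝ) * (∑ c, ∑ b, v c b ^ 2 + k) ^ ((1 / 2 : ℝ) - 2) *
      (2 * ((1 / 2 : ℝ) - 1) * (∑ c, ∑ b, v c b * M c a b) ^ 2 +
        (∑ c, ∑ b, v c b ^ 2 + k) * ∑ c, ∑ b, (M c a b ^ 2 + v c b * L c a b)) := by
  rw [sw_lap M L hL v]
  have hu : 0 < ∑ c, ∑ b, v c b ^ 2 + k := by
    have : 0 ≤ ∑ c, ∑ b, v c b ^ 2 :=
      Finset.sum_nonneg fun c _ => Finset.sum_nonneg fun b _ => sq_nonneg _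
    linarith
  have hQ : 0 ≤ ∑ c, ∑ a, ∑ b, M c a b ^ 2 := Finset.sum_nonneg fun c _ =>
    Finset.sum_nonneg fun a _ => Finset.sum_nonneg fun b _ => sq_nonneg _
  have h1 := sw_alg_sum M hs ht v
  have h2 : 0 ≤ k * ∑ c, ∑ a, ∑ b, M c a b ^ 2 := mul_nonneg hk.le hQ
  have e1 : (∑ c, ∑ b, v c b ^ 2 + k) ^ (-(1 / 2 : ℝ)) =
      (∑ c, ∑ b, v c b ^ 2 + k) ^ ((1 / 2 : ℝ) - 2) * (∑ c, ∑ b, v c b ^ 2 + k) := by
    have : (-(1 / 2 : ℝ)) = ((1 / 2 : ℝ) - 2) + 1 := by ring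
    rw [this, Real.rpow_add hu, Real.rpow_one]
  rw [e1]
  have h3 : 1 / 4 * ((∑ c, ∑ a, ∑ b, M c a b ^ 2) * (∑ c, ∑ b, v c b ^ 2 + k)) ≤
      2 * (1 / 2 : ℝ) * ((∑ c, ∑ b, v c b ^ 2 + k) * (∑ c, ∑ a, ∑ b, M c a b ^ 2) -
        2 * (1 - 1 / 2) * ∑ a, (∑ c, ∑ b, M c a b * v c b) ^ 2) := by
    nlinarith
  have h4 := mul_le_mul_of_nonneg_left h3
    (Real.rpow_nonneg hu.le ((1 / 2 : ℝ) - 2))
  calc 1 / 4 * (∑ c, ∑ a, ∑ b, M c a b ^ 2) *
        ((∑ c, ∑ b, v c b ^ 2 + k) ^ ((1 / 2 : ℝ) - 2) * (∑ c, ∑ b, v c b ^ 2 + k))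
      = (∑ c, ∑ b, v c b ^ 2 + k) ^ ((1 / 2 : ℝ) - 2) *
        (1 / 4 * ((∑ c, ∑ a, ∑ b, M c a b ^ 2) * (∑ c, ∑ b, v c b ^ 2 + k))) := by ring
    _ ≤ _ := h4
    _ = _ := by ring

end Pool.Agent.TF
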