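import Pool.Agent.TF.D.Spec
import Pool.Agent.TF.D.Sw

/-!
# Project TF, block D: the Stein-Weiss inequality and the calculus of `(|V|² + κ)^q`
-/

set_option autoImplicit false

namespace Pool.Agent.TF.D

open MeasureTheory Set Filter Topology Pool.Agent.TO Pool.Agent.TB Pool.Agent.TC Pool.Agent.TP
  Pool.Agent.TF
open scoped ENNReal NNReal Real InnerProductSpace SchwartzMap LineDeriv

theorem sw_ok : SpSW := by
  intro M v hs ht
  have h1 := sw_alg M hs ht v
  refine le_trans (le_of_eq ?_) h1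
  refine Finset.sum_congr rfl fun a _ => ?_
  congr 1
  exact Finset.sum_congr rfl fun b _ => by rw [hs a b]; ring

theorem su_alg {q κ n A B : ℝ} (hκ : 0 < κ) (hn : 0 ≤ n) :
    2 * q * (n + κ) ^ (q - 2) * (2 * (q - 1) * A ^ 2 + (n + κ) * B) =
      2 * q * (n + κ) ^ (q - 1) * B - 4 * q * (1 - q) * (n + κ) ^ (q - 2) * A ^ 2 := by
  have hu : 0 < n + κ := by linarith
  have e1 : (n + κ) ^ (q - 1) = (n + κ) ^ (q - 2) * (n + κ) := by
    have : q - 1 = (q - 2) + 1 := by ring
    rw [this, Real.rpow_add hu, Real.rpow_one]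
  rw [e1]
  ring

theorem vn_nonneg (V : Fin 4 → E3 → ℝ → ℝ) (x : E3) (y : ℝ) : 0 ≤ Vn V x y :=
  Finset.sum_nonneg fun _ _ => sq_nonneg _

/-- the general one-dimensional statement -/
theorem su_line {v v' : Fin 4 → ℝ → ℝ} {w : Fin 4 → ℝ} {t κ : ℝ} (hκ : 0 < κ) (q : ℝ)
    (h1 : ∀ b, HasDerivAt (v b) (v' b t) t) (h2 : ∀ b, HasDerivAt (v' b) (w b) t) :
    HasDerivAt (fun τ => 2 * q * (∑ b, v b τ ^ 2 + κ) ^ (q - 1) * ∑ b, v b τ * v' b τ)
      (2 * q * (∑ b, v b t ^ 2 + κ) ^ (q - 1) * ∑ b, (v' b t ^ 2 + v b t * w b) -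
        4 * q * (1 - q) * (∑ b, v b t ^ 2 + κ) ^ (q - 2) * (∑ b, v b t * v' b t) ^ 2) t := by
  have h3 := sw_d2 hκ q h1 h2
  rw [su_alg hκ (Finset.sum_nonneg fun b _ => sq_nonneg (v b t))] at h3
  have e : (fun τ => q * (∑ b, v b τ ^ 2 + κ) ^ (q - 1) * (2 * ∑ b, v b τ * v' b τ)) =
      fun τ => 2 * q * (∑ b, v b τ ^ 2 + κ) ^ (q - 1) * ∑ b, v b τ * v' b τ := by
    ext τ
    ring
  rwa [e] at h3

theorem u_ok : SpU := by
  intro δ V M W H q κ hq hq1 hκ
  have hu : ∀ x y, 0 < Vn V x y + κ := fun x y => by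
    have := vn_nonneg V x y
    linarith
  have cVn : ContinuousOn (fun p : E3 × ℝ => Vn V p.1 p.2 + κ) {p | -δ < p.2} := by
    unfold Vn
    exact (continuousOn_finsetSum _ fun b _ => (H.cV b).pow 2).add continuousOn_const
  have cp : ∀ r : ℝ, ContinuousOn (fun p : E3 × ℝ => (Vn V p.1 p.2 + κ) ^ r) {p | -δ < p.2} :=
    fun r => cVn.rpow_const fun p _ => Or.inl (hu p.1 p.2).ne'
  refine ⟨?_, ?_, ?_, ?_, cp q, ?_, ?_, ?_⟩
  · intro j x y hy
    have h := sw_d1 (v := fun b t => V b (x + t • ee j) y)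
      (v' := fun b t => M j.succ b (x + t • ee j) y) (t := 0) hκ q
      (fun b => by simpa using H.dx b j x y hy)
    refine h.congr_deriv ?_
    simp only [zero_smul, add_zero, Ud, Vn]
    ring
  · intro x y hy
    have h := sw_d1 (v := fun b t => V b x t) (v' := fun b t => M 0 b x t) (t := y) hκ q
      (fun b => H.dy b x y hy)
    refine h.congr_deriv ?_
    simp only [Ud, Vn]
    ring
  · intro j x y hy
    have h := su_line (v := fun b t => V b (x + t • ee j) y)
      (v' := fun b t => M j.succ b (x + t • ee j) y) (w := fun b => W j.succ b x y) (t := 0) hκ q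
      (fun b => by simpa using H.dx b j x y hy) (fun b => H.dxx b j x y hy)
    refine h.congr_deriv ?_
    simp only [zero_smul, add_zero, Udd, Vn]
  · intro x y hy
    exact su_line (v := fun b t => V b x t) (v' := fun b t => M 0 b x t)
      (w := fun b => W 0 b x y) (t := y) hκ q (fun b => H.dy b x y hy) (fun b => H.dyy b x y hy)
  · intro a
    unfold Ud
    exact (continuousOn_const.mul (cp (q - 1))).mul
      (continuousOn_finsetSum _ fun b _ => (H.cV b).mul (H.cM a b))
  · intro a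
    unfold Udd
    refine ContinuousOn.sub ((continuousOn_const.mul (cp (q - 1))).mul
      (continuousOn_finsetSum _ fun b _ => ((H.cM a b).pow 2).add ((H.cV b).mul (H.cW a b)))) ?_
    exact (continuousOn_const.mul (cp (q - 2))).mul
      ((continuousOn_finsetSum _ fun b _ => (H.cV b).mul (H.cM a b)).pow 2)
  · intro x y hy
    have hsw := sw_ok (fun a b => M a b x y) (fun b => V b x y) (fun a b => H.symm a b x y hy)
      (H.tr x y hy)
    have hh : ∑ a, ∑ b, V b x y * W a b x y = 0 := by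
      rw [Finset.sum_comm]
      refine Finset.sum_eq_zero fun b _ => ?_
      rw [← Finset.mul_sum, H.harm b x y hy, mul_zero]
    have e0 : ∑ a, ∑ b, (M a b x y ^ 2 + V b x y * W a b x y) = Mn M x y := by
      simp only [Finset.sum_add_distrib]
      rw [hh, add_zero]
      rfl
    have e1 : (Vn V x y + κ) ^ (q - 1) = (Vn V x y + κ) ^ (q - 2) * (Vn V x y + κ) := by
      have : q - 1 = (q - 2) + 1 := by ring
      rw [this, Real.rpow_add (hu x y), Real.rpow_one]
    have e2 : ∑ a, Udd q κ V M W a x y = 2 * q * (Vn V x y + κ) ^ (q - 1) * Mn M x y -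
        4 * q * (1 - q) * (Vn V x y + κ) ^ (q - 2) * ∑ a, (∑ b, V b x y * M a b x y) ^ 2 := by
      unfold Udd
      rw [Finset.sum_sub_distrib, ← Finset.mul_sum, ← Finset.mul_sum, e0]
    rw [e2, e1]
    have hMn : 0 ≤ Mn M x y := Finset.sum_nonneg fun a _ => Finset.sum_nonneg fun b _ => sq_nonneg _
    have h3 : ∑ a, (∑ b, V b x y * M a b x y) ^ 2 ≤ 3 / 4 * Mn M x y * (Vn V x y + κ) := by
      refine hsw.trans ?_
      have : (∑ b, V b x y ^ 2) ≤ Vn V x y + κ := by
        have : ∑ b, V b x y ^ 2 = Vn V x y := rfl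
        linarith
      have h5 : 0 ≤ 3 / 4 * Mn M x y := by positivity
      exact mul_le_mul_of_nonneg_left this h5
    have h4 : 0 ≤ 4 * q * (1 - q) * (Vn V x y + κ) ^ (q - 2) := by
      have := Real.rpow_nonneg (hu x y).le (q - 2)
      have h6 : 0 ≤ 1 - q := by linarith
      positivity
    have h5 := mul_le_mul_of_nonneg_left h3 h4
    nlinarith

end Pool.Agent.TF.D
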