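import Pool.Agent.TF.D.Spec

/-!
# `|V|^{2/3}` is at most the Poisson extension of its boundary values
-/

set_option autoImplicit false

namespace Pool.Agent.TF.D

open MeasureTheory Set Filter Topology Pool.Agent.TO Pool.Agent.TB Pool.Agent.TC Pool.Agent.TP
  Pool.Agent.TF
open scoped ENNReal NNReal Real InnerProductSpace SchwartzMap LineDeriv

variable {δ κ : ℝ} {V : Fin 4 → E3 → ℝ → ℝ} {M W : Fin 4 → Fin 4 → E3 → ℝ → ℝ}

theorem sb_Vn_nonneg (V : Fin 4 → E3 → ℝ → ℝ) (x : E3) (y : ℝ) : 0 ≤ Vn V x y :=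
  Finset.sum_nonneg fun _ _ => sq_nonneg _

theorem sb_Vn_le {C : ℝ} {x : E3} {y : ℝ} (h : ∀ b, |V b x y| ≤ C) : Vn V x y ≤ 4 * C ^ 2 := by
  calc Vn V x y ≤ ∑ _b : Fin 4, C ^ 2 := by
        refine Finset.sum_le_sum fun b _ => ?_
        rw [← sq_abs (V b x y)]
        exact pow_le_pow_left₀ (abs_nonneg _) (h b) 2
    _ = 4 * C ^ 2 := by simp

theorem sb_up {κ u : ℝ} (hκ : 0 < κ) (hu : 0 ≤ u) :
    (u + κ) ^ (1 / 3 : ℝ) - κ ^ (1 / 3 : ℝ) ≤ κ ^ (1 / 3 : ℝ) / κ * u := by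
  have h1 : (1 + u / κ) ^ (1 / 3 : ℝ) ≤ 1 + 1 / 3 * (u / κ) :=
    rpow_one_add_le_one_add_mul_self (by have : 0 ≤ u / κ := by positivity
                                         linarith) (by norm_num) (by norm_num)
  have h2 : u + κ = κ * (1 + u / κ) := by field_simp; ring
  rw [h2, Real.mul_rpow hκ.le (by positivity)]
  have h3 : 0 ≤ κ ^ (1 / 3 : ℝ) := by positivity
  have h4 : 0 ≤ κ ^ (1 / 3 : ℝ) * (u / κ) := by positivity
  have h5 : κ ^ (1 / 3 : ℝ) / κ * u = κ ^ (1 / 3 : ℝ) * (u / κ) := by ring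
  rw [h5]
  nlinarith [mul_le_mul_of_nonneg_left h1 h3]

theorem sb_lo {κ u : ℝ} (hκ : 0 < κ) (hu : 0 ≤ u) :
    0 ≤ (u + κ) ^ (1 / 3 : ℝ) - κ ^ (1 / 3 : ℝ) :=
  sub_nonneg.2 (Real.rpow_le_rpow hκ.le (by linarith) (by norm_num))

/-- the Poisson extension of a bounded uniformly continuous function near the boundary -/
theorem sb_near {B : E3 → ℝ} {C0 : ℝ} (hc : UniformContinuous B) (hb : ∀ x, |B x| ≤ C0)
    {ε : ℝ} (hε : 0 < ε) :
    ∃ K : ℝ, 0 ≤ K ∧ ∀ (x : E3) (y : ℝ), 0 < y → y ≤ 1 → B x - pe pk B x y ≤ ε + K * y := by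
  obtain ⟨r, hr, hr1⟩ := Metric.uniformContinuous_iff.1 hc ε hε
  have hC0 : 0 ≤ C0 := (abs_nonneg _).trans (hb 0)
  refine ⟨2 * C0 * (1 + 1 / r ^ 2) ^ 2, by positivity, fun x y hy hy1 => ?_⟩
  have i0 : Integrable (pk y) := (kk_pk hy).int
  have i1 : Integrable (fun z => pk y z * B (x - z)) := by
    refine (i0.mul_const C0).mono' ((continuous_pk hy).mul (hc.continuous.comp
      (continuous_const.sub continuous_id))).aestronglyMeasurable
      (Eventually.of_forall fun z => ?_)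
    rw [norm_mul, Real.norm_of_nonneg (pk_nonneg hy z)]
    exact mul_le_mul_of_nonneg_left (hb _) (pk_nonneg hy z)
  have e1 : B x - pe pk B x y = ∫ z, (pk y z * B x - pk y z * B (x - z)) := by
    rw [integral_sub (i0.mul_const _) i1, integral_mul_const, integral_pk hy, one_mul]
    rfl
  have key : ∀ z, pk y z * B x - pk y z * B (x - z) ≤
      ε * pk y z + 2 * C0 * (1 + 1 / r ^ 2) ^ 2 * y * pk 1 z := by
    intro z
    have p0 := pk_nonneg hy z
    have p1 := pk_nonneg one_pos z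
    have q0 := abs_le.1 (hb x)
    have q1 := abs_le.1 (hb (x - z))
    rw [← mul_sub]
    by_cases hz : ‖z‖ < r
    · have h1 : |B x - B (x - z)| < ε := by
        have := hr1 (a := x) (b := x - z) (by rw [dist_eq_norm, sub_sub_cancel]; exact hz)
        rwa [Real.dist_eq] at this
      have h2 : pk y z * (B x - B (x - z)) ≤ pk y z * ε :=
        mul_le_mul_of_nonneg_left ((le_abs_self _).trans h1.le) p0
      have h3 : 0 ≤ 2 * C0 * (1 + 1 / r ^ 2) ^ 2 * y * pk 1 z := by positivity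
      linarith
    · rw [not_lt] at hz
      have hs1 := sg_pos one_pos z
      have hsy := sg_pos hy z
      have h1 : sg y z ^ 2 ≤ (1 + 1 / r ^ 2) * sg 1 z ^ 2 := by
        have a1 := sg_sq hy z
        have a2 := sg_sq one_pos z
        have a0 : 0 < ‖z‖ := hr.trans_le hz
        have a3 : 0 < ‖z‖ ^ 2 := by positivity
        have a4 : 1 + ‖z‖ ^ 2 ≤ (1 + 1 / r ^ 2) * ‖z‖ ^ 2 := by
          have : r ^ 2 ≤ ‖z‖ ^ 2 := pow_le_pow_left₀ hr.le hz 2
          have h5 : 1 ≤ 1 / r ^ 2 * ‖z‖ ^ 2 := by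
            rw [one_div, ← div_eq_inv_mul, le_div_iff₀ (by positivity)]
            linarith
          linarith
        have a5 : sg y z ^ 2 * ‖z‖ ^ 2 ≤ 1 := by nlinarith [mul_nonneg (sq_nonneg (sg y z)) (sq_nonneg y)]
        have a6 : 1 ≤ (1 + 1 / r ^ 2) * sg 1 z ^ 2 * ‖z‖ ^ 2 := by
          calc (1:ℝ) = sg 1 z ^ 2 * (1 ^ 2 + ‖z‖ ^ 2) := a2.symm
            _ ≤ sg 1 z ^ 2 * ((1 + 1 / r ^ 2) * ‖z‖ ^ 2) := by
                apply mul_le_mul_of_nonneg_left _ (sq_nonneg _)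
                linarith
            _ = _ := by ring
        have a7 : sg y z ^ 2 * ‖z‖ ^ 2 ≤ ((1 + 1 / r ^ 2) * sg 1 z ^ 2) * ‖z‖ ^ 2 := a5.trans a6
        exact le_of_mul_le_mul_right a7 a3
      have h2 : pk y z ≤ y * (1 + 1 / r ^ 2) ^ 2 * pk 1 z := by
        have := JJ4_inv_pos
        unfold pk
        calc (JJ 4)⁻¹ * (y * sg y z ^ 4) = (JJ 4)⁻¹ * (y * (sg y z ^ 2) ^ 2) := by ring
          _ ≤ (JJ 4)⁻¹ * (y * ((1 + 1 / r ^ 2) * sg 1 z ^ 2) ^ 2) := by gcongr
          _ = _ := by ring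
      have h3 : pk y z * (B x - B (x - z)) ≤ pk y z * (2 * C0) :=
        mul_le_mul_of_nonneg_left (by linarith) p0
      have h4 : pk y z * (2 * C0) ≤ y * (1 + 1 / r ^ 2) ^ 2 * pk 1 z * (2 * C0) :=
        mul_le_mul_of_nonneg_right h2 (by positivity)
      have h5 : 0 ≤ ε * pk y z := by positivity
      linarith
  rw [e1]
  calc ∫ z, (pk y z * B x - pk y z * B (x - z))
      ≤ ∫ z, (ε * pk y z + 2 * C0 * (1 + 1 / r ^ 2) ^ 2 * y * pk 1 z) :=
        integral_mono ((i0.mul_const _).sub i1)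
          ((i0.const_mul _).add ((kk_pk one_pos).int.const_mul _)) key
    _ = ε + 2 * C0 * (1 + 1 / r ^ 2) ^ 2 * y := by
        rw [integral_add (i0.const_mul _) ((kk_pk one_pos).int.const_mul _), integral_const_mul,
          integral_const_mul, integral_pk hy, integral_pk one_pos]
        ring

theorem sub_ok : SpDK → SpExt → SpDer → SpU → SpMax → SpSub := by
  intro hDK hExt hDer hU hMax δ V M W h x y hy
  have hδ := h.pos
  obtain ⟨C, hC⟩ := h.bd
  have hC0 : 0 ≤ C := (abs_nonneg _).trans (hC 0 0 0 0 le_rfl).1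
  have hcV : Continuous fun z => Vn V z 0 := by
    unfold Vn
    refine continuous_finsetSum _ fun b _ => Continuous.pow ?_ 2
    exact (h.cV b).comp_continuous (f := fun z : E3 => (z, (0:ℝ))) (by fun_prop)
      fun z => neg_lt_zero.2 hδ
  have hV0 : ∀ z, Vn V z 0 ≤ 4 * C ^ 2 := fun z => sb_Vn_le fun b => (hC 0 b z 0 le_rfl).1
  have main : ∀ κ : ℝ, 0 < κ → Uq (1 / 3) κ V x y - κ ^ (1 / 3 : ℝ) ≤
      pe pk (fun z => Uq (1 / 3) κ V z 0 - κ ^ (1 / 3 : ℝ)) x y := by
    intro κ hκ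
    set k3 := κ ^ (1 / 3 : ℝ) with hk3
    have hk0 : 0 ≤ k3 / κ := by positivity
    obtain ⟨u1, u2, u3, u4, u5, u6, u7, u8⟩ := hU δ V M W h (1 / 3) κ le_rfl (by norm_num) hκ
    set B : E3 → ℝ := fun z => Uq (1 / 3) κ V z 0 - k3 with hB
    have B0 : ∀ z, 0 ≤ B z := fun z => sb_lo hκ (sb_Vn_nonneg V z 0)
    have B1 : ∀ z, B z ≤ k3 / κ * Vn V z 0 := fun z => sb_up hκ (sb_Vn_nonneg V z 0)
    have B2 : ∀ z, |B z| ≤ k3 / κ * (4 * C ^ 2) := fun z => by
      rw [abs_of_nonneg (B0 z)]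
      exact (B1 z).trans (mul_le_mul_of_nonneg_left (hV0 z) hk0)
    have Bc : Continuous B := by
      refine Continuous.sub ?_ continuous_const
      exact u5.comp_continuous (f := fun z : E3 => (z, (0:ℝ))) (by fun_prop)
        fun z => neg_lt_zero.2 hδ
    -- decay of `Uq`
    have dec : ∀ ε > 0, ∃ R, ∀ x y, 0 ≤ y → (R ≤ ‖x‖ ∨ R ≤ y) →
        Uq (1 / 3) κ V x y - k3 ≤ ε := by
      intro ε hε
      have hc : 0 < 4 * (k3 / κ + 1) := by positivity
      obtain ⟨R, hR⟩ := h.dec (min 1 (ε / (4 * (k3 / κ + 1)))) (by positivity)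
      refine ⟨R, fun x y hy h1 => ?_⟩
      have h2 := sb_Vn_le (V := V) (fun b => hR b x y hy h1)
      have h3 : (min 1 (ε / (4 * (k3 / κ + 1)))) ^ 2 ≤ ε / (4 * (k3 / κ + 1)) := by
        have a0 : 0 < min 1 (ε / (4 * (k3 / κ + 1))) := by positivity
        have a1 : min 1 (ε / (4 * (k3 / κ + 1))) ≤ 1 := min_le_left _ _
        have a2 : min 1 (ε / (4 * (k3 / κ + 1))) ≤ ε / (4 * (k3 / κ + 1)) := min_le_right _ _
        nlinarith
      have h4 : Vn V x y ≤ ε / (k3 / κ + 1) := by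
        calc Vn V x y ≤ 4 * (ε / (4 * (k3 / κ + 1))) := by linarith
          _ = _ := by field_simp
      calc Uq (1 / 3) κ V x y - k3 ≤ k3 / κ * Vn V x y := sb_up hκ (sb_Vn_nonneg V x y)
        _ ≤ (k3 / κ + 1) * (ε / (k3 / κ + 1)) := by
            apply mul_le_mul (by linarith) h4 (sb_Vn_nonneg V x y) (by positivity)
        _ = ε := mul_div_cancel₀ ε (by positivity)
    have Bt : Tendsto B (cocompact E3) (𝓝 0) := by
      rw [Metric.tendsto_nhds]
      intro ε hε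
      obtain ⟨R, hR⟩ := dec (ε / 2) (by positivity)
      have h1 : ∀ᶠ z : E3 in cocompact E3, R ≤ ‖z‖ :=
        tendsto_norm_cocompact_atTop.eventually_ge_atTop R
      filter_upwards [h1] with z hz
      rw [Real.dist_eq, sub_zero, abs_of_nonneg (B0 z)]
      have := hR z 0 le_rfl (Or.inl hz)
      simp only [hB]
      linarith
    have Bu : UniformContinuous B := Bc.uniformContinuous_of_tendsto_cocompact Bt
    have Bm : MemLp B 2 (volume : Measure E3) := by
      rw [memLp_two_iff_integrable_sq Bc.aestronglyMeasurable]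
      have i1 : Integrable (fun z => Vn V z 0) := by
        unfold Vn
        obtain ⟨K, hK⟩ := h.l2
        exact integrable_finsetSum _ fun b _ => (hK 0 b 0 le_rfl).1.1
      refine (i1.const_mul (k3 / κ * (4 * C ^ 2) * (k3 / κ))).mono'
        (Bc.pow 2).aestronglyMeasurable (Eventually.of_forall fun z => ?_)
      rw [Real.norm_of_nonneg (sq_nonneg _), pow_two]
      calc B z * B z ≤ (k3 / κ * (4 * C ^ 2)) * (k3 / κ * Vn V z 0) :=
            mul_le_mul ((le_abs_self _).trans (B2 z)) (B1 z) (B0 z) (by positivity)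
        _ = _ := by ring
    have hD : ∀ x y, 0 ≤ y → |Ud (1 / 3) κ V M 0 x y| ≤ κ ^ ((1:ℝ) / 3 - 1) * (4 * C ^ 2) := by
      intro x y hy
      have a1 : (Vn V x y + κ) ^ ((1:ℝ) / 3 - 1) ≤ κ ^ ((1:ℝ) / 3 - 1) :=
        Real.rpow_le_rpow_of_nonpos hκ (by linarith [sb_Vn_nonneg V x y]) (by norm_num)
      have a2 : |∑ b, V b x y * M 0 b x y| ≤ 4 * C ^ 2 := by
        calc |∑ b, V b x y * M 0 b x y| ≤ ∑ b, |V b x y * M 0 b x y| :=
              Finset.abs_sum_le_sum_abs _ _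
          _ ≤ ∑ _b : Fin 4, C * C := by
              refine Finset.sum_le_sum fun b _ => ?_
              rw [abs_mul]
              exact mul_le_mul (hC 0 b x y hy).1 (hC 0 b x y hy).2.1 (abs_nonneg _) hC0
          _ = 4 * C ^ 2 := by simp; ring
      have a3 : 0 ≤ (Vn V x y + κ) ^ ((1:ℝ) / 3 - 1) :=
        Real.rpow_nonneg (by linarith [sb_Vn_nonneg V x y]) _
      unfold Ud
      rw [abs_mul, abs_mul, abs_of_nonneg a3]
      have a4 : |2 * (1 / 3 : ℝ)| ≤ 1 := by rw [abs_of_pos (by norm_num)]; norm_num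
      calc |2 * (1 / 3 : ℝ)| * (Vn V x y + κ) ^ ((1:ℝ) / 3 - 1) * |∑ b, V b x y * M 0 b x y|
          ≤ 1 * κ ^ ((1:ℝ) / 3 - 1) * (4 * C ^ 2) := by gcongr
        _ = _ := by ring
    set L := κ ^ ((1:ℝ) / 3 - 1) * (4 * C ^ 2) with hL
    have hL0 : 0 ≤ L := by positivity
    have hlip : ∀ x y, 0 < y → Uq (1 / 3) κ V x y - Uq (1 / 3) κ V x 0 ≤ L * y := by
      intro x y hy
      have a1 := (convex_Icc (0:ℝ) y).norm_image_sub_le_of_norm_hasDerivWithin_le
        (f := fun s => Uq (1 / 3) κ V x s) (f' := fun s => Ud (1 / 3) κ V M 0 x s) (C := L)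
        (fun s hs => (u2 x s (by linarith [hs.1])).hasDerivWithinAt)
        (fun s hs => hD x s hs.1) (left_mem_Icc.2 hy.le) (right_mem_Icc.2 hy.le)
      rw [Real.norm_eq_abs, Real.norm_eq_abs, sub_zero, abs_of_pos hy] at a1
      exact (le_abs_self _).trans a1
    have hsub : {p : E3 × ℝ | 0 < p.2} ⊆ {p : E3 × ℝ | -δ < p.2} := fun p hp => by
      have : (0:ℝ) < p.2 := hp
      show -δ < p.2
      linarith
    have hpos : ∀ x y, 0 < y → 0 ≤ pe pk B x y := fun x y hy =>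
      integral_nonneg fun z => mul_nonneg (pk_nonneg hy z) (B0 _)
    have hmax := hMax (fun x y => Uq (1 / 3) κ V x y - k3 - pe pk B x y)
      (Fin.cons (fun x y => Ud (1 / 3) κ V M 0 x y - pe yk B x y)
        (fun j x y => Ud (1 / 3) κ V M j.succ x y - pe (dk j) B x y))
      (Fin.cons (fun x y => Udd (1 / 3) κ V M W 0 x y - pe yyk B x y)
        (fun j x y => Udd (1 / 3) κ V M W j.succ x y - pe (ddk j j) B x y))
      (((u5.mono hsub).sub continuousOn_const).sub (hExt pk hDK.1 B Bm).1)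
      (fun j x y hy => ((u1 j x y (by linarith)).sub_const _).sub ((hDer B Bm x y hy).1 j))
      (fun x y hy => ((u2 x y (by linarith)).sub_const _).sub (hDer B Bm x y hy).2.1)
      (fun j x y hy => (u3 j x y (by linarith)).sub ((hDer B Bm x y hy).2.2.1 j j))
      (fun x y hy => (u4 x y (by linarith)).sub (hDer B Bm x y hy).2.2.2.2.2.1)
      (fun x y hy => by
        have a1 := u8 x y (by linarith)
        have a2 := (hDer B Bm x y hy).2.2.2.2.2.2
        rw [Fin.sum_univ_succ] at a1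
        rw [Fin.sum_univ_succ]
        simp only [Fin.cons_zero, Fin.cons_succ]
        rw [Finset.sum_sub_distrib, a2]
        have a3 : 2 * (1 / 3 : ℝ) * (1 - 3 / 2 * (1 - 1 / 3)) = 0 := by norm_num
        rw [a3, zero_mul, zero_mul] at a1
        linarith)
      (fun ε hε => by
        obtain ⟨K, hK0, hK⟩ := sb_near Bu B2 (half_pos hε)
        refine ⟨min 1 (ε / (2 * (L + K + 1))), by positivity, fun x y hy h1 => ?_⟩
        have a1 := hK x y hy (h1.trans (min_le_left _ _))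
        have a2 := hlip x y hy
        have a3 : y * (2 * (L + K + 1)) ≤ ε := by
          rw [← le_div_iff₀ (by positivity)]
          exact h1.trans (min_le_right _ _)
        have a4 : B x = Uq (1 / 3) κ V x 0 - k3 := rfl
        nlinarith)
      (fun ε hε => by
        obtain ⟨R, hR⟩ := dec ε hε
        refine ⟨R, fun x y hy h1 => ?_⟩
        have a1 := hR x y hy.le h1
        have a2 := hpos x y hy
        linarith)
      x y hy
    linarith
  have i0 : Integrable (pk y) := (kk_pk hy).int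
  refine le_of_forall_pos_le_add fun ε hε => ?_
  have hκ : 0 < ε ^ 3 := by positivity
  have h3 : (ε ^ 3) ^ (1 / 3 : ℝ) = ε := by
    rw [← Real.rpow_natCast, ← Real.rpow_mul hε.le]
    norm_num
  have h1 := main (ε ^ 3) hκ
  rw [h3] at h1
  have h2 : Vn V x y ^ (1 / 3 : ℝ) ≤ Uq (1 / 3) (ε ^ 3) V x y :=
    Real.rpow_le_rpow (sb_Vn_nonneg V x y) (by linarith) (by norm_num)
  have e1 : ∀ z, Uq (1 / 3) (ε ^ 3) V z 0 - ε ≤ Vn V z 0 ^ (1 / 3 : ℝ) := fun z => by
    have := Real.rpow_add_le_add_rpow (sb_Vn_nonneg V z 0) hκ.le (p := 1 / 3) (by norm_num)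
      (by norm_num)
    rw [h3] at this
    unfold Uq
    linarith
  have e0 : ∀ z, 0 ≤ Uq (1 / 3) (ε ^ 3) V z 0 - ε := fun z => by
    have := sb_lo hκ (sb_Vn_nonneg V z 0)
    rw [h3] at this
    exact this
  have h4 : pe pk (fun z => Uq (1 / 3) (ε ^ 3) V z 0 - ε) x y ≤
      cvf (pk y) (fun z => Vn V z 0 ^ (1 / 3 : ℝ)) x := by
    refine integral_mono_of_nonneg
      (Eventually.of_forall fun z => mul_nonneg (pk_nonneg hy z) (e0 _)) ?_
      (Eventually.of_forall fun z => mul_le_mul_of_nonneg_left (e1 _) (pk_nonneg hy z))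
    have c1 : Continuous fun z => Vn V z 0 ^ (1 / 3 : ℝ) :=
      hcV.rpow_const fun z => Or.inr (by norm_num)
    refine (i0.mul_const ((4 * C ^ 2) ^ (1 / 3 : ℝ))).mono' ((continuous_pk hy).smul (c1.comp
      (continuous_const.sub continuous_id))).aestronglyMeasurable
      (Eventually.of_forall fun z => ?_)
    rw [norm_smul, Real.norm_of_nonneg (pk_nonneg hy z), Real.norm_of_nonneg
      (Real.rpow_nonneg (sb_Vn_nonneg _ _ _) _)]
    exact mul_le_mul_of_nonneg_left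
      (Real.rpow_le_rpow (sb_Vn_nonneg _ _ _) (hV0 _) (by norm_num)) (pk_nonneg hy z)
  linarith

end Pool.Agent.TF.D
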