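import Pool.Agent.TF.D.Spec

/-!
# D10b: a bound for a functional on the constraint set gives an `L¹` bound
-/

set_option autoImplicit false

namespace Pool.Agent.TF.D

open MeasureTheory Set Filter Topology Pool.Agent.TO Pool.Agent.TB Pool.Agent.TC Pool.Agent.TP
  Pool.Agent.TF
open scoped ENNReal NNReal Real InnerProductSpace SchwartzMap LineDeriv

/-- the sign of a real number -/
noncomputable def suG (a : ℝ) : ℝ := a / |a|

theorem suG_neg (a : ℝ) : suG (-a) = -suG a := by unfold suG; rw [abs_neg, neg_div]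

theorem abs_suG_le (a : ℝ) : |suG a| ≤ 1 := by
  unfold suG; rw [abs_div, abs_abs]; exact div_self_le_one _

theorem suG_mul (a : ℝ) : suG a * a = |a| := by
  unfold suG
  rcases eq_or_ne a 0 with h | h
  · simp [h]
  · rw [div_mul_eq_mul_div, div_eq_iff (abs_ne_zero.2 h), abs_mul_abs_self]

theorem measurable_suG : Measurable suG := measurable_id.div measurable_id.abs

/-- the sign in `T_j^* = ± T_j` -/
noncomputable def suS : Option (Fin 3) → ℝ
  | none => 1
  | some _ => -1

theorem suS_mul (j : Option (Fin 3)) : suS j * suS j = 1 := by cases j <;> norm_num [suS]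

theorem abs_suS (j : Option (Fin 3)) : |suS j| = 1 := by cases j <;> norm_num [suS]

theorem su_DP (hS : SG) (k : Fin 3) {δ : ℝ} (hδ : 0 < δ) (f : V3) :
    Dp k (δ + δ) f = Pp δ (Dp k δ f) := by
  apply ext_inner_right ℝ
  intro g
  have h1 := hS.antiD k (δ + δ) (by linarith) f g
  have h2 := hS.antiD k δ hδ f (Pp δ g)
  rw [← hS.dp k δ δ hδ hδ g] at h2
  have h3 := hS.symP δ hδ (Dp k δ f) g
  linarith

theorem su_PM_Pp (k i : Fin 3) {y : ℝ} (hy : 0 < y) (f : V3) :
    PM k i (Pp y f) = Pp y (PM k i f) := by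
  unfold Pp
  rw [cvO_eq (kk_pk hy)]
  exact PM_cvL (kk_pk hy) k i f

variable {R : Fin 3 → V3 →L[ℝ] V3}

theorem su_To_PM (hR : RZ R) (j : Option (Fin 3)) (i k : Fin 3) (f : V3) :
    To R j (PM i k f) = PM i k (To R j f) := by
  cases j with
  | none => rfl
  | some j => exact hR.pm j i k f

theorem su_anti (hR : RZ R) (j : Option (Fin 3)) (f g : V3) :
    ⟪To R j f, g⟫_ℝ = suS j * ⟪f, To R j g⟫_ℝ := by
  cases j with
  | none => simp [To, suS]
  | some j =>
    have := hR.anti j f g
    simp only [To, suS]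
    linarith

theorem su_weak (hR : RZ R) (j : Option (Fin 3)) {k : Fin 3} {f g : V3}
    (h : IsWeakDeriv k f g) : IsWeakDeriv k (To R j f) (To R j g) := by
  cases j with
  | none => exact h
  | some j => exact hR.weak j k f g h

/-- the test fields, without the differentiability -/
theorem su_test (hSG : SG) (hR : RZ R) {A δ S : ℝ} (hA : 0 < A) (hδ : 0 < δ) {φ : V3}
    (hS : ∀ c ∈ KA R A, ⟪c, Pp (δ + δ) φ⟫_ℝ ≤ S) (b : Fin 3 → Option (Fin 3) → V3)
    (hb : ∀ k j, Bd (b k j) A) (ha : ∀ k j i, PM i 0 (b k j) = -PM k 0 (b i j)) :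
    -∑ k, ∑ j : Option (Fin 3), suS j * ⟪b k j, To R j (Pp δ (Dp k δ φ))⟫_ℝ ≤ S := by
  have hlim : Tendsto (fun s : ℝ => -∑ k, ∑ j : Option (Fin 3),
      suS j * ⟪Pp s (b k j), To R j (Pp δ (Dp k δ φ))⟫_ℝ) (𝓝[>] 0)
      (𝓝 (-∑ k, ∑ j : Option (Fin 3), suS j * ⟪b k j, To R j (Pp δ (Dp k δ φ))⟫_ℝ)) := by
    refine Tendsto.neg (tendsto_finsetSum _ fun k _ => tendsto_finsetSum _ fun j _ => ?_)
    exact ((tendsto_Pp_zero (b k j)).inner tendsto_const_nhds).const_mul _
  refine le_of_tendsto hlim ?_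
  filter_upwards [self_mem_nhdsWithin] with s hs
  have hs : 0 < s := hs
  have hc : (∑ k, ∑ j : Option (Fin 3), To R j (Dp k s (b k j))) ∈ KA R A := by
    refine ⟨fun k j => Pp s (b k j), fun k j i => Dp i s (b k j),
      fun k j i => weak_Pp i hs (b k j), fun k j => bd_Pp hs hA.le (hb k j), fun k j i => ?_, rfl⟩
    rw [su_PM_Pp i 0 hs, su_PM_Pp k 0 hs, ha k j i, map_neg]
  refine le_trans (le_of_eq ?_) (hS _ hc)
  rw [sum_inner, ← Finset.sum_neg_distrib]
  refine Finset.sum_congr rfl fun k _ => ?_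
  rw [sum_inner, ← Finset.sum_neg_distrib]
  refine Finset.sum_congr rfl fun j _ => ?_
  rw [su_anti hR j, weak_parts (f := Pp s (b k j)) (df := fun i => Dp i s (b k j)) (k := k)
    (g := To R j (Pp (δ + δ) φ)) (dg := fun i => To R j (Dp i (δ + δ) φ))
    (fun i => weak_Pp i hs (b k j)) (su_weak hR j (weak_Pp k (by linarith) φ)),
    su_DP hSG k hδ]
  ring

/-! ### the truncated sign fields -/

/-- the field `1_{|x| ≤ ρ} c (sgn (a_i x))_i` -/
noncomputable def suF (c ρ : ℝ) (a : Fin 3 → E3 → ℝ) : E3 → E3 :=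
  (Metric.closedBall (0 : E3) ρ).indicator fun x => WithLp.toLp 2 fun i => c * suG (a i x)

theorem suF_apply (c ρ : ℝ) (a : Fin 3 → E3 → ℝ) (x : E3) (i : Fin 3) :
    suF c ρ a x i = (Metric.closedBall (0 : E3) ρ).indicator (fun x => c * suG (a i x)) x := by
  unfold suF
  by_cases hx : x ∈ Metric.closedBall (0 : E3) ρ
  · rw [indicator_of_mem hx, indicator_of_mem hx]
  · rw [indicator_of_notMem hx, indicator_of_notMem hx]; rfl

theorem su_norm_le {c : ℝ} {v : E3} (hc : 0 ≤ c) (h : ∀ i, |v i| ≤ c / 2) : ‖v‖ ≤ c := by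
  rw [EuclideanSpace.norm_eq, Real.sqrt_le_left hc]
  calc ∑ i, ‖v i‖ ^ 2 ≤ ∑ _i : Fin 3, (c / 2) ^ 2 :=
        Finset.sum_le_sum fun i _ => pow_le_pow_left₀ (norm_nonneg _) (h i) 2
    _ ≤ c ^ 2 := by
        rw [Finset.sum_const, Finset.card_univ, Fintype.card_fin, nsmul_eq_mul]
        push_cast
        nlinarith

theorem norm_suF_le {c A ρ : ℝ} (hc : |c| = A / 2) (a : Fin 3 → E3 → ℝ) (x : E3) :
    ‖suF c ρ a x‖ ≤ A := by
  have hA : 0 ≤ A := by linarith [abs_nonneg c]
  refine su_norm_le hA fun i => ?_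
  rw [suF_apply]
  by_cases hx : x ∈ Metric.closedBall (0 : E3) ρ
  · rw [indicator_of_mem hx, abs_mul, hc]
    exact mul_le_of_le_one_right (by linarith) (abs_suG_le _)
  · rw [indicator_of_notMem hx, abs_zero]
    linarith

theorem memLp_suF {c A ρ : ℝ} (hc : |c| = A / 2) {a : Fin 3 → E3 → ℝ} (ha : ∀ i, Measurable (a i)) :
    MemLp (suF c ρ a) 2 (volume : Measure E3) := by
  have hm : Measurable fun x => (WithLp.toLp 2 fun i => c * suG (a i x) : E3) :=
    (PiLp.continuous_toLp 2 (fun _ : Fin 3 => ℝ)).measurable.comp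
      (measurable_pi_lambda _ fun i => (measurable_suG.comp (ha i)).const_mul c)
  have hA : 0 ≤ A := by linarith [abs_nonneg c]
  unfold suF
  rw [memLp_indicator_iff_restrict Metric.isClosed_closedBall.measurableSet]
  have : IsFiniteMeasure ((volume : Measure E3).restrict (Metric.closedBall (0 : E3) ρ)) :=
    ⟨by rw [Measure.restrict_apply_univ]; exact measure_closedBall_lt_top⟩
  refine MemLp.of_bound hm.aestronglyMeasurable A (Eventually.of_forall fun x => ?_)
  refine su_norm_le hA fun i => ?_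
  change |c * suG (a i x)| ≤ A / 2
  rw [abs_mul, hc]
  exact mul_le_of_le_one_right (by linarith) (abs_suG_le _)

theorem su_integrableOn (f : V3) (ρ : ℝ) (i : Fin 3) :
    IntegrableOn (fun x => f x i) (Metric.closedBall (0 : E3) ρ) (volume : Measure E3) := by
  have : IsFiniteMeasure ((volume : Measure E3).restrict (Metric.closedBall (0 : E3) ρ)) :=
    ⟨by rw [Measure.restrict_apply_univ]; exact measure_closedBall_lt_top⟩
  have h1 : MemLp (fun x => f x) 1 ((volume : Measure E3).restrict (Metric.closedBall (0 : E3) ρ)) :=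
    ((Lp.memLp f).restrict _).mono_exponent (by norm_num)
  rw [memLp_one_iff_integrable] at h1
  exact (EuclideanSpace.proj (𝕜 := ℝ) i : E3 →L[ℝ] ℝ).integrable_comp h1

theorem su_meas (f : V3) (i : Fin 3) : Measurable fun x => f x i :=
  (EuclideanSpace.proj (𝕜 := ℝ) i : E3 →L[ℝ] ℝ).continuous.measurable.comp
    (Lp.stronglyMeasurable f).measurable

/-- the integral of `sgn(a) f_i` over a ball -/
noncomputable def suI (ρ : ℝ) (a : E3 → ℝ) (f : V3) (i : Fin 3) : ℝ :=
  ∫ x in Metric.closedBall (0 : E3) ρ, suG (a x) * f x i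

theorem su_integrable_mul {ρ : ℝ} {a : E3 → ℝ} (ha : Measurable a) (f : V3) (i : Fin 3) :
    IntegrableOn (fun x => suG (a x) * f x i) (Metric.closedBall (0 : E3) ρ)
      (volume : Measure E3) := by
  refine Integrable.mono' (su_integrableOn f ρ i).norm
    ((measurable_suG.comp ha).mul (su_meas f i)).aestronglyMeasurable
    (Eventually.of_forall fun x => ?_)
  rw [norm_mul, Real.norm_eq_abs]
  exact mul_le_of_le_one_left (norm_nonneg _) (abs_suG_le _)

theorem su_inner {c A ρ : ℝ} (hc : |c| = A / 2) {a : Fin 3 → E3 → ℝ} (ha : ∀ i, Measurable (a i))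
    (f : V3) : ⟪(memLp_suF (ρ := ρ) hc ha).toLp _, f⟫_ℝ = c * ∑ i, suI ρ (a i) f i := by
  rw [L2.inner_def]
  have h1 : ∫ x, ⟪((memLp_suF (ρ := ρ) hc ha).toLp _ : E3 → E3) x, f x⟫_ℝ =
      ∫ x in Metric.closedBall (0 : E3) ρ, ∑ i, c * (suG (a i x) * f x i) := by
    rw [← integral_indicator Metric.isClosed_closedBall.measurableSet]
    apply integral_congr_ae
    filter_upwards [(memLp_suF (ρ := ρ) hc ha).coeFn_toLp] with x hx
    rw [hx, PiLp.inner_apply]
    by_cases hm : x ∈ Metric.closedBall (0 : E3) ρ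
    · rw [indicator_of_mem hm]
      refine Finset.sum_congr rfl fun i _ => ?_
      rw [suF_apply, indicator_of_mem hm]
      simp only [RCLike.inner_apply, conj_trivial]
      ring
    · rw [indicator_of_notMem hm]
      refine Finset.sum_eq_zero fun i _ => ?_
      rw [suF_apply, indicator_of_notMem hm]
      simp
  rw [h1, integral_finsetSum _ fun i _ => (su_integrable_mul (ha i) f i).const_mul c,
    Finset.mul_sum]
  refine Finset.sum_congr rfl fun i _ => ?_
  rw [suI, integral_const_mul]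

/-- the antisymmetric part -/
noncomputable def suA (W : Fin 3 → V3) (k i : Fin 3) (x : E3) : ℝ := W k x i - W i x k

theorem suA_neg (W : Fin 3 → V3) (k i : Fin 3) (x : E3) : suA W i k x = -suA W k i x := by
  unfold suA; ring

theorem su_measA (W : Fin 3 → V3) (k i : Fin 3) : Measurable (suA W k i) :=
  (su_meas (W k) i).sub (su_meas (W i) k)

theorem suI_pair (ρ : ℝ) (W : Fin 3 → V3) (k i : Fin 3) :
    suI ρ (suA W k i) (W k) i + suI ρ (suA W i k) (W i) k =
      ∫ x in Metric.closedBall (0 : E3) ρ, |suA W k i x| := by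
  unfold suI
  rw [← integral_add (su_integrable_mul (su_measA W k i) (W k) i)
    (su_integrable_mul (su_measA W i k) (W i) k)]
  refine integral_congr_ae (Eventually.of_forall fun x => ?_)
  change suG (suA W k i x) * W k x i + suG (suA W i k x) * W i x k = |suA W k i x|
  rw [suA_neg W k i x, suG_neg]
  calc suG (suA W k i x) * W k x i + -suG (suA W k i x) * W i x k
      = suG (suA W k i x) * (W k x i - W i x k) := by ring
    _ = _ := suG_mul (suA W k i x)

/-- summing over all pairs -/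
theorem su_pairs (ρ : ℝ) (W : Fin 3 → V3) :
    2 * ∑ k, ∑ i, suI ρ (suA W k i) (W k) i =
      ∑ k, ∑ i, ∫ x in Metric.closedBall (0 : E3) ρ, |suA W k i x| := by
  have h : ∑ k, ∑ i, suI ρ (suA W k i) (W k) i = ∑ k, ∑ i, suI ρ (suA W i k) (W i) k :=
    Finset.sum_comm
  calc 2 * ∑ k, ∑ i, suI ρ (suA W k i) (W k) i
      = ∑ k, ∑ i, suI ρ (suA W k i) (W k) i + ∑ k, ∑ i, suI ρ (suA W i k) (W i) k := by
        rw [← h]; ring
    _ = ∑ k, ∑ i, (suI ρ (suA W k i) (W k) i + suI ρ (suA W i k) (W i) k) := by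
        simp only [Finset.sum_add_distrib]
    _ = _ := Finset.sum_congr rfl fun k _ => Finset.sum_congr rfl fun i _ => suI_pair ρ W k i

/-- the inequality on a ball -/
theorem su_ball (hSG : SG) (hR : RZ R) {A δ S : ℝ} (hA : 0 < A) (hδ : 0 < δ) {φ : V3}
    (hS : ∀ c ∈ KA R A, ⟪c, Pp (δ + δ) φ⟫_ℝ ≤ S) (ρ : ℝ) :
    ∑ j : Option (Fin 3), ∑ k, ∑ i, ∫ x in Metric.closedBall (0 : E3) ρ,
      |suA (fun k => To R j (Pp δ (Dp k δ φ))) k i x| ≤ 4 * S / A := by
  set W : Option (Fin 3) → Fin 3 → V3 := fun j k => To R j (Pp δ (Dp k δ φ)) with hW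
  have hc : ∀ j, |(-(suS j * (A / 2)))| = A / 2 := by
    intro j
    rw [abs_neg, abs_mul, abs_suS, one_mul, abs_of_pos (by linarith)]
  set b : Fin 3 → Option (Fin 3) → V3 := fun k j =>
    (memLp_suF (ρ := ρ) (hc j) (a := fun i => suA (W j) k i) (fun i => su_measA (W j) k i)).toLp _
    with hbdef
  have hcoe : ∀ k j, (b k j : E3 → E3) =ᵐ[volume]
      suF (-(suS j * (A / 2))) ρ fun i => suA (W j) k i := fun k j => MemLp.coeFn_toLp _
  have hb : ∀ k j, Bd (b k j) A := by
    intro k j
    unfold Bd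
    filter_upwards [hcoe k j] with x hx
    rw [hx]
    exact norm_suF_le (hc j) _ x
  have ha : ∀ k j i, PM i 0 (b k j) = -PM k 0 (b i j) := by
    intro k j i
    apply Lp.ext
    filter_upwards [coe_PM i 0 (b k j), coe_PM k 0 (b i j), Lp.coeFn_neg (PM k 0 (b i j)),
      hcoe k j, hcoe i j] with x h1 h2 h3 h4 h5
    rw [h1, h3, Pi.neg_apply, h2, h4, h5, ← neg_smul, suF_apply, suF_apply]
    congr 1
    by_cases hx : x ∈ Metric.closedBall (0 : E3) ρ
    · rw [indicator_of_mem hx, indicator_of_mem hx, suA_neg (W j) k i x, suG_neg]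
      ring
    · rw [indicator_of_notMem hx, indicator_of_notMem hx, neg_zero]
  have key := su_test hSG hR hA hδ hS b hb ha
  have e1 : -∑ k, ∑ j : Option (Fin 3), suS j * ⟪b k j, To R j (Pp δ (Dp k δ φ))⟫_ℝ =
      A / 4 * ∑ j : Option (Fin 3), ∑ k, ∑ i, ∫ x in Metric.closedBall (0 : E3) ρ,
        |suA (W j) k i x| := by
    rw [Finset.sum_comm, ← Finset.sum_neg_distrib, Finset.mul_sum]
    refine Finset.sum_congr rfl fun j _ => ?_
    rw [← su_pairs ρ (W j), ← Finset.sum_neg_distrib, Finset.mul_sum, Finset.mul_sum]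
    refine Finset.sum_congr rfl fun k _ => ?_
    have e2 : ⟪b k j, To R j (Pp δ (Dp k δ φ))⟫_ℝ =
        -(suS j * (A / 2)) * ∑ i, suI ρ (suA (W j) k i) (W j k) i :=
      su_inner (hc j) (a := fun i => suA (W j) k i) (fun i => su_measA (W j) k i) (W j k)
    rw [e2]
    linear_combination (A / 2 * ∑ i, suI ρ (suA (W j) k i) (W j k) i) * suS_mul j
  rw [e1] at key
  rw [le_div_iff₀ hA]
  linarith

/-- D10b -/
theorem sup_ok : SpSup := by
  refine ⟨4, by norm_num, fun R hSG hR A δ S hA hδ φ hS => ?_⟩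
  set W : Option (Fin 3) → Fin 3 → V3 := fun j k => To R j (Pp δ (Dp k δ φ)) with hW
  -- the representatives
  have hrep : ∀ k i (j : Option (Fin 3)), (fun x => To R j (Pp δ (cu δ φ k i)) x i) =ᵐ[volume]
      suA (W j) k i := by
    intro k i j
    have e : To R j (Pp δ (cu δ φ k i)) = W j k - PM k i (W j i) := by
      rw [cu, map_sub, map_sub, ← su_PM_Pp k i hδ, su_To_PM hR]
    rw [e]
    filter_upwards [Lp.coeFn_sub (W j k) (PM k i (W j i)), coe_PM k i (W j i)] with x h1 h2
    rw [h1, Pi.sub_apply, h2]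
    simp [suA, ee]
  -- the sum
  set G : E3 → ℝ := fun x => ∑ j : Option (Fin 3), ∑ k, ∑ i, |suA (W j) k i x| with hG
  have hG0 : ∀ x, 0 ≤ G x := fun x => Finset.sum_nonneg fun j _ => Finset.sum_nonneg fun k _ =>
    Finset.sum_nonneg fun i _ => abs_nonneg _
  have hloc : ∀ ρ : ℝ, ∀ j k i, IntegrableOn (fun x => |suA (W j) k i x|)
      (Metric.closedBall (0 : E3) ρ) (volume : Measure E3) := fun ρ j k i =>
    ((su_integrableOn (W j k) ρ i).sub (su_integrableOn (W j i) ρ k)).abs
  have hGloc : ∀ ρ : ℝ, IntegrableOn G (Metric.closedBall (0 : E3) ρ) (volume : Measure E3) :=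
    fun ρ => integrable_finsetSum _ fun j _ => integrable_finsetSum _ fun k _ =>
      integrable_finsetSum _ fun i _ => hloc ρ j k i
  have hGb : ∀ ρ : ℝ, ∫ x in Metric.closedBall (0 : E3) ρ, G x ≤ 4 * S / A := by
    intro ρ
    refine le_trans (le_of_eq ?_) (su_ball hSG hR hA hδ hS ρ)
    rw [hG, integral_finsetSum _ fun j _ => integrable_finsetSum _ fun k _ =>
      integrable_finsetSum _ fun i _ => hloc ρ j k i]
    refine Finset.sum_congr rfl fun j _ => ?_
    rw [integral_finsetSum _ fun k _ => integrable_finsetSum _ fun i _ => hloc ρ j k i]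
    refine Finset.sum_congr rfl fun k _ => ?_
    rw [integral_finsetSum _ fun i _ => hloc ρ j k i]
  have hcov : AECover (volume : Measure E3) atTop
      (fun n : ℕ => Metric.closedBall (0 : E3) (n : ℝ)) :=
    aecover_closedBall tendsto_natCast_atTop_atTop
  have hGint : Integrable G (volume : Measure E3) :=
    hcov.integrable_of_integral_bounded_of_nonneg_ae (4 * S / A) (fun n => hGloc n)
      (Eventually.of_forall hG0) (Eventually.of_forall fun n => hGb n)
  have hGle : ∫ x, G x ≤ 4 * S / A :=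
    le_of_tendsto (hcov.integral_tendsto_of_countably_generated hGint)
      (Eventually.of_forall fun n => hGb n)
  have hint : ∀ j k i, Integrable (suA (W j) k i) (volume : Measure E3) := by
    intro j k i
    refine Integrable.mono' hGint (su_measA (W j) k i).aestronglyMeasurable
      (Eventually.of_forall fun x => ?_)
    rw [Real.norm_eq_abs]
    refine le_trans ?_ (Finset.single_le_sum
      (f := fun j => ∑ k, ∑ i, |suA (W j) k i x|) (fun j _ => Finset.sum_nonneg fun k _ =>
        Finset.sum_nonneg fun i _ => abs_nonneg _) (Finset.mem_univ j))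
    refine le_trans ?_ (Finset.single_le_sum
      (f := fun k => ∑ i, |suA (W j) k i x|) (fun k _ =>
        Finset.sum_nonneg fun i _ => abs_nonneg _) (Finset.mem_univ k))
    exact Finset.single_le_sum (f := fun i => |suA (W j) k i x|) (fun i _ => abs_nonneg _)
      (Finset.mem_univ i)
  refine ⟨fun k i j => (hint j k i).congr (hrep k i j).symm, ?_⟩
  have e1 : ∑ k, ∑ i, ∑ j : Option (Fin 3), ∫ x, |To R j (Pp δ (cu δ φ k i)) x i| =
      ∫ x, G x := by
    rw [hG, integral_finsetSum _ fun j _ => integrable_finsetSum _ fun k _ =>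
      integrable_finsetSum _ fun i _ => (hint j k i).abs]
    have e2 : ∀ j : Option (Fin 3), ∫ x, ∑ k, ∑ i, |suA (W j) k i x| =
        ∑ k, ∑ i, ∫ x, |To R j (Pp δ (cu δ φ k i)) x i| := by
      intro j
      rw [integral_finsetSum _ fun k _ => integrable_finsetSum _ fun i _ => (hint j k i).abs]
      refine Finset.sum_congr rfl fun k _ => ?_
      rw [integral_finsetSum _ fun i _ => (hint j k i).abs]
      refine Finset.sum_congr rfl fun i _ => ?_
      apply integral_congr_ae
      filter_upwards [hrep k i j] with x hx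
      rw [hx]
    simp only [e2]
    rw [Finset.sum_comm (s := (Finset.univ : Finset (Option (Fin 3))))]
    refine Finset.sum_congr rfl fun k _ => ?_
    rw [Finset.sum_comm (s := (Finset.univ : Finset (Option (Fin 3))))]
  rw [e1]
  calc A * ∫ x, G x ≤ A * (4 * S / A) := mul_le_mul_of_nonneg_left hGle hA.le
    _ = 4 * S := by field_simp

end Pool.Agent.TF.D
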