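import Pool.Agent.TF.Semi
import Pool.Agent.TF.D.Asm
import Pool.Agent.TF.D.Hb
import Pool.Agent.TF.D.En
import Pool.Agent.TF.D.Car
import Pool.Agent.TF.D.Dk
import Pool.Agent.TF.D.Ext
import Pool.Agent.TF.D.Der
import Pool.Agent.TF.D.Hs
import Pool.Agent.TF.D.Mu
import Pool.Agent.TF.D.Max
import Pool.Agent.TF.D.Rep
import Pool.Agent.TF.D.Lo
import Pool.Agent.TF.D.Sb
import Pool.Agent.TF.D.Box
import Pool.Agent.TF.D.Su
import Pool.Agent.TF.D.Sub
import Pool.Agent.TF.D.Fef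
import Pool.Agent.TF.D.Cv
import Pool.Agent.TF.D.Sup

/-!
# Block D: the decomposition of the data
-/

set_option autoImplicit false

namespace Pool.Agent.TF

/-- block D: every divergence-free `u₀` in `L² ∩ bmo⁻¹₀` has the decomposition `Deco` -/
theorem std_ok : StD := by
  have hS : D.SpSub := D.sub_ok D.dk_ok D.ext_ok D.der_ok D.u_ok D.max_ok
  have hF : D.SpFef := D.fef_ok D.dk_ok D.ext_ok D.car (D.mu_ok D.dk_ok D.ext_ok) hS
    (D.en_ok D.u_ok)
  have hH : D.SpHS := D.hs_ok D.dk_ok D.ext_ok D.der_ok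
  exact D.asm_ok sg_ok hF (D.box_ok D.sb_ok) D.rep_ok D.lo_ok hH D.cv_ok D.sup_ok D.hb_ok

end Pool.Agent.TF
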