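import Pool.Agent.TF.Def

/-!
# Block D (decomposition of the data): definitions and statements
-/

set_option autoImplicit false

namespace Pool.Agent.TF.D

open MeasureTheory Set Filter Topology Pool.Agent.TO Pool.Agent.TB Pool.Agent.TC Pool.Agent.TP
  Pool.Agent.TF
open scoped ENNReal NNReal Real InnerProductSpace SchwartzMap LineDeriv

/-! ## Scalar Poisson extension -/

/-- convolution of a scalar function with a kernel, `∫ z, κ z * h (x - z)` -/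
noncomputable def pe (κ : ℝ → E3 → ℝ) (h : E3 → ℝ) (x : E3) (y : ℝ) : ℝ := cvf (κ y) h x

/-- a family of kernels which is dominated, locally in `y`, by the Poisson kernel -/
structure DK (κ : ℝ → E3 → ℝ) : Prop where
  cont : ContinuousOn (fun p : E3 × ℝ => κ p.2 p.1) {p | 0 < p.2}
  dom : ∀ y0 > 0, ∃ C, ∀ y, y0 ≤ y → ∀ x, |κ y x| ≤ C * (y * sg y x ^ 4)

/-- D1a: the six kernel families are dominated -/
def SpDK : Prop := DK pk ∧ (∀ j, DK (dk j)) ∧ DK yk ∧ (∀ i j, DK (ddk i j)) ∧ (∀ j, DK (dyk j)) ∧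
  DK yyk

/-- D1b: continuity, bound, decay, `L²` bound of the extension by a dominated family -/
def SpExt : Prop := ∀ κ : ℝ → E3 → ℝ, DK κ → ∀ h : E3 → ℝ, MemLp h 2 (volume : Measure E3) →
  ContinuousOn (fun p : E3 × ℝ => pe κ h p.1 p.2) {p | 0 < p.2} ∧
  (∀ y0 > 0, ∃ C, ∀ x y, y0 ≤ y → |pe κ h x y| ≤ C) ∧
  (∀ y0 > 0, ∀ ε > 0, ∃ R, ∀ x y, y0 ≤ y → (R ≤ ‖x‖ ∨ R ≤ y) → |pe κ h x y| ≤ ε) ∧
  (∀ y0 > 0, ∃ C, ∀ y, y0 ≤ y → Integrable (fun x => pe κ h x y ^ 2) ∧ ∫ x, pe κ h x y ^ 2 ≤ C)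

/-- D1c: the derivatives of the Poisson extension -/
def SpDer : Prop := ∀ h : E3 → ℝ, MemLp h 2 (volume : Measure E3) → ∀ (x : E3) (y : ℝ), 0 < y →
  (∀ j, HasDerivAt (fun t : ℝ => pe pk h (x + t • ee j) y) (pe (dk j) h x y) 0) ∧
  HasDerivAt (fun s => pe pk h x s) (pe yk h x y) y ∧
  (∀ i j, HasDerivAt (fun t : ℝ => pe (dk j) h (x + t • ee i) y) (pe (ddk i j) h x y) 0) ∧
  (∀ j, HasDerivAt (fun t : ℝ => pe yk h (x + t • ee j) y) (pe (dyk j) h x y) 0) ∧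
  (∀ j, HasDerivAt (fun s => pe (dk j) h x s) (pe (dyk j) h x y) y) ∧
  HasDerivAt (fun s => pe yk h x s) (pe yyk h x y) y ∧
  (∑ k, pe (ddk k k) h x y = -pe yyk h x y)

/-! ## Systems of conjugate harmonic functions -/

/-- a system of conjugate harmonic functions on `y > -δ`; the direction `0` is `y`, the direction
`j.succ` is `x_j`; `M a b = ∂_a V_b`, `W a b = ∂_a ∂_a V_b` -/
structure HS (δ : ℝ) (V : Fin 4 → E3 → ℝ → ℝ) (M W : Fin 4 → Fin 4 → E3 → ℝ → ℝ) : Prop where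
  pos : 0 < δ
  dx : ∀ b (j : Fin 3) x y, -δ < y →
    HasDerivAt (fun t : ℝ => V b (x + t • ee j) y) (M j.succ b x y) 0
  dy : ∀ b x y, -δ < y → HasDerivAt (fun s => V b x s) (M 0 b x y) y
  dxx : ∀ b (j : Fin 3) x y, -δ < y →
    HasDerivAt (fun t : ℝ => M j.succ b (x + t • ee j) y) (W j.succ b x y) 0
  dyy : ∀ b x y, -δ < y → HasDerivAt (fun s => M 0 b x s) (W 0 b x y) y
  symm : ∀ a b x y, -δ < y → M a b x y = M b a x y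
  tr : ∀ x y, -δ < y → ∑ a, M a a x y = 0
  harm : ∀ b x y, -δ < y → ∑ a, W a b x y = 0
  cV : ∀ b, ContinuousOn (fun p : E3 × ℝ => V b p.1 p.2) {p | -δ < p.2}
  cM : ∀ a b, ContinuousOn (fun p : E3 × ℝ => M a b p.1 p.2) {p | -δ < p.2}
  cW : ∀ a b, ContinuousOn (fun p : E3 × ℝ => W a b p.1 p.2) {p | -δ < p.2}
  bd : ∃ C, ∀ a b x y, 0 ≤ y → |V b x y| ≤ C ∧ |M a b x y| ≤ C ∧ |W a b x y| ≤ C
  dec : ∀ ε > 0, ∃ R, ∀ b x y, 0 ≤ y → (R ≤ ‖x‖ ∨ R ≤ y) → |V b x y| ≤ ε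
  l2 : ∃ C, ∀ a b y, 0 ≤ y →
    (Integrable (fun x => V b x y ^ 2) ∧ ∫ x, V b x y ^ 2 ≤ C) ∧
    (Integrable (fun x => M a b x y ^ 2) ∧ ∫ x, M a b x y ^ 2 ≤ C) ∧
    (Integrable (fun x => W a b x y ^ 2) ∧ ∫ x, W a b x y ^ 2 ≤ C)
  l1 : ∀ b, Integrable (fun x => V b x 0)
  ext : ∀ b x y, 0 < y → V b x y = cvf (pk y) (fun z => V b z 0) x

/-- `|V|²` -/
noncomputable def Vn (V : Fin 4 → E3 → ℝ → ℝ) (x : E3) (y : ℝ) : ℝ := ∑ b, V b x y ^ 2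

/-- `|M|²` -/
noncomputable def Mn (M : Fin 4 → Fin 4 → E3 → ℝ → ℝ) (x : E3) (y : ℝ) : ℝ :=
  ∑ a, ∑ b, M a b x y ^ 2

/-- the Hardy norm of the boundary values -/
noncomputable def Kn (V : Fin 4 → E3 → ℝ → ℝ) : ℝ := ∫ x, √(Vn V x 0)

/-- `(|V|² + κ)^q` -/
noncomputable def Uq (q κ : ℝ) (V : Fin 4 → E3 → ℝ → ℝ) (x : E3) (y : ℝ) : ℝ :=
  (Vn V x y + κ) ^ q

/-- `∂_a (|V|² + κ)^q` -/
noncomputable def Ud (q κ : ℝ) (V : Fin 4 → E3 → ℝ → ℝ) (M : Fin 4 → Fin 4 → E3 → ℝ → ℝ)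
    (a : Fin 4) (x : E3) (y : ℝ) : ℝ :=
  2 * q * (Vn V x y + κ) ^ (q - 1) * ∑ b, V b x y * M a b x y

/-- `∂_a² (|V|² + κ)^q` -/
noncomputable def Udd (q κ : ℝ) (V : Fin 4 → E3 → ℝ → ℝ) (M W : Fin 4 → Fin 4 → E3 → ℝ → ℝ)
    (a : Fin 4) (x : E3) (y : ℝ) : ℝ :=
  2 * q * (Vn V x y + κ) ^ (q - 1) * ∑ b, (M a b x y ^ 2 + V b x y * W a b x y) -
    4 * q * (1 - q) * (Vn V x y + κ) ^ (q - 2) * (∑ b, V b x y * M a b x y) ^ 2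

/-- D3: the Stein-Weiss inequality -/
def SpSW : Prop := ∀ (M : Fin 4 → Fin 4 → ℝ) (v : Fin 4 → ℝ), (∀ a b, M a b = M b a) →
  ∑ a, M a a = 0 → ∑ a, (∑ b, v b * M a b) ^ 2 ≤ 3 / 4 * (∑ a, ∑ b, M a b ^ 2) * ∑ b, v b ^ 2

/-- D4: calculus for `(|V|² + κ)^q` -/
def SpU : Prop := ∀ (δ : ℝ) (V : Fin 4 → E3 → ℝ → ℝ) (M W : Fin 4 → Fin 4 → E3 → ℝ → ℝ),
  HS δ V M W → ∀ q κ : ℝ, 1 / 3 ≤ q → q ≤ 1 → 0 < κ →
  (∀ (j : Fin 3) x y, -δ < y →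
    HasDerivAt (fun t : ℝ => Uq q κ V (x + t • ee j) y) (Ud q κ V M j.succ x y) 0) ∧
  (∀ x y, -δ < y → HasDerivAt (fun s => Uq q κ V x s) (Ud q κ V M 0 x y) y) ∧
  (∀ (j : Fin 3) x y, -δ < y →
    HasDerivAt (fun t : ℝ => Ud q κ V M j.succ (x + t • ee j) y) (Udd q κ V M W j.succ x y) 0) ∧
  (∀ x y, -δ < y → HasDerivAt (fun s => Ud q κ V M 0 x s) (Udd q κ V M W 0 x y) y) ∧
  ContinuousOn (fun p : E3 × ℝ => Uq q κ V p.1 p.2) {p | -δ < p.2} ∧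
  (∀ a, ContinuousOn (fun p : E3 × ℝ => Ud q κ V M a p.1 p.2) {p | -δ < p.2}) ∧
  (∀ a, ContinuousOn (fun p : E3 × ℝ => Udd q κ V M W a p.1 p.2) {p | -δ < p.2}) ∧
  (∀ x y, -δ < y → 2 * q * (1 - 3 / 2 * (1 - q)) * (Vn V x y + κ) ^ (q - 1) * Mn M x y ≤
    ∑ a, Udd q κ V M W a x y)

/-- D5a: the maximum principle on the half space -/
def SpMax : Prop := ∀ (S : E3 → ℝ → ℝ) (D1 D2 : Fin 4 → E3 → ℝ → ℝ),
  ContinuousOn (fun p : E3 × ℝ => S p.1 p.2) {p | 0 < p.2} →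
  (∀ (j : Fin 3) x y, 0 < y → HasDerivAt (fun t : ℝ => S (x + t • ee j) y) (D1 j.succ x y) 0) →
  (∀ x y, 0 < y → HasDerivAt (fun s => S x s) (D1 0 x y) y) →
  (∀ (j : Fin 3) x y, 0 < y →
    HasDerivAt (fun t : ℝ => D1 j.succ (x + t • ee j) y) (D2 j.succ x y) 0) →
  (∀ x y, 0 < y → HasDerivAt (fun s => D1 0 x s) (D2 0 x y) y) →
  (∀ x y, 0 < y → 0 ≤ ∑ a, D2 a x y) →
  (∀ ε > 0, ∃ y0 > 0, ∀ x y, 0 < y → y ≤ y0 → S x y ≤ ε) →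
  (∀ ε > 0, ∃ R, ∀ x y, 0 < y → (R ≤ ‖x‖ ∨ R ≤ y) → S x y ≤ ε) →
  ∀ x y, 0 < y → S x y ≤ 0

/-- D5: `|V|^{2/3}` is at most the Poisson extension of its boundary values -/
def SpSub : Prop := ∀ (δ : ℝ) (V : Fin 4 → E3 → ℝ → ℝ) (M W : Fin 4 → Fin 4 → E3 → ℝ → ℝ),
  HS δ V M W → ∀ x y, 0 < y →
  Vn V x y ^ (1 / 3 : ℝ) ≤ cvf (pk y) (fun z => Vn V z 0 ^ (1 / 3 : ℝ)) x

/-- D6: the energy inequality -/
def SpEn : Prop := ∃ C > 0, ∀ (δ : ℝ) (V : Fin 4 → E3 → ℝ → ℝ)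
  (M W : Fin 4 → Fin 4 → E3 → ℝ → ℝ), HS δ V M W → ∀ κ τ : ℝ, 0 < κ → 0 < τ →
  ∫⁻ y in Ioo 0 τ, ∫⁻ x, ENNReal.ofReal (y * (Mn M x y / √(Vn V x y + κ))) ≤
    ENNReal.ofReal (C * Kn V)

/-! ## Carleson embedding -/

/-- the Carleson box condition for the Poisson extension of `f`, for boxes of size at most `τ` -/
def Box (N τ : ℝ) (f : V3) : Prop := ∀ (z : E3) (r : ℝ), 0 < r → r ≤ τ →
  ∫⁻ y in Ioo 0 r, ∫⁻ x in Metric.closedBall z r, ENNReal.ofReal (y * ‖cvf (pk y) f x‖ ^ 2) ≤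
    ENNReal.ofReal (N * r ^ 3)

/-- the measure `y |P_y f|² dx dy` on `0 < y < τ` -/
noncomputable def mu (τ : ℝ) (f : V3) : Measure (E3 × ℝ) :=
  ((volume : Measure E3).prod (volume.restrict (Ioo 0 τ))).withDensity
    fun p => ENNReal.ofReal (p.2 * ‖cvf (pk p.2) f p.1‖ ^ 2)

/-- D2: Carleson embedding with exponent `3/2` -/
def SpCar : Prop := ∃ C > 0, ∀ (μ : Measure (E3 × ℝ)) (N : ℝ), 0 ≤ N →
  (∀ᵐ p ∂μ, 0 < p.2) →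
  (∀ (z : E3) (r : ℝ), 0 < r → μ (Metric.closedBall z r ×ˢ Ioc 0 r) ≤ ENNReal.ofReal (N * r ^ 3)) →
  ∀ g : E3 → ℝ, Continuous g → (∀ x, 0 ≤ g x) → (∃ B, ∀ x, g x ≤ B) →
  Integrable (fun x => g x ^ (3 / 2 : ℝ)) →
  ∫⁻ p, ENNReal.ofReal ((cvf (pk p.2) g p.1) ^ (3 / 2 : ℝ)) ∂μ ≤
    ENNReal.ofReal (C * N * ∫ x, g x ^ (3 / 2 : ℝ))

/-- D2b: the box condition for all radii, and the measure `mu` in iterated form -/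
def SpMu : Prop := ∀ (f : V3) (N τ : ℝ), 0 ≤ N → 0 < τ → Box N τ f →
  (∀ᵐ p ∂(mu τ f), 0 < p.2) ∧
  (∀ (z : E3) (r : ℝ), 0 < r →
    mu τ f (Metric.closedBall z r ×ˢ Ioc 0 r) ≤ ENNReal.ofReal (8 * N * r ^ 3)) ∧
  (∀ F : E3 × ℝ → ℝ≥0∞, Measurable F → ∫⁻ p, F p ∂(mu τ f) =
    ∫⁻ y in Ioo 0 τ, ∫⁻ x, ENNReal.ofReal (y * ‖cvf (pk y) f x‖ ^ 2) * F (x, y))

/-- D7: Fefferman's duality inequality -/
def SpFef : Prop := ∃ C > 0, ∀ (δ : ℝ) (V : Fin 4 → E3 → ℝ → ℝ)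
  (M W : Fin 4 → Fin 4 → E3 → ℝ → ℝ), HS δ V M W → ∀ (f : V3) (N τ : ℝ), 0 ≤ N → 0 < τ →
  Box N τ f → ∀ (i : Fin 3) (a b : Fin 4),
  |∫ y in (0:ℝ)..τ, y * ∫ x, cvf (pk y) f x i * M a b x y| ≤ C * √N * Kn V

/-! ## From the heat extension to the Poisson extension -/

/-- the density of the subordination -/
noncomputable def sb (y s : ℝ) : ℝ := y / (2 * √π * s ^ (3 / 2 : ℝ)) * Real.exp (-(y ^ 2 / (4 * s)))

/-- D9a: subordination -/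
def SpSb : Prop :=
  (∀ y : ℝ, 0 < y → IntegrableOn (sb y) (Ioi 0) ∧ ∫ s in Ioi (0:ℝ), sb y s = 1) ∧
  (∀ (y : ℝ) (f : V3) (x : E3), 0 < y → cvf (pk y) f x = ∫ s in Ioi (0:ℝ), sb y s • heatF s f x) ∧
  (∀ (y : ℝ) (f : V3) (x : E3), 0 < y →
    ENNReal.ofReal (‖cvf (pk y) f x‖ ^ 2) ≤
      ∫⁻ s in Ioi (0:ℝ), ENNReal.ofReal (sb y s) * ‖heatF s f x‖ₑ ^ 2) ∧
  (∀ r s : ℝ, 0 < r → 0 < s →
    ∫⁻ y in Ioo 0 r, ENNReal.ofReal (y * sb y s) ≤ 1 ∧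
    ∫⁻ y in Ioo 0 r, ENNReal.ofReal (y * sb y s) ≤ ENNReal.ofReal (r ^ 3 / s ^ (3 / 2 : ℝ)))

/-- D9: the Carleson condition for the Poisson extension -/
def SpBox : Prop := ∀ f : V3, BmoX f → ∀ N > 0, ∃ τ > 0, Box N τ f

/-! ## The reproducing formula -/

/-- the field whose `i`-th component is `∂_k (P_δ φ)_i - ∂_i (P_δ φ)_k` -/
noncomputable def cu (δ : ℝ) (φ : V3) (k i : Fin 3) : V3 := Dp k δ φ - PM k i (Dp i δ φ)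

/-- the low frequency part -/
noncomputable def lo (τ : ℝ) (f : V3) : V3 := Pp (2 * τ) f - (2 * τ) • Yp (2 * τ) f

/-- D8: reproducing formula -/
def SpRep : Prop := SG → ∀ (f φ : V3), IsDivFree f → ∀ τ δ : ℝ, 0 < τ → 0 < δ →
  ⟪f, Pp (δ + δ) φ⟫_ℝ = ⟪lo τ f, Pp (δ + δ) φ⟫_ℝ -
    4 * ∑ k, ∑ i, ∫ y in (0:ℝ)..τ, y * ⟪PM i i (Pp y f), Dp k (y + δ) (cu δ φ k i)⟫_ℝ

/-- D8b: properties of the low frequency part -/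
def SpLo : Prop := ∀ (f : V3) (τ : ℝ), 0 < τ → IsDivFree f →
  IsDivFree (lo τ f) ∧ ∃ L > 0, Bd (lo τ f) L

/-! ## The harmonic system of a field -/

/-- `V_0 = -(P_{y+δ} q)_i`, `V_{j+1} = (P_{y+δ} R_j q)_i` -/
noncomputable def Vq (R : Fin 3 → V3 →L[ℝ] V3) (δ : ℝ) (q : V3) (i : Fin 3) (κ : ℝ → E3 → ℝ) :
    Fin 4 → E3 → ℝ → ℝ :=
  Fin.cons (fun x y => -pe κ (fun z => q z i) x (y + δ))
    (fun j x y => pe κ (fun z => R j q z i) x (y + δ))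

/-- `M a b = ∂_a V_b` -/
noncomputable def Mq (R : Fin 3 → V3 →L[ℝ] V3) (δ : ℝ) (q : V3) (i : Fin 3) :
    Fin 4 → Fin 4 → E3 → ℝ → ℝ :=
  Fin.cons (Vq R δ q i yk) (fun k => Vq R δ q i (dk k))

/-- `W a b = ∂_a ∂_a V_b` -/
noncomputable def Wq (R : Fin 3 → V3 →L[ℝ] V3) (δ : ℝ) (q : V3) (i : Fin 3) :
    Fin 4 → Fin 4 → E3 → ℝ → ℝ :=
  Fin.cons (Vq R δ q i yyk) (fun k => Vq R δ q i (ddk k k))

/-- D1h: the harmonic system of a field -/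
def SpHS : Prop := ∀ R, SG → RZ R → ∀ (q : V3) (i : Fin 3) (δ : ℝ), 0 < δ →
  (∀ j : Option (Fin 3), Integrable (fun x => To R j (Pp δ q) x i)) →
  HS δ (Vq R δ q i pk) (Mq R δ q i) (Wq R δ q i) ∧
  Kn (Vq R δ q i pk) ≤ ∑ j : Option (Fin 3), ∫ x, |To R j (Pp δ q) x i|

/-! ## The constraint set -/

/-- the convex set of the sums `∑ T_j ∂_k g_{kj}` -/
def KA (R : Fin 3 → V3 →L[ℝ] V3) (A : ℝ) : Set V3 :=
  {c | ∃ (g : Fin 3 → Option (Fin 3) → V3) (dg : Fin 3 → Option (Fin 3) → Fin 3 → V3),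
    (∀ k j i, IsWeakDeriv i (g k j) (dg k j i)) ∧ (∀ k j, Bd (g k j) A) ∧
    (∀ k j i, PM i 0 (g k j) = -PM k 0 (g i j)) ∧
    c = ∑ k, ∑ j : Option (Fin 3), To R j (dg k j k)}

/-- D10a: the constraint set is convex and contains `0` -/
def SpCv : Prop := ∀ R, RZ R → ∀ A : ℝ, 0 < A → Convex ℝ (KA R A) ∧ (0 : V3) ∈ KA R A ∧
  ∀ δ > 0, ∀ c ∈ KA R A, Pp δ c ∈ KA R A

/-- D10b: a bound for a functional on the constraint set gives an `L¹` bound -/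
def SpSup : Prop := ∃ C > 0, ∀ R, SG → RZ R → ∀ A δ S : ℝ, 0 < A → 0 < δ → ∀ φ : V3,
  (∀ c ∈ KA R A, ⟪c, Pp (δ + δ) φ⟫_ℝ ≤ S) →
  (∀ k i (j : Option (Fin 3)), Integrable (fun x => To R j (Pp δ (cu δ φ k i)) x i)) ∧
  A * ∑ k, ∑ i, ∑ j : Option (Fin 3), ∫ x, |To R j (Pp δ (cu δ φ k i)) x i| ≤ C * S

/-- D10c: Hahn-Banach in a Hilbert space -/
def SpHB : Prop := ∀ (K : Set V3) (v : V3), Convex ℝ K → K.Nonempty →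
  (∀ (φ : V3) (S : ℝ), (∀ c ∈ K, ⟪c, φ⟫_ℝ ≤ S) → ⟪v, φ⟫_ℝ ≤ S) → v ∈ closure K

/-- D11: the assembly -/
def SpAsm : Prop := SG → SpFef → SpBox → SpRep → SpLo → SpHS → SpCv → SpSup → SpHB → StD

end Pool.Agent.TF.D
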